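import Mathlib

/-!
# MP_4c8b8e_co, project FIRE, macro part: abstract topological block, definitions

`T` is a triangulated sphere (a simple graph on `V`), `G` a graph on `W` lying over `T`.
-/

set_option autoImplicit false

open Classical

namespace Pool.Agent.FM

section

variable {V W : Type}

/-! ### sets of vertices of a graph -/

/-- `S` is nonempty and connected -/
def Cn (T : SimpleGraph V) (S : Set V) : Prop :=
  S.Nonempty ∧ ∀ a ∈ S, ∀ b ∈ S, ∃ w : T.Walk a b, ∀ z ∈ w.support, z ∈ S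

/-- `a` and `b` are joined inside `A` -/
def Jn (T : SimpleGraph V) (A : Set V) (a b : V) : Prop :=
  ∃ w : T.Walk a b, ∀ z ∈ w.support, z ∈ A

/-- `c` is a component of `A` -/
def Co (T : SimpleGraph V) (A c : Set V) : Prop :=
  Cn T c ∧ c ⊆ A ∧ ∀ a ∈ c, ∀ b ∈ A, T.Adj a b → b ∈ c

/-- `z` is adjacent to the set `A` -/
def At (T : SimpleGraph V) (A : Set V) (z : V) : Prop := ∃ a ∈ A, T.Adj z a

/-- the number of edges from `A` to `B` -/
noncomputable def cut (T : SimpleGraph V) (A B : Set V) : ℕ :=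
  Nat.card {e : V × V // e.1 ∈ A ∧ e.2 ∈ B ∧ T.Adj e.1 e.2}

/-- the points at distance at most `r` from `U` -/
def nbh (T : SimpleGraph V) (U : Set V) (r : ℕ) : Set V :=
  {z | ∃ u ∈ U, ∃ w : T.Walk u z, w.length ≤ r}

/-! ### contours -/

/-- every edge lies in exactly two triangles -/
def Tri (T : SimpleGraph V) : Prop := ∀ a b, T.Adj a b →
  ∃ c d, c ≠ d ∧ ∀ e, (T.Adj a e ∧ T.Adj b e) ↔ (e = c ∨ e = d)

/-- the first cohomology modulo two vanishes -/
def Hone (T : SimpleGraph V) : Prop := ∀ g : V → V → ZMod 2, (∀ a b, g a b = g b a) →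
  (∀ a b c, T.Adj a b → T.Adj b c → T.Adj c a → g a b + g b c + g c a = 0) →
    ∃ f : V → ZMod 2, ∀ a b, T.Adj a b → g a b = f a + f b

/-- the darts from `Y` to `c` -/
abbrev Dr (T : SimpleGraph V) (Y c : Set V) : Type :=
  {e : V × V // e.1 ∈ Y ∧ e.2 ∈ c ∧ T.Adj e.1 e.2}

/-- the graph of darts: two darts are adjacent if they lie in a common triangle -/
def DG (T : SimpleGraph V) (Y c : Set V) : SimpleGraph (Dr T Y c) where
  Adj e e' := (e.1.1 = e'.1.1 ∧ T.Adj e.1.2 e'.1.2) ∨ (e.1.2 = e'.1.2 ∧ T.Adj e.1.1 e'.1.1)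
  symm := ⟨by
    rintro e e' (⟨h1, h2⟩ | ⟨h1, h2⟩)
    · exact Or.inl ⟨h1.symm, h2.symm⟩
    · exact Or.inr ⟨h1.symm, h2.symm⟩⟩
  loopless := ⟨by
    rintro e (⟨_, h2⟩ | ⟨_, h2⟩)
    · exact h2.ne rfl
    · exact h2.ne rfl⟩

/-- outer contours: a half turn costs at most half of the number of darts -/
def ContO (T : SimpleGraph V) : Prop := ∀ Y c : Set V, Cn T Y → Co T Yᶜ c →
  ∀ x ∈ c, ∀ x' ∈ c, At T Y x → At T Y x' →
    ∃ w : T.Walk x x', 2 * w.length ≤ cut T Y c ∧ ∀ z ∈ w.support, z ∈ c ∧ At T Y z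

/-- contours: outer or inner side, a half turn costs at most a quarter of the number of darts
plus one -/
def ContQ (T : SimpleGraph V) : Prop := ∀ Y c : Set V, Cn T Y → Co T Yᶜ c →
  ∀ x ∈ c, ∀ x' ∈ c, At T Y x → At T Y x' →
    ∃ w : T.Walk x x', 4 * w.length ≤ cut T Y c + 4 ∧
      ∀ z ∈ w.support, (z ∈ c ∧ At T Y z) ∨ (z ∈ Y ∧ At T c z)

/-! ### a graph over `T`, fires -/

/-- `G` lies over `T` -/
structure Ov (T : SimpleGraph V) (G : SimpleGraph W) (p : W → V) : Prop where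
  adj : ∀ u v, G.Adj u v → p u = p v ∨ T.Adj (p u) (p v)
  mov : ∀ u v, p u = p v ∨ T.Adj (p u) (p v) →
    ∃ w : G.Walk u v, w.length ≤ 12 ∧ ∀ z ∈ w.support, p z = p u ∨ p z = p v
  sur : ∀ f, ∃ u, p u = f

/-- `u` is burnt (or touched, if `u` is a guard) by the time `n`; the fire starts in `S`, the
guards are the elements of `P` -/
def By (G : SimpleGraph W) (P S : Set W) (u : W) (n : ℕ) : Prop :=
  ∃ s ∈ S, ∃ w : G.Walk s u, w.length ≤ n ∧ ∀ z ∈ w.support, z ∈ P → z = u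

/-- the burnt set -/
def Bu (G : SimpleGraph W) (P S : Set W) (n : ℕ) : Set W := {u | u ∉ P ∧ By G P S u n}

/-- the guards touched by the time `n` -/
def Tch (G : SimpleGraph W) (P S : Set W) (n : ℕ) : Set W := {u | u ∈ P ∧ By G P S u n}

/-- at most `t + s` guards are touched by the time `t` -/
def Hl (G : SimpleGraph W) (P S : Set W) (s : ℕ) : Prop := ∀ t, (Tch G P S t).ncard ≤ t + s

end

/-! ### environments -/

/-- the data: guards `P`, start `v0`, base time `t1`, the set `X` of points near the large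
clusters, the set `gd` of good points -/
structure Env (V W : Type) where
  T : SimpleGraph V
  G : SimpleGraph W
  p : W → V
  P : Set W
  v0 : W
  t1 : ℕ
  X : Set V
  gd : Set V

namespace Env

variable {V W : Type} (E : Env V W)

/-- the base: the set burnt by the time `t1` -/
def B : Set W := Bu E.G E.P {E.v0} E.t1

/-- free vertices over `X` -/
def Xh : Set W := {u | u ∉ E.P ∧ E.p u ∈ E.X}

/-- the facts about good points and chambers (components of the complement of `X`) -/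
structure Ok : Prop where
  ov : Ov E.T E.G E.p
  con : E.T.Preconnected
  gX : ∀ z ∈ E.gd, z ∉ E.X
  gP : ∀ u, E.p u ∈ E.gd → u ∉ E.P
  xg : ∀ z x, z ∉ E.X → x ∈ E.X → E.T.Adj z x → z ∈ E.gd
  ch : ∀ z, z ∉ E.X → ∃ g ∈ E.gd, Jn E.T (E.X)ᶜ z g
  bg : ∀ u ∈ E.B, E.p u ∉ E.X → ∃ u' ∈ E.B, E.p u' ∈ E.gd ∧ Jn E.T (E.X)ᶜ (E.p u) (E.p u')
  v0B : E.v0 ∈ E.B

end Env

/-- steps of the chains: jumps inside a reached chamber, or steps of `G` ending in `M - B` or over
a good point of a reached chamber -/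
def Rel {V W : Type} (E : Env V W) (M : Set W) (C : Set V) (u v : W) : Prop :=
  ((E.p u ∈ E.gd ∧ E.p u ∈ C) ∧ (E.p v ∈ E.gd ∧ E.p v ∈ C) ∧ Jn E.T (E.X)ᶜ (E.p u) (E.p v)) ∨
    (E.G.Adj u v ∧ ((v ∈ M ∧ v ∉ E.B) ∨ (E.p v ∈ E.gd ∧ E.p v ∈ C)))

/-- chains from the base to `a` with at most `J` vertices in `M - B` -/
structure Chn {V W : Type} (E : Env V W) (M : Set W) (C : Set V) (J : ℕ) (a : W) (N : ℕ)
    (θ : ℕ → W) : Prop where
  zero : θ 0 ∈ E.B
  last : θ N = a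
  rel : ∀ i < N, Rel E M C (θ i) (θ (i + 1))
  card : ((Finset.range (N + 1)).filter fun i => θ i ∈ M ∧ θ i ∉ E.B).card ≤ J

/-- the result of the growth procedure with threshold `m`: `M` = base and reached free vertices
over `X`, `C` = union of the reached chambers, `L` = last layer -/
structure Rea {V W : Type} (E : Env V W) (m : ℕ) where
  J : ℕ
  M : Set W
  C : Set V
  L : Set W
  J_le : J * (m + 1) ≤ E.Xh.ncard
  BM : E.B ⊆ M
  MX : ∀ u ∈ M, u ∉ E.B → u ∈ E.Xh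
  CX : ∀ z ∈ C, z ∉ E.X
  Ccl : ∀ z ∈ C, ∀ y, y ∉ E.X → E.T.Adj z y → y ∈ C
  BC : ∀ u ∈ E.B, E.p u ∈ E.gd → E.p u ∈ C
  LX : ∀ u ∈ L, u ∈ E.Xh ∧ u ∉ M
  L_card : L.ncard ≤ m
  cl1 : ∀ u v, (u ∈ M ∨ (E.p u ∈ E.gd ∧ E.p u ∈ C)) → E.G.Adj u v → v ∈ E.Xh → v ∈ M ∨ v ∈ L
  cl2 : ∀ u v, u ∈ M → E.G.Adj u v → E.p v ∈ E.gd → E.p v ∈ C
  back : ∀ u ∈ M, u ∉ E.B → ∃ v, (v ∈ E.B ∨ (E.p v ∈ E.gd ∧ E.p v ∈ C)) ∧
    ∃ w : E.G.Walk v u, w.length ≤ J ∧ ∀ z ∈ w.support, z = v ∨ (z ∈ M ∧ z ∉ E.B)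
  chain : ∀ a, E.p a ∈ E.gd → E.p a ∈ C → ∃ N θ, Chn E M C J a N θ

/-- the new set of guards -/
def nxt {V W : Type} (E : Env V W) {m : ℕ} (R : Rea E m) (T' : ℕ) : Set W :=
  Tch E.G E.P {E.v0} T' ∪ R.L

/-! ### mixed paths -/

/-- a piece: nothing, or a walk of `T` inside `A` between good points -/
def Pce {V W : Type} (E : Env V W) (A : Set V) (u v : W) (n : ℕ) : Prop :=
  (u = v ∧ n = 0) ∨ (E.p u ∈ E.gd ∧ E.p v ∈ E.gd ∧
    ∃ w : E.T.Walk (E.p u) (E.p v), w.length = n ∧ ∀ z ∈ w.support, z ∈ A)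

/-- mixed paths: pieces (total length `n`) joined by `k` steps of `G` between free vertices -/
inductive Mix {V W : Type} (E : Env V W) (A : Set V) : W → W → ℕ → ℕ → Prop
  | one (u v : W) (n : ℕ) : Pce E A u v n → Mix E A u v n 0
  | cons (u v v' u' : W) (n n' k : ℕ) : Pce E A u v n → E.G.Adj v v' → v ∉ E.P → v' ∉ E.P →
      Mix E A v' u' n' k → Mix E A u u' (n + n') (k + 1)

/-- the border of `C`: points of `C` adjacent to the complement and points outside adjacent to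
`C` -/
def bor {V : Type} (T : SimpleGraph V) (C : Set V) : Set V :=
  {z | z ∈ C ∧ At T Cᶜ z} ∪ {z | z ∉ C ∧ At T C z}

/-- every walk of `T` inside `Z` can be followed in `G` at distance at most `D` at the cost
`(1 + 1 / M)` times its length plus `C0` -/
def Fol {V W : Type} (T : SimpleGraph V) (G : SimpleGraph W) (p : W → V) (Z : Set V)
    (M D C0 : ℕ) : Prop :=
  ∀ (x y : V) (w : T.Walk x y), (∀ z ∈ w.support, z ∈ Z) → ∀ u v : W, p u = x → p v = y →
    ∃ g : G.Walk u v, M * g.length ≤ (M + 1) * w.length + M * C0 ∧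
      ∀ z ∈ g.support, p z ∈ nbh T {z' | z' ∈ w.support} D

/-! ### clusters and fills -/

/-- the data for the fills: `bl` = blocked points, `Z` = coarse vertices, clusters of size at most
`m0` are dust, `r` = radius -/
structure Fld (V : Type) where
  T : SimpleGraph V
  bl : Set V
  Z : Set V
  m0 : ℕ
  r : ℕ

namespace Fld

variable {V : Type} (F : Fld V)

/-- large clusters -/
def big (d : Set V) : Prop := Co F.T F.bl d ∧ F.m0 < d.ncard

/-- dust clusters -/
def dus (d : Set V) : Prop := Co F.T F.bl d ∧ d.ncard ≤ F.m0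

/-- the points of the large clusters and the coarse vertices -/
def U : Set V := F.Z ∪ {z | ∃ d, F.big d ∧ z ∈ d}

/-- the main component of the complement -/
def mn (d : Set V) : Set V := {z | ∃ c, Co F.T dᶜ c ∧ Nat.card V < 2 * c.ncard ∧ z ∈ c}

/-- the set `d` with the small components of its complement -/
def fil (d : Set V) : Set V := (F.mn d)ᶜ

/-- attached dust clusters -/
def att (d : Set V) : Prop := F.dus d ∧ (F.fil d ∩ nbh F.T F.U (F.r + 1)).Nonempty

/-- the set `X` -/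
def X : Set V := nbh F.T F.U F.r ∪ {z | ∃ d, F.att d ∧ z ∈ F.fil d}

/-- good points -/
def gd : Set V := {z | z ∉ F.X ∧ ∀ d, F.dus d → z ∉ F.fil d}

/-- the assumptions -/
structure Ok (F0 : ℕ) : Prop where
  con : F.T.Preconnected
  main : ∀ d, Cn F.T d → d.ncard ≤ F.m0 → ∃ c, Co F.T dᶜ c ∧ (cᶜ).ncard ≤ F0
  lt : 2 * F0 < Nat.card V
  ball : ∀ u, F0 < (nbh F.T {u} (F.r + 1)).ncard

end Fld

end Pool.Agent.FM
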