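import Pool.Agent.H3.FF.Red
import Pool.Agent.FM.Defs

/-!
# MP_4c8b8e_co, project FIRE: the two descriptions of the fire
-/

set_option autoImplicit false

open Classical

namespace Pool.Agent.FM

open Pool.Agent.H3.FF

variable {W : Type} {G : SimpleGraph W} {v : W} {P : Set W}

theorem br_walk {a b : W} (w : G.Walk a b) : ∀ (k : ℕ), a ∈ bu G v P k →
    (∀ z ∈ w.support, z ∉ P) → b ∈ bu G v P (k + w.length) := by
  induction w with
  | nil => intro k h _; simpa using h
  | cons h p ih =>
    intro k ha hz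
    have h1 := ih (k + 1) (bu_step ha h (hz _ (by simp)))
      (fun z hz' => hz z (by simp [hz']))
    simpa [add_assoc, add_comm, add_left_comm] using h1

theorem br_back {u : W} : ∀ {n : ℕ}, v ∉ P → u ∈ bu G v P n →
    ∃ w : G.Walk v u, w.length ≤ n ∧ ∀ z ∈ w.support, z ∉ P := by
  intro n
  induction n generalizing u with
  | zero =>
    intro hv h
    have h1 : u = v := h
    subst h1
    exact ⟨SimpleGraph.Walk.nil, by simp, by simpa using hv⟩
  | succ n ih =>
    intro hv h
    rcases h with h | ⟨hu, u', h, ha⟩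
    · obtain ⟨w, h1, h2⟩ := ih hv h
      exact ⟨w, by omega, h2⟩
    · obtain ⟨w, h1, h2⟩ := ih hv h
      refine ⟨w.concat ha, by rw [SimpleGraph.Walk.length_concat]; omega, fun z hz => ?_⟩
      rw [SimpleGraph.Walk.support_concat, List.mem_append] at hz
      rcases hz with hz | hz
      · exact h2 z hz
      · have : z = u := by simpa using hz
        rw [this]
        exact hu

/-- the burnt sets agree -/
theorem bu_eq (hv : v ∉ P) (n : ℕ) : bu G v P n = Bu G P {v} n := by
  ext u
  constructor
  · intro h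
    obtain ⟨w, h1, h2⟩ := br_back hv h
    exact ⟨bu_not_mem hv h, v, rfl, w, h1, fun z hz hzP => absurd hzP (h2 z hz)⟩
  · rintro ⟨hu, s, hs, w, h1, h2⟩
    have hs' : s = v := hs
    subst hs'
    have h3 : ∀ z ∈ w.support, z ∉ P := fun z hz hzP => hu (h2 z hz hzP ▸ hzP)
    exact bu_mono (by omega) (br_walk w 0 (v_mem 0) h3)

/-- the sets of touched guards agree -/
theorem tch_eq (hv : v ∉ P) (n : ℕ) : tch G v P n = Tch G P {v} n := by
  ext u
  constructor
  · rintro ⟨hu, s, hs, u', h, ha⟩
    obtain ⟨w, h1, h2⟩ := br_back hv h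
    refine ⟨hu, v, rfl, w.concat ha, by rw [SimpleGraph.Walk.length_concat]; omega,
      fun z hz hzP => ?_⟩
    rw [SimpleGraph.Walk.support_concat, List.mem_append] at hz
    rcases hz with hz | hz
    · exact absurd hzP (h2 z hz)
    · simpa using hz
  · rintro ⟨hu, s, hs, w, h1, h2⟩
    have hs' : s = v := hs
    subst hs'
    refine ⟨hu, ?_⟩
    -- first vertex of the walk in P
    suffices H : ∀ {a b : W} (w : G.Walk a b) (k : ℕ), a ∈ bu G s P k →
        (∀ z ∈ w.support, z ∈ P → z = b) → b ∈ P → a ∉ P →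
          ∃ r < k + w.length, ∃ c ∈ bu G s P r, G.Adj c b by
      obtain ⟨r, hr, c, hc, hcb⟩ := H w 0 (v_mem 0) h2 hu hv
      exact ⟨r, by omega, c, hc, hcb⟩
    intro a b w
    induction w with
    | nil => intro k _ _ hb ha; exact absurd hb ha
    | @cons a a' b h p ih =>
      intro k ha hz hb haP
      by_cases hP : a' ∈ P
      · have h3 : a' = b := hz a' (by simp) hP
        subst h3
        exact ⟨k, by simp, a, ha, h⟩
      · obtain ⟨r, hr, c, hc, hcb⟩ := ih (k + 1) (bu_step ha h hP)
          (fun z hz' => hz z (by simp [hz'])) hb hP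
        exact ⟨r, by simpa [add_assoc, add_comm, add_left_comm] using hr, c, hc, hcb⟩

/-- a vertex that burns at some time with guards `M` is joined to `v` outside `M` -/
theorem bu_walk {M : Set W} (hv : v ∉ M) {u : W} {t : ℕ} (h : u ∈ bu G v M t) :
    ∃ w : G.Walk v u, ∀ z ∈ w.support, z ∉ M := by
  obtain ⟨w, -, h2⟩ := br_back hv h
  exact ⟨w, h2⟩

end Pool.Agent.FM
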