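import Pool.Agent.FM.Stm

/-!
# FIRE-T1: the graph of darts is regular of degree two
-/

set_option autoImplicit false

open Classical

namespace Pool.Agent.FM

section

variable {V : Type} {T : SimpleGraph V} {Y c : Set V}

/-- the dart of the third vertex `z` of a triangle on the dart `e` -/
private theorem ca_mk (hc : Co T Yᶜ c) (e : Dr T Y c) (z : V)
    (h : T.Adj e.1.1 z ∧ T.Adj e.1.2 z) :
    ∃ d : Dr T Y c, (DG T Y c).Adj e d ∧
      d.1 = if z ∈ Y then (z, e.1.2) else (e.1.1, z) := by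
  by_cases hz : z ∈ Y
  · refine ⟨⟨(z, e.1.2), hz, e.2.2.1, h.2.symm⟩, Or.inr ⟨rfl, h.1⟩, ?_⟩
    rw [if_pos hz]
  · have hzc : z ∈ c := hc.2.2 _ e.2.2.1 z hz h.2
    refine ⟨⟨(e.1.1, z), e.2.1, hzc, h.1⟩, Or.inl ⟨rfl, h.2⟩, ?_⟩
    rw [if_neg hz]

private theorem ca_nb (hc : Co T Yᶜ c) (e e' : Dr T Y c) (h : (DG T Y c).Adj e e') :
    ∃ z, (T.Adj e.1.1 z ∧ T.Adj e.1.2 z) ∧
      e'.1 = if z ∈ Y then (z, e.1.2) else (e.1.1, z) := by
  rcases h with ⟨h1, h2⟩ | ⟨h1, h2⟩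
  · have hY : e'.1.2 ∉ Y := hc.2.1 e'.2.2.1
    refine ⟨e'.1.2, ⟨?_, h2⟩, ?_⟩
    · rw [h1]
      exact e'.2.2.2
    · rw [if_neg hY, h1]
  · refine ⟨e'.1.1, ⟨h2, ?_⟩, ?_⟩
    · rw [h1]
      exact e'.2.2.2.symm
    · rw [if_pos e'.2.1, h1]

end

theorem sca : SCA := by
  intro V _ T hT Y c hc e
  obtain ⟨z1, z2, hne, hz⟩ := hT e.1.1 e.1.2 e.2.2.2
  have k1 := (hz z1).2 (Or.inl rfl)
  have k2 := (hz z2).2 (Or.inr rfl)
  obtain ⟨d1, a1, q1⟩ := ca_mk hc e z1 k1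
  obtain ⟨d2, a2, q2⟩ := ca_mk hc e z2 k2
  have hd : d1 ≠ d2 := by
    intro h
    rw [h, q2] at q1
    split_ifs at q1 with h2 h1 h1
    · exact hne (Prod.mk.inj q1).1.symm
    · exact k2.1.ne (Prod.mk.inj q1).1.symm
    · exact k1.1.ne (Prod.mk.inj q1).1
    · exact hne (Prod.mk.inj q1).2.symm
  have hs : (DG T Y c).neighborSet e = {d1, d2} := by
    ext e'
    rw [SimpleGraph.mem_neighborSet, Set.mem_insert_iff, Set.mem_singleton_iff]
    constructor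
    · intro h
      obtain ⟨z, hz1, q⟩ := ca_nb hc e e' h
      rcases (hz z).1 hz1 with rfl | rfl
      · left
        exact Subtype.ext (q.trans q1.symm)
      · right
        exact Subtype.ext (q.trans q2.symm)
    · rintro (rfl | rfl)
      · exact a1
      · exact a2
  rw [hs, Set.ncard_pair hd]

end Pool.Agent.FM
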