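import Pool.Agent.FM.Stm

/-!
# MP_4c8b8e_co, project FIRE, macro part: the graph of darts is connected (row T2)
-/

set_option autoImplicit false

open Classical

namespace Pool.Agent.FM

section

variable {V : Type} {T : SimpleGraph V} {Y c : Set V}

/-- a function on vertices that is constant along the edges inside `S` is constant on `S` -/
private theorem cb_const {S : Set V} (hS : ∀ a ∈ S, ∀ b ∈ S, ∃ w : T.Walk a b, ∀ z ∈ w.support,
    z ∈ S) (f : V → ZMod 2) (hf : ∀ a ∈ S, ∀ b ∈ S, T.Adj a b → f a = f b) :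
    ∀ a ∈ S, ∀ b ∈ S, f a = f b := by
  intro a ha b hb
  obtain ⟨w, hw⟩ := hS a ha b hb
  clear ha hb
  induction w with
  | nil => rfl
  | @cons u v t h p ih =>
    have hu : u ∈ S := hw u (SimpleGraph.Walk.start_mem_support _)
    have hp : ∀ z ∈ p.support, z ∈ S := fun z hz => hw z (by
      rw [SimpleGraph.Walk.support_cons]
      exact List.mem_cons_of_mem _ hz)
    have hv : v ∈ S := hp v (SimpleGraph.Walk.start_mem_support _)
    exact (hf u hu v hv h).trans (ih hp)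

/-- the pair `(a, b)` is a dart reachable from `e0` -/
private def cbD (T : SimpleGraph V) (Y c : Set V) (e0 : Dr T Y c) (a b : V) : Prop :=
  ∃ e : Dr T Y c, (DG T Y c).Reachable e0 e ∧ e.1 = (a, b)

private theorem cbD_left {e0 : Dr T Y c} {a b : V} (h : cbD T Y c e0 a b) : a ∈ Y := by
  obtain ⟨e, _, h2⟩ := h
  have := e.2.1
  rw [h2] at this
  exact this

private theorem cbD_right {e0 : Dr T Y c} {a b : V} (h : cbD T Y c e0 a b) : b ∈ c := by
  obtain ⟨e, _, h2⟩ := h
  have := e.2.2.1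
  rw [h2] at this
  exact this

private theorem cbD_turnL {e0 : Dr T Y c} {a b z : V} (h : cbD T Y c e0 a b) (hz : z ∈ Y)
    (hb : T.Adj z b) (ha : T.Adj a z) : cbD T Y c e0 z b := by
  have hbc := cbD_right h
  obtain ⟨e, h1, h2⟩ := h
  refine ⟨⟨(z, b), hz, hbc, hb⟩, h1.trans (SimpleGraph.Adj.reachable ?_), rfl⟩
  right
  rw [h2]
  exact ⟨rfl, ha⟩

private theorem cbD_turnR {e0 : Dr T Y c} {a b z : V} (h : cbD T Y c e0 a b) (hz : z ∈ c)
    (ha : T.Adj a z) (hb : T.Adj b z) : cbD T Y c e0 a z := by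
  have haY := cbD_left h
  obtain ⟨e, h1, h2⟩ := h
  refine ⟨⟨(a, z), haY, hz, ha⟩, h1.trans (SimpleGraph.Adj.reachable ?_), rfl⟩
  left
  rw [h2]
  exact ⟨rfl, hb⟩

/-- the indicator -/
private noncomputable def cbg (T : SimpleGraph V) (Y c : Set V) (e0 : Dr T Y c) (a b : V) :
    ZMod 2 := if cbD T Y c e0 a b ∨ cbD T Y c e0 b a then 1 else 0

private theorem cbg_symm (e0 : Dr T Y c) (a b : V) : cbg T Y c e0 a b = cbg T Y c e0 b a := by
  unfold cbg
  exact if_congr or_comm rfl rfl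

private theorem cbg_Y (hYc : ∀ z ∈ c, z ∉ Y) (e0 : Dr T Y c) {a b : V} (ha : a ∈ Y)
    (hb : b ∈ Y) : cbg T Y c e0 a b = 0 := by
  unfold cbg
  rw [if_neg]
  rintro (h | h)
  · exact hYc b (cbD_right h) hb
  · exact hYc a (cbD_right h) ha

private theorem cbg_c (hYc : ∀ z ∈ c, z ∉ Y) (e0 : Dr T Y c) {a b : V} (ha : a ∈ c)
    (hb : b ∈ c) : cbg T Y c e0 a b = 0 := by
  unfold cbg
  rw [if_neg]
  rintro (h | h)
  · exact hYc a ha (cbD_left h)
  · exact hYc b hb (cbD_left h)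

private theorem cbg_one {e0 : Dr T Y c} {a b : V} (h : cbD T Y c e0 a b) :
    cbg T Y c e0 a b = 1 := by
  unfold cbg
  rw [if_pos (Or.inl h)]

/-- a reachable dart of a triangle: exactly one further edge is a reachable dart -/
private theorem cbg_step (hYc : ∀ z ∈ c, z ∉ Y)
    (hcl : ∀ a ∈ c, ∀ b, b ∉ Y → T.Adj a b → b ∈ c) (e0 : Dr T Y c) {a b z : V}
    (hab : T.Adj a b) (hbz : T.Adj b z) (hza : T.Adj z a) (h : cbg T Y c e0 a b ≠ 0) :
    cbg T Y c e0 b z + cbg T Y c e0 z a = 1 := by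
  have h0 : cbD T Y c e0 a b ∨ cbD T Y c e0 b a := by
    by_contra h1
    apply h
    unfold cbg
    rw [if_neg h1]
  rcases h0 with h1 | h1
  · have haY := cbD_left h1
    have hbc := cbD_right h1
    by_cases hz : z ∈ Y
    · rw [cbg_Y hYc e0 hz haY, cbg_symm, cbg_one (cbD_turnL h1 hz hbz.symm hza.symm), add_zero]
    · have hzc := hcl b hbc z hz hbz
      rw [cbg_c hYc e0 hbc hzc, cbg_symm, cbg_one (cbD_turnR h1 hzc hza.symm hbz), zero_add]
  · have hbY := cbD_left h1
    have hac := cbD_right h1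
    by_cases hz : z ∈ Y
    · rw [cbg_Y hYc e0 hbY hz, cbg_one (cbD_turnL h1 hz hza hbz), zero_add]
    · have hzc := hcl a hac z hz hza.symm
      rw [cbg_c hYc e0 hzc hac, cbg_one (cbD_turnR h1 hzc hbz hza.symm), add_zero]

private theorem cb_two (x : ZMod 2) : x = 0 ∨ x = 1 := by
  revert x
  decide

private theorem cb_eq_of_add (x y : ZMod 2) (h : 0 = x + y) : x = y := by
  revert x y
  decide

end

/-- the graph of darts is connected -/
theorem scb : SCB := by
  intro V _ T _ hH Y c hY hc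
  obtain ⟨hcn, hcs, hcl'⟩ := hc
  have hYc : ∀ z ∈ c, z ∉ Y := fun z hz => hcs hz
  have hcl : ∀ a ∈ c, ∀ b, b ∉ Y → T.Adj a b → b ∈ c := fun a ha b hb hab => hcl' a ha b hb hab
  intro e0 e1
  have hone : (1 : ZMod 2) + 1 = 0 := by decide
  obtain ⟨f, hf⟩ := hH (cbg T Y c e0) (cbg_symm e0) (by
    intro a b z hab hbz hza
    rcases cb_two (cbg T Y c e0 a b) with h1 | h1
    · rcases cb_two (cbg T Y c e0 b z) with h2 | h2
      · rcases cb_two (cbg T Y c e0 z a) with h3 | h3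
        · rw [h1, h2, h3, add_zero, add_zero]
        · exfalso
          have h4 := cbg_step hYc hcl e0 hza hab hbz (by rw [h3]; exact one_ne_zero)
          rw [h1, h2, add_zero] at h4
          exact zero_ne_one h4
      · have h4 := cbg_step hYc hcl e0 hbz hza hab (by rw [h2]; exact one_ne_zero)
        rw [h1, add_zero] at h4
        rw [h1, h2, h4, zero_add, hone]
    · have h4 := cbg_step hYc hcl e0 hab hbz hza (by rw [h1]; exact one_ne_zero)
      rw [add_assoc, h4, h1, hone])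
  have hfY : ∀ a ∈ Y, ∀ b ∈ Y, f a = f b := cb_const hY.2 f fun a ha b hb hab => by
    have h1 := hf a b hab
    rw [cbg_Y hYc e0 ha hb] at h1
    exact cb_eq_of_add _ _ h1
  have hfc : ∀ a ∈ c, ∀ b ∈ c, f a = f b := cb_const hcn.2 f fun a ha b hb hab => by
    have h1 := hf a b hab
    rw [cbg_c hYc e0 ha hb] at h1
    exact cb_eq_of_add _ _ h1
  have h0 : cbD T Y c e0 e0.1.1 e0.1.2 := ⟨e0, SimpleGraph.Reachable.refl _, rfl⟩
  have h1 := hf _ _ e0.2.2.2
  rw [cbg_one h0, hfY _ e0.2.1 _ e1.2.1, hfc _ e0.2.2.1 _ e1.2.2.1, ← hf _ _ e1.2.2.2] at h1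
  have h2 : cbD T Y c e0 e1.1.1 e1.1.2 ∨ cbD T Y c e0 e1.1.2 e1.1.1 := by
    by_contra h3
    unfold cbg at h1
    rw [if_neg h3] at h1
    exact one_ne_zero h1
  rcases h2 with ⟨e, h3, h4⟩ | h3
  · have : e = e1 := Subtype.ext h4
    rw [← this]
    exact h3
  · exact absurd (cbD_left h3) (hYc _ e1.2.2.1)

end Pool.Agent.FM
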