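import Pool.Agent.FM.Stm

/-!
# MP_4c8b8e_co, project FIRE, macro part: distances in a cycle
-/

set_option autoImplicit false

open Classical

namespace Pool.Agent.FM

/-- CC: in a finite connected graph of degree two, distances are at most half of the number of
vertices -/
theorem scc : SCC := by
  intro D _ Γ h2 hpre u v
  have hc : Γ.IsCycles := fun v _ => h2 v
  have hn : (Γ.neighborSet u).Nonempty :=
    Set.nonempty_of_ncard_ne_zero (by rw [h2 u]; norm_num)
  obtain ⟨p, hp, hps⟩ := hc.exists_cycle_toSubgraph_verts_eq_connectedComponentSupp
    (c := Γ.connectedComponentMk u) rfl hn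
  have hv : v ∈ p.support := by
    rw [← SimpleGraph.Walk.mem_verts_toSubgraph, hps]
    exact SimpleGraph.ConnectedComponent.sound (hpre v u)
  have hlen : p.length ≤ Nat.card D := by
    haveI := Fintype.ofFinite D
    have h3 := hp.support_nodup
    have h4 := h3.length_le_card
    rw [List.length_tail, SimpleGraph.Walk.length_support, Nat.add_sub_cancel] at h4
    rwa [Nat.card_eq_fintype_card]
  have hsum : (p.takeUntil v hv).length + (p.dropUntil v hv).length = p.length := by
    rw [← SimpleGraph.Walk.length_append, SimpleGraph.Walk.take_spec]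
  by_cases h5 : (p.takeUntil v hv).length ≤ (p.dropUntil v hv).length
  · exact ⟨p.takeUntil v hv, by omega⟩
  · refine ⟨(p.dropUntil v hv).reverse, ?_⟩
    rw [SimpleGraph.Walk.length_reverse]
    omega

end Pool.Agent.FM
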