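import Pool.Agent.FM.Stm

/-!
# MP_4c8b8e_co, project FIRE, macro part: contours
-/

set_option autoImplicit false

open Classical

namespace Pool.Agent.FM

/-- the two projections of a walk of darts -/
theorem cd_proj {V : Type} {T : SimpleGraph V} {Y c : Set V} {e e' : Dr T Y c}
    (w : (DG T Y c).Walk e e') : ∃ f1 f2 : ℕ, f1 + f2 = w.length ∧
      (∃ w1 : T.Walk e.1.2 e'.1.2, w1.length = f1 ∧ ∀ z ∈ w1.support, z ∈ c ∧ At T Y z) ∧
      ∃ w2 : T.Walk e.1.1 e'.1.1, w2.length = f2 ∧ ∀ z ∈ w2.support, z ∈ Y ∧ At T c z := by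
  induction w with
  | @nil u =>
    refine ⟨0, 0, rfl, ⟨SimpleGraph.Walk.nil, rfl, fun z hz => ?_⟩,
      ⟨SimpleGraph.Walk.nil, rfl, fun z hz => ?_⟩⟩
    · rw [SimpleGraph.Walk.support_nil, List.mem_singleton] at hz
      subst hz
      exact ⟨u.2.2.1, u.1.1, u.2.1, u.2.2.2.symm⟩
    · rw [SimpleGraph.Walk.support_nil, List.mem_singleton] at hz
      subst hz
      exact ⟨u.2.1, u.1.2, u.2.2.1, u.2.2.2⟩
  | @cons u v _ h p ih =>
    obtain ⟨f1, f2, hf, ⟨w1, hw1, hs1⟩, ⟨w2, hw2, hs2⟩⟩ := ih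
    rcases h with ⟨h1, h2⟩ | ⟨h1, h2⟩
    · refine ⟨f1 + 1, f2, ?_, ⟨SimpleGraph.Walk.cons h2 w1, ?_, fun z hz => ?_⟩, ?_⟩
      · rw [SimpleGraph.Walk.length_cons, ← hf]
        omega
      · rw [SimpleGraph.Walk.length_cons, hw1]
      · rw [SimpleGraph.Walk.support_cons, List.mem_cons] at hz
        rcases hz with rfl | hz
        · exact ⟨u.2.2.1, u.1.1, u.2.1, u.2.2.2.symm⟩
        · exact hs1 z hz
      · rw [h1]
        exact ⟨w2, hw2, hs2⟩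
    · refine ⟨f1, f2 + 1, ?_, ?_, ⟨SimpleGraph.Walk.cons h2 w2, ?_, fun z hz => ?_⟩⟩
      · rw [SimpleGraph.Walk.length_cons, ← hf]
        omega
      · rw [h1]
        exact ⟨w1, hw1, hs1⟩
      · rw [SimpleGraph.Walk.length_cons, hw2]
      · rw [SimpleGraph.Walk.support_cons, List.mem_cons] at hz
        rcases hz with rfl | hz
        · exact ⟨u.2.1, u.1.2, u.2.2.1, u.2.2.2⟩
        · exact hs2 z hz

/-- half turns on a contour -/
theorem cd_half (h1 : SCA) (h2 : SCB) (h3 : SCC) {V : Type} [Finite V] {T : SimpleGraph V}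
    (hT : Tri T) (hH : Hone T) {Y c : Set V} (hY : Cn T Y) (hc : Co T Yᶜ c) {x x' y y' : V}
    (hx : x ∈ c) (hx' : x' ∈ c) (hy : y ∈ Y) (hy' : y' ∈ Y) (hxy : T.Adj x y)
    (hxy' : T.Adj x' y') : ∃ f1 f2 : ℕ, 2 * (f1 + f2) ≤ cut T Y c ∧
      (∃ w1 : T.Walk x x', w1.length = f1 ∧ ∀ z ∈ w1.support, z ∈ c ∧ At T Y z) ∧
      ∃ w2 : T.Walk y y', w2.length = f2 ∧ ∀ z ∈ w2.support, z ∈ Y ∧ At T c z := by
  obtain ⟨w, hw⟩ := h3 (Dr T Y c) (DG T Y c) (h1 V T hT Y c hc) (h2 V T hT hH Y c hY hc)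
    ⟨(y, x), hy, hx, hxy.symm⟩ ⟨(y', x'), hy', hx', hxy'.symm⟩
  obtain ⟨f1, f2, hf, hw1, hw2⟩ := cd_proj w
  refine ⟨f1, f2, ?_, hw1, hw2⟩
  rw [hf]
  exact hw

theorem scd (h1 : SCA) (h2 : SCB) (h3 : SCC) : SCD := by
  intro V _ T hT hH
  constructor
  · intro Y c hY hc x hx x' hx' ⟨y, hy, hxy⟩ ⟨y', hy', hxy'⟩
    obtain ⟨f1, f2, hf, ⟨w1, hw1, hs1⟩, -⟩ :=
      cd_half h1 h2 h3 hT hH hY hc hx hx' hy hy' hxy hxy'
    exact ⟨w1, by omega, hs1⟩
  · intro Y c hY hc x hx x' hx' ⟨y, hy, hxy⟩ ⟨y', hy', hxy'⟩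
    obtain ⟨f1, f2, hf, ⟨w1, hw1, hs1⟩, ⟨w2, hw2, hs2⟩⟩ :=
      cd_half h1 h2 h3 hT hH hY hc hx hx' hy hy' hxy hxy'
    rcases le_total f1 (f2 + 2) with h | h
    · exact ⟨w1, by omega, fun z hz => Or.inl (hs1 z hz)⟩
    · refine ⟨SimpleGraph.Walk.cons hxy (w2.append (SimpleGraph.Walk.cons hxy'.symm
        SimpleGraph.Walk.nil)), ?_, fun z hz => ?_⟩
      · rw [SimpleGraph.Walk.length_cons, SimpleGraph.Walk.length_append,
          SimpleGraph.Walk.length_cons, SimpleGraph.Walk.length_nil]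
        omega
      · rw [SimpleGraph.Walk.support_cons, List.mem_cons,
          SimpleGraph.Walk.mem_support_append_iff, SimpleGraph.Walk.support_cons,
          List.mem_cons, SimpleGraph.Walk.support_nil, List.mem_singleton] at hz
        rcases hz with rfl | hz | rfl | rfl
        · exact Or.inl ⟨hx, y, hy, hxy⟩
        · exact Or.inr (hs2 z hz)
        · exact Or.inr (hs2 z w2.end_mem_support)
        · exact Or.inl ⟨hx', y', hy', hxy'⟩

end Pool.Agent.FM
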