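import Pool.Agent.FM.Stm

/-!
# MP_4c8b8e_co, project FIRE, macro part, row D1: walks around dust
-/

set_option autoImplicit false

open Classical

namespace Pool.Agent.FM

section

variable {V W : Type} {T : SimpleGraph V} {G : SimpleGraph W} {p : W → V}

/-- the first exit of a walk from a set -/
private theorem d1_first (Q : W → Prop) : ∀ {u u' : W} (g : G.Walk u u'), Q u →
    ¬ (∀ z ∈ g.support, Q z) →
    ∃ (a a' : W) (ga : G.Walk u a) (gr : G.Walk a' u'), G.Adj a a' ∧
      (∀ z ∈ ga.support, Q z) ∧ ¬ Q a' ∧ g.length = ga.length + 1 + gr.length ∧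
      (∀ z ∈ ga.support, z ∈ g.support) ∧ ∀ z ∈ gr.support, z ∈ g.support := by
  intro u u' g
  induction g with
  | nil =>
    intro h1 h2
    refine absurd (fun z hz => ?_) h2
    rw [SimpleGraph.Walk.support_nil, List.mem_singleton] at hz
    rw [hz]
    exact h1
  | @cons u v u' hadj g ih =>
    intro h1 h2
    by_cases hv : Q v
    · have h3 : ¬ ∀ z ∈ g.support, Q z := by
        intro h
        refine h2 fun z hz => ?_
        rw [SimpleGraph.Walk.support_cons, List.mem_cons] at hz
        rcases hz with rfl | hz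
        · exact h1
        · exact h z hz
      obtain ⟨a, a', ga, gr, k1, k2, k3, k4, k5, k6⟩ := ih hv h3
      refine ⟨a, a', SimpleGraph.Walk.cons hadj ga, gr, k1, fun z hz => ?_, k3, ?_,
        fun z hz => ?_, fun z hz => ?_⟩
      · rw [SimpleGraph.Walk.support_cons, List.mem_cons] at hz
        rcases hz with rfl | hz
        · exact h1
        · exact k2 z hz
      · rw [SimpleGraph.Walk.length_cons, SimpleGraph.Walk.length_cons, k4]
        omega
      · rw [SimpleGraph.Walk.support_cons, List.mem_cons] at hz ⊢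
        rcases hz with rfl | hz
        · exact Or.inl rfl
        · exact Or.inr (k5 z hz)
      · rw [SimpleGraph.Walk.support_cons, List.mem_cons]
        exact Or.inr (k6 z hz)
    · refine ⟨u, v, SimpleGraph.Walk.nil, g, hadj, fun z hz => ?_, hv, ?_, fun z hz => ?_,
        fun z hz => ?_⟩
      · rw [SimpleGraph.Walk.support_nil, List.mem_singleton] at hz
        rw [hz]
        exact h1
      · rw [SimpleGraph.Walk.length_cons, SimpleGraph.Walk.length_nil]
        omega
      · rw [SimpleGraph.Walk.support_nil, List.mem_singleton] at hz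
        rw [hz, SimpleGraph.Walk.support_cons]
        exact List.mem_cons_self
      · rw [SimpleGraph.Walk.support_cons, List.mem_cons]
        exact Or.inr hz

/-- lifting a walk of `T` -/
private theorem d1_lift (hO : Ov T G p) : ∀ {x y : V} (w : T.Walk x y) (a b : W), p a = x →
    p b = y → ∃ g : G.Walk a b, g.length ≤ 12 * w.length + 12 ∧
      ∀ z ∈ g.support, p z ∈ w.support := by
  intro x y w
  induction w with
  | @nil x =>
    intro a b ha hb
    obtain ⟨g, h1, h2⟩ := hO.mov a b (Or.inl (ha.trans hb.symm))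
    refine ⟨g, by rw [SimpleGraph.Walk.length_nil]; omega, fun z hz => ?_⟩
    rw [SimpleGraph.Walk.support_nil, List.mem_singleton]
    rcases h2 z hz with h | h
    · exact h.trans ha
    · exact h.trans hb
  | @cons x y x' hadj w ih =>
    intro a b ha hb
    obtain ⟨c, hc⟩ := hO.sur y
    obtain ⟨g, h1, h2⟩ := hO.mov a c (Or.inr (by rw [ha, hc]; exact hadj))
    obtain ⟨g', h3, h4⟩ := ih c b hc hb
    refine ⟨g.append g', ?_, fun z hz => ?_⟩
    · rw [SimpleGraph.Walk.length_append, SimpleGraph.Walk.length_cons]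
      omega
    · rw [SimpleGraph.Walk.support_cons, List.mem_cons]
      rw [SimpleGraph.Walk.mem_support_append_iff] at hz
      rcases hz with hz | hz
      · rcases h2 z hz with h | h
        · exact Or.inl (h.trans ha)
        · refine Or.inr ?_
          rw [h, hc]
          exact w.start_mem_support
      · exact Or.inr (h4 z hz)

/-- a point of a component of the complement of `d` next to a point outside -/
private theorem d1_at {d m : Set V} (hm : Co T dᶜ m) {x y : V} (hx : x ∈ m) (hy : y ∉ m)
    (hxy : x = y ∨ T.Adj x y) : At T d x := by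
  have h1 : T.Adj x y := by
    rcases hxy with h | h
    · rw [h] at hx
      exact absurd hx hy
    · exact h
  refine ⟨y, ?_, h1⟩
  by_contra h2
  exact hy (hm.2.2 x hx y h2 h1)

/-- one cluster -/
private theorem d1_one {P : Set W} (hO : Ov T G p) {d m : Set V} {k : ℕ}
    (hd : Co T (p '' P) d) (hm : Co T dᶜ m)
    (hc : ∀ x ∈ m, ∀ x' ∈ m, At T d x → At T d x' →
      ∃ w : T.Walk x x', w.length ≤ k ∧ ∀ z ∈ w.support, z ∈ m ∧ At T d z)
    {u u' : W} (hu : p u ∈ m) (hu' : p u' ∈ m) (g : G.Walk u u') :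
    ∃ g' : G.Walk u u', g'.length ≤ g.length + (12 * k + 12) ∧
      ∀ z ∈ g'.support, z ∈ P → z ∈ g.support ∧ p z ∈ m := by
  by_cases hall : ∀ z ∈ g.support, p z ∈ m
  · exact ⟨g, by omega, fun z hz _ => ⟨hz, hall z hz⟩⟩
  · obtain ⟨a, a', ga, gr, k1, k2, k3, k4, k5, k6⟩ := d1_first (fun z => p z ∈ m) g hu hall
    have hall2 : ¬ ∀ z ∈ gr.reverse.support, p z ∈ m := by
      intro h
      exact k3 (h a' gr.reverse.end_mem_support)
    obtain ⟨b, b', gb, gs, l1, l2, l3, l4, l5, l6⟩ :=
      d1_first (fun z => p z ∈ m) gr.reverse hu' hall2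
    have hpa : p a ∈ m := k2 a ga.end_mem_support
    have hpb : p b ∈ m := l2 b gb.end_mem_support
    have hAa : At T d (p a) := d1_at hm hpa k3 (hO.adj a a' k1)
    have hAb : At T d (p b) := d1_at hm hpb l3 (hO.adj b b' l1)
    obtain ⟨w, hw1, hw2⟩ := hc _ hpa _ hpb hAa hAb
    obtain ⟨gc, hg1, hg2⟩ := d1_lift hO w a b rfl rfl
    refine ⟨(ga.append gc).append gb.reverse, ?_, fun z hz hzP => ?_⟩
    · rw [SimpleGraph.Walk.length_append, SimpleGraph.Walk.length_append,
        SimpleGraph.Walk.length_reverse]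
      rw [SimpleGraph.Walk.length_reverse] at l4
      omega
    · rw [SimpleGraph.Walk.mem_support_append_iff, SimpleGraph.Walk.mem_support_append_iff] at hz
      rcases hz with (hz | hz) | hz
      · exact ⟨k5 z hz, k2 z hz⟩
      · exfalso
        obtain ⟨h1, y, hy, hadj⟩ := hw2 (p z) (hg2 z hz)
        have h2 : p z ∈ d := hd.2.2 y hy (p z) ⟨z, hzP, rfl⟩ hadj.symm
        exact hm.2.1 h1 h2
      · rw [SimpleGraph.Walk.support_reverse, List.mem_reverse] at hz
        refine ⟨k6 z ?_, l2 z hz⟩
        have h1 := l5 z hz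
        rwa [SimpleGraph.Walk.support_reverse, List.mem_reverse] at h1

end

/-- D1: walks of `G` can be led around dust clusters -/
theorem sdust : SDust := by
  intro V W _ _ T G p P hO 𝒟 μ k hD hC u u' hu g hg
  have key : ∀ 𝒟' : Finset (Set V), 𝒟' ⊆ 𝒟 → ∀ g : G.Walk u u',
      (∀ z ∈ g.support, z ∈ P → ∃ d ∈ 𝒟', p z ∈ d) →
      ∃ g' : G.Walk u u', g'.length ≤ g.length + ∑ d ∈ 𝒟', (12 * k d + 12) ∧
        ∀ z ∈ g'.support, z ∉ P := by
    intro 𝒟'
    induction 𝒟' using Finset.induction_on with
    | empty =>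
      intro _ g hg
      refine ⟨g, by simp, fun z hz hzP => ?_⟩
      obtain ⟨d, hd, _⟩ := hg z hz hzP
      exact absurd hd (Finset.notMem_empty d)
    | insert d 𝒟' hd ih =>
      intro hsub g hg
      have hdD : d ∈ 𝒟 := hsub (Finset.mem_insert_self d 𝒟')
      obtain ⟨g1, h1, h2⟩ := d1_one hO (hD d hdD).1 (hD d hdD).2 (hC d hdD) (hu d hdD).1
        (hu d hdD).2 g
      obtain ⟨g2, h3, h4⟩ := ih (fun e he => hsub (Finset.mem_insert_of_mem he)) g1
        (fun z hz hzP => by
          obtain ⟨h5, h6⟩ := h2 z hz hzP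
          obtain ⟨e, he, hze⟩ := hg z h5 hzP
          rcases Finset.mem_insert.mp he with rfl | he
          · exact absurd hze ((hD e hdD).2.2.1 h6)
          · exact ⟨e, he, hze⟩)
      refine ⟨g2, ?_, h4⟩
      rw [Finset.sum_insert hd]
      omega
  exact key 𝒟 (Finset.Subset.refl 𝒟) g hg

end Pool.Agent.FM
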