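import Pool.Agent.FM.Stm

/-!
# MP_4c8b8e_co, project FIRE, macro part: basic facts about fills
-/

set_option autoImplicit false

open Classical

namespace Pool.Agent.FM

section

variable {V : Type}

theorem f1_walk {T : SimpleGraph V} {A c : Set V} (hc : ∀ a ∈ c, ∀ b ∈ A, T.Adj a b → b ∈ c)
    {x y : V} (w : T.Walk x y) (hx : x ∈ c) (hw : ∀ z ∈ w.support, z ∈ A) : y ∈ c := by
  induction w with
  | nil => exact hx
  | cons h w ih =>
    refine ih (hc _ hx _ ?_ h) fun z hz => hw z ?_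
    · exact hw _ (by rw [SimpleGraph.Walk.support_cons]; exact List.mem_cons_of_mem _ w.start_mem_support)
    · rw [SimpleGraph.Walk.support_cons]
      exact List.mem_cons_of_mem _ hz

/-- a component is contained in a component that it meets -/
theorem f1_sub {T : SimpleGraph V} {A c c' : Set V} (h : Co T A c) (h' : Co T A c') {z : V}
    (hz : z ∈ c) (hz' : z ∈ c') : c ⊆ c' := by
  intro x hx
  obtain ⟨w, hw⟩ := h.1.2 z hz x hx
  exact f1_walk h'.2.2 w hz' fun y hy => h.2.1 (hw y hy)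

theorem f1_eq {T : SimpleGraph V} {A c c' : Set V} (h : Co T A c) (h' : Co T A c') {z : V}
    (hz : z ∈ c) (hz' : z ∈ c') : c = c' :=
  (f1_sub h h' hz hz').antisymm (f1_sub h' h hz' hz)

/-- the way to `d` outside a component of the complement of `d` -/
theorem f1_way {T : SimpleGraph V} {d c : Set V} (hc : Co T dᶜ c) {z x0 : V} (w : T.Walk z x0)
    (hx0 : x0 ∈ d) (hz : z ∉ c) :
    ∃ x ∈ d, ∃ w' : T.Walk z x, ∀ y ∈ w'.support, y ∈ cᶜ := by
  induction w with
  | nil =>
    refine ⟨_, hx0, SimpleGraph.Walk.nil, fun y hy => ?_⟩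
    rw [SimpleGraph.Walk.support_nil, List.mem_singleton] at hy
    rw [hy]
    exact hz
  | @cons a b _ h w ih =>
    by_cases ha : a ∈ d
    · refine ⟨a, ha, SimpleGraph.Walk.nil, fun y hy => ?_⟩
      rw [SimpleGraph.Walk.support_nil, List.mem_singleton] at hy
      rw [hy]
      exact hz
    · have hb : b ∉ c := fun hb => hz (hc.2.2 b hb a ha h.symm)
      obtain ⟨x, hx, w', hw'⟩ := ih hx0 hb
      refine ⟨x, hx, SimpleGraph.Walk.cons h w', fun y hy => ?_⟩
      rw [SimpleGraph.Walk.support_cons, List.mem_cons] at hy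
      rcases hy with rfl | hy
      · exact hz
      · exact hw' y hy

/-- the complement of a component of the complement of a connected set is connected -/
theorem f1_cn {T : SimpleGraph V} (hT : T.Preconnected) {d c : Set V} (hd : Cn T d)
    (hc : Co T dᶜ c) : Cn T cᶜ := by
  obtain ⟨x0, hx0⟩ := hd.1
  have hdc : d ⊆ cᶜ := fun x hx hxc => hc.2.1 hxc hx
  refine ⟨⟨x0, hdc hx0⟩, fun a ha b hb => ?_⟩
  obtain ⟨x, hx, w1, h1⟩ := f1_way hc (hT a x0).some hx0 ha
  obtain ⟨y, hy, w2, h2⟩ := f1_way hc (hT b x0).some hx0 hb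
  obtain ⟨w3, h3⟩ := hd.2 x hx y hy
  refine ⟨(w1.append w3).append w2.reverse, fun z hz => ?_⟩
  rw [SimpleGraph.Walk.mem_support_append_iff, SimpleGraph.Walk.mem_support_append_iff,
    SimpleGraph.Walk.support_reverse, List.mem_reverse] at hz
  rcases hz with (hz | hz) | hz
  · exact h1 z hz
  · exact hdc (h3 z hz)
  · exact h2 z hz

end

/-- the main component -/
theorem f1_mn {V : Type} [Finite V] (F : Fld V) (F0 : ℕ) (hF : F.Ok F0) (d : Set V)
    (hd : Cn F.T d) (hm : d.ncard ≤ F.m0) :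
    Co F.T dᶜ (F.mn d) ∧ ((F.mn d)ᶜ).ncard ≤ F0 ∧ Nat.card V < 2 * (F.mn d).ncard := by
  obtain ⟨c, hc, hcF⟩ := hF.main d hd hm
  have hcard : Nat.card V < 2 * c.ncard := by
    have h1 := Set.ncard_add_ncard_compl c
    have h2 := hF.lt
    omega
  have huniq : ∀ c', Co F.T dᶜ c' → Nat.card V < 2 * c'.ncard → c' = c := by
    intro c' hc' hcard'
    by_cases h : (c' ∩ c).Nonempty
    · obtain ⟨z, hz, hz'⟩ := h
      exact f1_eq hc' hc hz hz'
    · exfalso
      rw [Set.not_nonempty_iff_eq_empty, ← Set.disjoint_iff_inter_eq_empty] at h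
      have h1 := Set.ncard_union_eq h (Set.toFinite _) (Set.toFinite _)
      have h2 : (c' ∪ c).ncard ≤ Nat.card V := by
        rw [← Set.ncard_univ]
        exact Set.ncard_le_ncard (Set.subset_univ _) (Set.toFinite _)
      omega
  have hmn : F.mn d = c := by
    ext z
    constructor
    · rintro ⟨c', h1, h2, h3⟩
      rw [← huniq c' h1 h2]
      exact h3
    · intro hz
      exact ⟨c, hc, hcard, hz⟩
  rw [hmn]
  exact ⟨hc, hcF, hcard⟩

theorem sfila : SFilA := by
  intro V _ F F0 hF d hd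
  obtain ⟨h1, h2, _⟩ := f1_mn F F0 hF d hd.1.1 hd.2
  refine ⟨h1, h2, ?_, f1_cn hF.con hd.1.1 h1, ?_⟩
  · intro x hx hxc
    exact h1.2.1 hxc hx
  · intro z hz w hw hzw
    by_contra hzd
    have hw' : w ∈ F.mn d := by
      by_contra h
      exact hw h
    exact hz (h1.2.2 w hw' z hzd hzw.symm)

end Pool.Agent.FM
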