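import Pool.Agent.FM.F1

/-!
# MP_4c8b8e_co, project FIRE, macro part: fills are laminar
-/

set_option autoImplicit false

open Classical

namespace Pool.Agent.FM

section

variable {V : Type}

/-- a connected set outside `d` that meets a component of the complement of `d` lies in it -/
theorem f2_in {T : SimpleGraph V} {d c S : Set V} (hc : Co T dᶜ c)
    (hS : ∀ a ∈ S, ∀ b ∈ S, ∃ w : T.Walk a b, ∀ z ∈ w.support, z ∈ S) (hd : ∀ x ∈ S, x ∉ d)
    {x : V} (hx : x ∈ S) (hxc : x ∈ c) : S ⊆ c := by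
  intro y hy
  obtain ⟨w, hw⟩ := hS x hx y hy
  exact f1_walk hc.2.2 w hxc fun z hz => hd z (hw z hz)

/-- two sets with more than half of the points meet -/
theorem f2_meet [Finite V] {c c' : Set V} (h : Nat.card V < 2 * c.ncard)
    (h' : Nat.card V < 2 * c'.ncard) : ∃ x, x ∈ c ∧ x ∈ c' := by
  by_contra hne
  have hdis : Disjoint c c' := Set.disjoint_left.2 fun x hx hx' => hne ⟨x, hx, hx'⟩
  have h1 := Set.ncard_union_eq hdis (Set.toFinite _) (Set.toFinite _)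
  have h2 : (c ∪ c').ncard ≤ Nat.card V := by
    rw [← Set.ncard_univ]
    exact Set.ncard_le_ncard (Set.subset_univ _) (Set.toFinite _)
  omega

/-- if `d'` lies in the fill of `d` then so does its fill -/
theorem f2_sub [Finite V] (F : Fld V) (F0 : ℕ) (hF : F.Ok F0) {d d' : Set V} (hd : F.dus d)
    (hd' : F.dus d') (h : ∀ x ∈ d', x ∉ F.mn d) : F.fil d' ⊆ F.fil d := by
  obtain ⟨h1, _, h3⟩ := f1_mn F F0 hF d hd.1.1 hd.2
  obtain ⟨h1', _, h3'⟩ := f1_mn F F0 hF d' hd'.1.1 hd'.2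
  obtain ⟨x, hx, hx'⟩ := f2_meet h3 h3'
  have h4 : F.mn d ⊆ F.mn d' := f2_in h1' h1.1.2 (fun y hy hyd => h y hyd hy) hx hx'
  exact Set.compl_subset_compl.2 h4

end

/-- F2: fills are nested, or disjoint and not adjacent -/
theorem sfilb (hA : SFilA) : SFilB := by
  intro V _ F F0 hF d d' hd hd' hne
  obtain ⟨a1, _, _, a4, a5⟩ := hA V F F0 hF d hd
  obtain ⟨b1, _, _, b4, b5⟩ := hA V F F0 hF d' hd'
  have hdis : ∀ x ∈ d, x ∉ d' := fun x hx hx' => hne (f1_eq hd.1 hd'.1 hx hx')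
  by_cases h1 : ∀ x ∈ d', x ∉ F.mn d
  · exact Or.inr (Or.inl (f2_sub F F0 hF hd hd' h1))
  by_cases h2 : ∀ x ∈ d, x ∉ F.mn d'
  · exact Or.inl (f2_sub F F0 hF hd' hd h2)
  right
  right
  push Not at h1 h2
  obtain ⟨x, hx, hxm⟩ := h1
  obtain ⟨y, hy, hym⟩ := h2
  have h3 : d' ⊆ F.mn d := f2_in a1 hd'.1.1.2 (fun z hz hz' => hdis z hz' hz) hx hxm
  have h4 : d ⊆ F.mn d' := f2_in b1 hd.1.1.2 hdis hy hym
  have hfd : ∀ z, z ∈ F.fil d → z ∉ F.fil d' := by
    intro z hz hz'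
    have h5 : F.fil d ⊆ F.mn d' := by
      refine f2_in b1 a4.2 (fun u hu hud => hu (h3 hud)) (x := y) ?_ hym
      intro hyd
      exact a1.2.1 hyd hy
    exact hz' (h5 hz)
  refine ⟨Set.disjoint_left.2 fun z hz hz' => hfd z hz hz', ?_⟩
  intro a ha b hb hab
  have ha' : a ∈ d := a5 a ha b (fun h => hfd b h hb) hab
  have hb' : b ∈ d' := b5 b hb a (hfd a ha) hab.symm
  exact hdis b (hd.1.2.2 a ha' b (hd'.1.2.1 hb') hab) hb'

end Pool.Agent.FM
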