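import Pool.Agent.FM.Stm

/-!
# MP_4c8b8e_co, project FIRE, macro part, row F3: good points and chambers
-/

set_option autoImplicit false

open Classical

namespace Pool.Agent.FM

/-- the component of a point of `A` -/
private theorem f3_comp {V : Type} (T : SimpleGraph V) (A : Set V) (z : V) (hz : z ∈ A) :
    ∃ c : Set V, z ∈ c ∧ Co T A c := by
  refine ⟨{y | Jn T A z y}, ?_, ?_, ?_, ?_⟩
  · refine ⟨SimpleGraph.Walk.nil, ?_⟩
    intro y hy
    simp only [SimpleGraph.Walk.support_nil, List.mem_singleton] at hy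
    subst hy
    exact hz
  · refine ⟨⟨z, SimpleGraph.Walk.nil, ?_⟩, ?_⟩
    · intro y hy
      simp only [SimpleGraph.Walk.support_nil, List.mem_singleton] at hy
      subst hy
      exact hz
    · rintro a ⟨wa, ha⟩ b ⟨wb, hb⟩
      refine ⟨wa.reverse.append wb, ?_⟩
      intro y hy
      rw [SimpleGraph.Walk.mem_support_append_iff, SimpleGraph.Walk.support_reverse,
        List.mem_reverse] at hy
      rcases hy with hy | hy
      · refine ⟨wa.takeUntil y hy, ?_⟩
        intro t ht
        exact ha t (wa.support_takeUntil_subset hy ht)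
      · refine ⟨wb.takeUntil y hy, ?_⟩
        intro t ht
        exact hb t (wb.support_takeUntil_subset hy ht)
  · rintro y ⟨w, hw⟩
    exact hw y w.end_mem_support
  · rintro a ⟨w, hw⟩ b hb hab
    refine ⟨w.concat hab, ?_⟩
    intro y hy
    rw [SimpleGraph.Walk.support_concat, List.mem_append,
      List.mem_singleton] at hy
    rcases hy with hy | hy
    · exact hw y hy
    · rw [hy]
      exact hb

private theorem f3_sub_nbh {V : Type} (T : SimpleGraph V) (U : Set V) (r : ℕ) {z : V}
    (hz : z ∈ U) : z ∈ nbh T U r :=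
  ⟨z, hz, SimpleGraph.Walk.nil, by simp⟩

private theorem f3_nbh_mono {V : Type} (T : SimpleGraph V) (U : Set V) (r : ℕ) {z : V}
    (hz : z ∈ nbh T U r) : z ∈ nbh T U (r + 1) := by
  obtain ⟨u, hu, w, hw⟩ := hz
  exact ⟨u, hu, w, by omega⟩

private theorem f3_nbh_succ {V : Type} (T : SimpleGraph V) (U : Set V) (r : ℕ) {x z : V}
    (hx : x ∈ nbh T U r) (h : T.Adj x z) : z ∈ nbh T U (r + 1) := by
  obtain ⟨u, hu, w, hw⟩ := hx
  refine ⟨u, hu, w.concat h, ?_⟩
  rw [SimpleGraph.Walk.length_concat]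
  omega

/-- row F3 -/
theorem sfilc (hA : SFilA) (hB : SFilB) : SFilC := by
  intro V _ F F0 hF
  -- points of the fill of a dust cluster outside `X`
  have natt : ∀ z d, z ∉ F.X → z ∈ F.fil d → ¬ F.att d := fun z d hz hzd hd =>
    hz (Or.inr ⟨d, hd, hzd⟩)
  have two : ∀ z x, z ∉ F.X → x ∈ F.X → F.T.Adj z x → z ∈ F.gd := by
    intro z x hz hx hzx
    refine ⟨hz, ?_⟩
    intro d hd hzd
    have hna := natt z d hz hzd
    rcases hx with hx | ⟨d', hd', hxd'⟩
    · exact hna ⟨hd, z, hzd, f3_nbh_succ F.T F.U F.r hx hzx.symm⟩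
    · have hne : d ≠ d' := by
        rintro rfl
        exact hna hd'
      rcases hB V F F0 hF d d' hd hd'.1 hne with h | h | ⟨_, h⟩
      · exact hz (Or.inr ⟨d', hd', h hzd⟩)
      · obtain ⟨t, ht1, ht2⟩ := hd'.2
        exact hna ⟨hd, t, h ht1, ht2⟩
      · exact h z hzd x hxd' hzx
  refine ⟨?_, two, ?_⟩
  · intro z hz hzb
    obtain ⟨d, hzd, hd⟩ := f3_comp F.T F.bl z hzb
    by_cases h : d.ncard ≤ F.m0
    · have hdus : F.dus d := ⟨hd, h⟩
      exact hz.2 d hdus ((hA V F F0 hF d hdus).2.2.1 hzd)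
    · have hbig : F.big d := ⟨hd, by omega⟩
      exact hz.1 (Or.inl (f3_sub_nbh F.T F.U F.r (Or.inr ⟨d, hbig, hzd⟩)))
  · intro z hz hzg
    have hex : ∃ d, F.dus d ∧ z ∈ F.fil d := by
      by_contra hcon
      push Not at hcon
      exact hzg ⟨hz, hcon⟩
    -- a maximal fill
    have hfin : Set.Finite {d : Set V | F.dus d ∧ z ∈ F.fil d} := Set.toFinite _
    obtain ⟨d, hd, hmax⟩ := Set.exists_max_image {d : Set V | F.dus d ∧ z ∈ F.fil d}
      (fun d => (F.fil d).ncard) hfin hex
    obtain ⟨hdus, hzd⟩ := hd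
    have hna := natt z d hz hzd
    obtain ⟨_, hcard, _, hcn, _⟩ := hA V F F0 hF d hdus
    have hSX : ∀ x ∈ F.fil d, x ∉ F.X := by
      intro x hx hxX
      rcases hxX with hxX | ⟨d', hd', hxd'⟩
      · exact hna ⟨hdus, x, hx, f3_nbh_mono F.T F.U F.r hxX⟩
      · have hne : d ≠ d' := by
          rintro rfl
          exact hna hd'
        rcases hB V F F0 hF d d' hdus hd'.1 hne with h | h | ⟨h, _⟩
        · exact hz (Or.inr ⟨d', hd', h hzd⟩)
        · obtain ⟨t, ht1, ht2⟩ := hd'.2
          exact hna ⟨hdus, t, h ht1, ht2⟩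
        · exact Set.disjoint_left.mp h hx hxd'
    have hjn : ∀ x ∈ F.fil d, Jn F.T (F.X)ᶜ z x := by
      intro x hx
      obtain ⟨w, hw⟩ := hcn.2 z hzd x hx
      exact ⟨w, fun y hy => hSX y (hw y hy)⟩
    refine ⟨F.fil d, hzd, hcard, ?_, hjn, ?_, ?_⟩
    · ext x
      simp only [Set.mem_inter_iff, Set.mem_empty_iff_false, iff_false, not_and]
      exact hSX x
    · by_contra hcon
      push Not at hcon
      have huniv : F.fil d = Set.univ := Set.eq_univ_of_forall hcon
      rw [huniv, Set.ncard_univ] at hcard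
      have := hF.lt
      omega
    · rintro y hy ⟨a, ha, hya⟩
      have hyX : y ∉ F.X := by
        intro hyX
        exact (two a y (hSX a ha) hyX hya.symm).2 d hdus ha
      have hyg : y ∈ F.gd := by
        refine ⟨hyX, ?_⟩
        intro d'' hd'' hyd''
        have hne : d ≠ d'' := by
          rintro rfl
          exact hy hyd''
        rcases hB V F F0 hF d d'' hdus hd'' hne with h | h | ⟨_, h⟩
        · have hle := hmax d'' ⟨hd'', h hzd⟩
          have heq : F.fil d = F.fil d'' :=
            Set.eq_of_subset_of_ncard_le h hle (Set.toFinite _)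
          exact hy (heq ▸ hyd'')
        · exact hy (h hyd'')
        · exact h a ha y hyd'' hya.symm
      refine ⟨hyg, ?_⟩
      obtain ⟨w, hw⟩ := hjn a ha
      refine ⟨w.concat hya.symm, ?_⟩
      intro t ht
      rw [SimpleGraph.Walk.support_concat, List.mem_append,
        List.mem_singleton] at ht
      rcases ht with ht | ht
      · exact hw t ht
      · rw [ht]
        exact hyX

end Pool.Agent.FM
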