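import Pool.Agent.FM.Stm

/-!
# MP_4c8b8e_co, project FIRE: rows F4, F5, F6 (the border and the components of `X`)
-/

set_option autoImplicit false

open Classical

namespace Pool.Agent.FM

section

variable {V : Type} {T : SimpleGraph V}

/-! ### neighbourhoods -/

private theorem f4_mono {U : Set V} {r s : ℕ} (h : r ≤ s) : nbh T U r ⊆ nbh T U s := by
  rintro z ⟨u, hu, w, hw⟩
  exact ⟨u, hu, w, hw.trans h⟩

private theorem f4_self {U : Set V} {r : ℕ} : U ⊆ nbh T U r := by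
  intro u hu
  exact ⟨u, hu, SimpleGraph.Walk.nil, Nat.zero_le _⟩

private theorem f4_adj {U : Set V} {r : ℕ} {z x : V} (hz : z ∈ nbh T U r) (h : T.Adj z x) :
    x ∈ nbh T U (r + 1) := by
  obtain ⟨u, hu, w, hw⟩ := hz
  refine ⟨u, hu, w.concat h, ?_⟩
  rw [SimpleGraph.Walk.length_concat]
  omega

private theorem f4_append {U : Set V} {r s : ℕ} {z x : V} (hz : z ∈ nbh T U r)
    (w : T.Walk z x) (hw : w.length ≤ s) : x ∈ nbh T U (r + s) := by
  obtain ⟨u, hu, w', hw'⟩ := hz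
  refine ⟨u, hu, w'.append w, ?_⟩
  rw [SimpleGraph.Walk.length_append]
  omega

/-- points of a short walk -/
private theorem f4_walk {U : Set V} {r : ℕ} {u x : V} (hu : u ∈ U) (w : T.Walk u x)
    (hw : w.length ≤ r) {z : V} (hz : z ∈ w.support) : z ∈ nbh T U r :=
  ⟨u, hu, w.takeUntil z hz, (w.length_takeUntil_le hz).trans hw⟩

private theorem f4_walk' {U : Set V} {r : ℕ} {u x : V} (hu : u ∈ U) (w : T.Walk u x)
    (hw : w.length ≤ r + 1) {z : V} (hz : z ∈ w.support) : z = x ∨ z ∈ nbh T U r := by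
  by_cases h : z = x
  · exact Or.inl h
  · right
    have h1 := w.length_takeUntil_lt hz h
    exact ⟨u, hu, w.takeUntil z hz, by omega⟩

/-- short walks in connected sets -/
private theorem f4_short [Finite V] {d : Set V} (hd : Cn T d) {a b : V} (ha : a ∈ d)
    (hb : b ∈ d) : ∃ w : T.Walk a b, w.length ≤ d.ncard := by
  obtain ⟨w, hw⟩ := hd.2 a ha b hb
  refine ⟨w.bypass, ?_⟩
  have h1 : w.bypass.support.Nodup := w.bypass_isPath.support_nodup
  have h2 : (w.bypass.support.toFinset : Set V) ⊆ d := by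
    intro z hz
    rw [Finset.mem_coe, List.mem_toFinset] at hz
    exact hw z (w.support_bypass_subset hz)
  have h3 := Set.ncard_le_ncard h2 (Set.toFinite d)
  rw [Set.ncard_coe_finset, List.toFinset_card_of_nodup h1,
    SimpleGraph.Walk.length_support] at h3
  omega

private theorem f4_jn_trans {A : Set V} {a b c : V} (h1 : Jn T A a b) (h2 : Jn T A b c) :
    Jn T A a c := by
  obtain ⟨w, hw⟩ := h1
  obtain ⟨w', hw'⟩ := h2
  refine ⟨w.append w', fun z hz => ?_⟩
  rw [SimpleGraph.Walk.mem_support_append_iff] at hz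
  rcases hz with hz | hz
  · exact hw z hz
  · exact hw' z hz

private theorem f4_jn_symm {A : Set V} {a b : V} (h1 : Jn T A a b) : Jn T A b a := by
  obtain ⟨w, hw⟩ := h1
  refine ⟨w.reverse, fun z hz => ?_⟩
  rw [SimpleGraph.Walk.support_reverse, List.mem_reverse] at hz
  exact hw z hz

private theorem f4_jn_mono {A B : Set V} (h : A ⊆ B) {a b : V} (h1 : Jn T A a b) :
    Jn T B a b := by
  obtain ⟨w, hw⟩ := h1
  exact ⟨w, fun z hz => h (hw z hz)⟩

/-- a walk that avoids the exits of a set stays in the set -/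
private theorem f4_stay {A B : Set V} (hAB : ∀ z ∈ A, z ∈ B → ∀ w, w ∈ B → T.Adj z w → w ∈ A)
    {x y : V} (w : T.Walk x y) (hw : ∀ z ∈ w.support, z ∈ B) (hx : x ∈ A) : y ∈ A := by
  induction w with
  | nil => exact hx
  | @cons a b c h p ih =>
    have h1 : a ∈ B := hw a (by simp)
    have h2 : b ∈ B := hw b (by simp)
    refine ih (fun z hz => hw z ?_) (hAB a hx h1 b h2 h)
    rw [SimpleGraph.Walk.support_cons]
    exact List.mem_cons_of_mem _ hz

end

section

variable {V : Type} [Finite V] {F : Fld V} {F0 : ℕ}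

/-- attached clusters meet the neighbourhood -/
private theorem f4_one (hA : SFilA) (hF : F.Ok F0) {d : Set V} (hd : F.att d) :
    (d ∩ nbh F.T F.U (F.r + 1)).Nonempty := by
  obtain ⟨hdd, x, hx, u, hu, w, hw⟩ := hd
  obtain ⟨_, h2, _, _, h5⟩ := hA V F F0 hF d hdd
  by_contra hne
  rw [Set.not_nonempty_iff_eq_empty] at hne
  have hdis : ∀ z ∈ nbh F.T {u} (F.r + 1), z ∉ d := by
    rintro z ⟨u', hu', w', hw'⟩ hz
    have h6 : z ∈ d ∩ nbh F.T F.U (F.r + 1) :=
      ⟨hz, u', by rw [Set.mem_singleton_iff.1 hu']; exact hu, w', hw'⟩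
    rw [hne] at h6
    exact h6
  have hsub : nbh F.T {u} (F.r + 1) ⊆ F.fil d := by
    have hstep : ∀ z ∈ F.fil d, z ∈ nbh F.T {u} (F.r + 1) →
        ∀ w, w ∈ nbh F.T {u} (F.r + 1) → F.T.Adj z w → w ∈ F.fil d := by
      intro z hz hzB y _ hzy
      by_contra hy
      exact hdis z hzB (h5 z hz y hy hzy)
    have huf : u ∈ F.fil d := by
      refine f4_stay hstep w.reverse (fun z hz => ?_) hx
      rw [SimpleGraph.Walk.support_reverse, List.mem_reverse] at hz
      exact f4_walk (Set.mem_singleton u) w hw hz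
    rintro z ⟨u', hu', w', hw'⟩
    have h6 : u' = u := Set.mem_singleton_iff.1 hu'
    subst h6
    exact f4_stay hstep w' (fun y hy => f4_walk (Set.mem_singleton u') w' hw' hy) huf
  have h7 := Set.ncard_le_ncard hsub (Set.toFinite _)
  have h8 := hF.ball u
  omega

private theorem f4_nbhX : nbh F.T F.U F.r ⊆ F.X := Set.subset_union_left

private theorem f4_filX {d : Set V} (hd : F.att d) : F.fil d ⊆ F.X :=
  fun _ hz => Or.inr ⟨d, hd, hz⟩

/-- border points of `X` -/
private theorem f4_border (hA : SFilA) (hF : F.Ok F0) {z x : V} (hz : z ∈ F.X)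
    (hx : x ∉ F.X) (h : F.T.Adj z x) : z ∈ nbh F.T F.U F.r ∨ ∃ d, F.att d ∧ z ∈ d := by
  rcases hz with hz | ⟨d, hd, hz⟩
  · exact Or.inl hz
  · right
    refine ⟨d, hd, ?_⟩
    obtain ⟨_, _, _, _, h5⟩ := hA V F F0 hF d hd.1
    exact h5 z hz x (fun h6 => hx (f4_filX hd h6)) h

/-- every point of `X` is joined to `U` inside `X` -/
private theorem f4_join (hA : SFilA) (hF : F.Ok F0) {x : V} (hx : x ∈ F.X) :
    ∃ u ∈ F.U, Jn F.T F.X x u := by
  rcases hx with ⟨u, hu, w, hw⟩ | ⟨d, hd, hx⟩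
  · refine ⟨u, hu, f4_jn_symm ⟨w, fun z hz => f4_nbhX (f4_walk hu w hw hz)⟩⟩
  · obtain ⟨_, _, _, h4, _⟩ := hA V F F0 hF d hd.1
    obtain ⟨hdd, y, hy, u, hu, w, hw⟩ := hd
    have hd : F.att d := ⟨hdd, y, hy, u, hu, w, hw⟩
    refine ⟨u, hu, f4_jn_trans (f4_jn_mono (f4_filX hd) (h4.2 x hx y hy))
      (f4_jn_symm ⟨w, fun z hz => ?_⟩)⟩
    rcases f4_walk' hu w hw hz with h6 | h6
    · rw [h6]
      exact f4_filX hd hy
    · exact f4_nbhX h6

end

/-- F4: levels of the border of `X` -/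
theorem sfild (hA : SFilA) : SFilD := by
  intro V _ F F0 hF
  refine ⟨fun d hd => f4_one hA hF hd, ?_, ?_⟩
  · intro z hz x hx h
    rcases f4_border hA hF hz hx h with h1 | ⟨d, hd, h1⟩
    · exact f4_mono (by omega) h1
    · obtain ⟨y, hy, hyn⟩ := f4_one hA hF hd
      obtain ⟨w, hw⟩ := f4_short hd.1.1.1 hy h1
      exact f4_append hyn w (hw.trans hd.1.2)
  · intro z _ x hx h r' hr' hz
    exact hx (f4_nbhX (f4_mono (by omega) (f4_adj hz h)))

/-- F5: the number of border edges of `X` -/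
theorem sfile (hA : SFilA) : SFilE := by
  intro V _ F F0 Δ hF hΔ
  set D : Set V := {z | (∃ d, F.att d ∧ z ∈ d) ∧ z ∉ nbh F.T F.U F.r} with hD
  have e1 : ∀ A B : Set V, cut F.T A B =
      {e : V × V | e.1 ∈ A ∧ e.2 ∈ B ∧ F.T.Adj e.1 e.2}.ncard := fun A B => rfl
  rw [e1, e1]
  set E1 : Set (V × V) := {e : V × V | e.1 ∈ nbh F.T F.U F.r ∧ e.2 ∈ (nbh F.T F.U F.r)ᶜ ∧
    F.T.Adj e.1 e.2} with hE1
  set E2 : Set (V × V) := {e : V × V | e.1 ∈ D ∧ F.T.Adj e.1 e.2} with hE2
  have h1 : {e : V × V | e.1 ∈ F.X ∧ e.2 ∈ (F.X)ᶜ ∧ F.T.Adj e.1 e.2} ⊆ E1 ∪ E2 := by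
    rintro ⟨z, x⟩ ⟨hz, hx, h⟩
    by_cases hzn : z ∈ nbh F.T F.U F.r
    · left
      exact ⟨hzn, fun h3 => hx (f4_nbhX h3), h⟩
    · rcases f4_border hA hF hz hx h with h2 | h2
      · exact absurd h2 hzn
      · right
        exact ⟨⟨h2, hzn⟩, h⟩
  have h2 : E2.ncard ≤ Δ * D.ncard := by
    have hDf : D.Finite := Set.toFinite D
    have h3 : E2 = ⋃ z ∈ hDf.toFinset, (fun x => (z, x)) '' (F.T.neighborSet z) := by
      ext ⟨z, x⟩
      simp only [Set.mem_iUnion, Set.mem_image, Set.Finite.mem_toFinset, Prod.mk.injEq]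
      constructor
      · rintro ⟨h3, h4⟩
        exact ⟨z, h3, x, h4, rfl, rfl⟩
      · rintro ⟨z', h3, x', h4, h5, h6⟩
        subst h5
        subst h6
        exact ⟨h3, h4⟩
    have h4 : ∀ s : Finset V, (⋃ z ∈ s, (fun x => (z, x)) '' (F.T.neighborSet z)).ncard ≤
        Δ * s.card := by
      intro s
      induction s using Finset.induction_on with
      | empty => simp
      | insert a s ha ih =>
        rw [Finset.set_biUnion_insert, Finset.card_insert_of_notMem ha]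
        refine (Set.ncard_union_le _ _).trans ?_
        have h5 : ((fun x => (a, x)) '' (F.T.neighborSet a)).ncard ≤ Δ :=
          (Set.ncard_image_le (Set.toFinite _)).trans (hΔ a)
        have h6 : Δ * (s.card + 1) = Δ * s.card + Δ := by ring
        omega
    rw [h3]
    refine (h4 _).trans (le_of_eq ?_)
    rw [Set.ncard_eq_toFinset_card D hDf]
  refine (Set.ncard_le_ncard h1 (Set.toFinite _)).trans ((Set.ncard_union_le _ _).trans ?_)
  exact Nat.add_le_add_left h2 _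

/-- F6: the number of components of `X` -/
theorem sfiln (hA : SFilA) : SFilN := by
  intro V _ F F0 q hF hf
  obtain ⟨f, hf⟩ := hf
  have h1 : ∀ x, ∃ u, x ∈ F.X → u ∈ F.U ∧ Jn F.T F.X x u := by
    intro x
    by_cases hx : x ∈ F.X
    · obtain ⟨u, hu, h⟩ := f4_join hA hF hx
      exact ⟨u, fun _ => ⟨hu, h⟩⟩
    · exact ⟨x, fun h => absurd h hx⟩
  choose u hu using h1
  refine ⟨fun x => f (u x), fun x y hx hy h => ?_⟩
  obtain ⟨h2, h3⟩ := hu x hx
  obtain ⟨h4, h5⟩ := hu y hy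
  have h6 : Jn F.T F.X (u x) (u y) :=
    f4_jn_mono (f4_self.trans f4_nbhX) (hf _ _ h2 h4 h)
  exact f4_jn_trans h3 (f4_jn_trans h6 (f4_jn_symm h5))

end Pool.Agent.FM
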