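import Pool.Agent.FM.Stm

/-!
# MP_4c8b8e_co, project FIRE, macro part, row T5: the growth procedure
-/

set_option autoImplicit false

open Classical

namespace Pool.Agent.FM

private def gwC {V W : Type} (E : Env V W) (S : Set W) : Set V :=
  {z | z ∉ E.X ∧ ∃ u, E.p u ∈ E.gd ∧ Jn E.T (E.X)ᶜ z (E.p u) ∧ (u ∈ S ∨ ∃ u1 ∈ S, E.G.Adj u1 u)}

private theorem gwC_mono {V W : Type} (E : Env V W) {S S' : Set W} (h : S ⊆ S') :
    gwC E S ⊆ gwC E S' := by
  rintro z ⟨hz, u, hu, hj, ho⟩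
  refine ⟨hz, u, hu, hj, ?_⟩
  rcases ho with ho | ⟨u1, h1, h2⟩
  · exact Or.inl (h ho)
  · exact Or.inr ⟨u1, h h1, h2⟩

private theorem gwJn_refl {V : Type} (T : SimpleGraph V) {A : Set V} {a : V} (ha : a ∈ A) :
    Jn T A a a := by
  refine ⟨SimpleGraph.Walk.nil, ?_⟩
  intro z hz
  simp only [SimpleGraph.Walk.support_nil, List.mem_singleton] at hz
  rw [hz]
  exact ha

private theorem gwJn_symm {V : Type} (T : SimpleGraph V) {A : Set V} {a b : V}
    (h : Jn T A a b) : Jn T A b a := by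
  obtain ⟨w, hw⟩ := h
  refine ⟨w.reverse, ?_⟩
  intro z hz
  rw [SimpleGraph.Walk.support_reverse, List.mem_reverse] at hz
  exact hw z hz

private theorem gwJn_cons {V : Type} (T : SimpleGraph V) {A : Set V} {a b c : V}
    (ha : a ∈ A) (hab : T.Adj a b) (h : Jn T A b c) : Jn T A a c := by
  obtain ⟨w, hw⟩ := h
  refine ⟨SimpleGraph.Walk.cons hab w, ?_⟩
  intro z hz
  rw [SimpleGraph.Walk.support_cons, List.mem_cons] at hz
  rcases hz with hz | hz
  · rw [hz]
    exact ha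
  · exact hw z hz

/-- extending a chain by one step -/
private theorem gwSnoc {V W : Type} (E : Env V W) {M : Set W} {C : Set V} {J N : ℕ} {a b : W}
    {θ : ℕ → W} (h : Chn E M C J a N θ) (hr : Rel E M C a b) :
    Chn E M C (J + if b ∈ M ∧ b ∉ E.B then 1 else 0) b (N + 1)
      (fun i => if i ≤ N then θ i else b) := by
  refine ⟨?_, ?_, ?_, ?_⟩
  · simp only [Nat.zero_le, if_true]
    exact h.zero
  · have : ¬ (N + 1 ≤ N) := by omega
    simp only [this, if_false]
  · intro i hi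
    by_cases hiN : i < N
    · have h1 : i ≤ N := by omega
      have h2 : i + 1 ≤ N := by omega
      simp only [h1, h2, if_true]
      exact h.rel i hiN
    · have h1 : i = N := by omega
      subst h1
      have h2 : ¬ (i + 1 ≤ i) := by omega
      simp only [le_refl, h2, if_true, if_false]
      rw [h.last]
      exact hr
  · rw [Finset.range_add_one, Finset.filter_insert]
    have hsame : ((Finset.range (N + 1)).filter fun i =>
        (if i ≤ N then θ i else b) ∈ M ∧ (if i ≤ N then θ i else b) ∉ E.B) =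
        ((Finset.range (N + 1)).filter fun i => θ i ∈ M ∧ θ i ∉ E.B) := by
      apply Finset.filter_congr
      intro i hi
      have h1 : i ≤ N := by
        have := Finset.mem_range.mp hi
        omega
      simp only [h1, if_true]
    have hn : ¬ (N + 1 ≤ N) := by omega
    rw [hsame]
    simp only [hn, if_false]
    by_cases hb : b ∈ M ∧ b ∉ E.B
    · rw [if_pos hb, if_pos hb]
      refine (Finset.card_insert_le _ _).trans ?_
      exact Nat.add_le_add_right h.card 1
    · rw [if_neg hb, if_neg hb]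
      exact h.card

private theorem gwZero {V W : Type} (E : Env V W) {M : Set W} {C : Set V} {J : ℕ} {a : W}
    (ha : a ∈ E.B) : Chn E M C J a 0 (fun _ => a) := by
  refine ⟨ha, rfl, ?_, ?_⟩
  · intro i hi
    exact absurd hi (Nat.not_lt_zero i)
  · have : ((Finset.range (0 + 1)).filter fun _ => a ∈ M ∧ a ∉ E.B) = ∅ := by
      apply Finset.filter_false_of_mem
      intro i _ h
      exact h.2 ha
    rw [this]
    simp

/-- monotonicity of chains -/
private theorem gwMono {V W : Type} (E : Env V W) (hE : E.Ok) {M M' : Set W} {C C' : Set V}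
    {J N : ℕ} {a : W} {θ : ℕ → W} (hM : M ⊆ M') (hC : C ⊆ C')
    (hX : ∀ u ∈ M', u ∉ E.B → u ∈ E.Xh) (h : Chn E M C J a N θ) : Chn E M' C' J a N θ := by
  refine ⟨h.zero, h.last, ?_, ?_⟩
  · intro i hi
    rcases h.rel i hi with ⟨h1, h2, h3⟩ | ⟨h1, h2⟩
    · exact Or.inl ⟨⟨h1.1, hC h1.2⟩, ⟨h2.1, hC h2.2⟩, h3⟩
    · refine Or.inr ⟨h1, ?_⟩
      rcases h2 with h2 | h2
      · exact Or.inl ⟨hM h2.1, h2.2⟩
      · exact Or.inr ⟨h2.1, hC h2.2⟩
  · refine le_trans (Finset.card_le_card ?_) h.card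
    intro i hi
    rw [Finset.mem_filter] at hi ⊢
    obtain ⟨hi1, hi2, hi3⟩ := hi
    refine ⟨hi1, ?_, hi3⟩
    have hg : E.p (θ i) ∉ E.gd := by
      intro hg
      exact hE.gX _ hg (hX _ hi2 hi3).2
    rcases Nat.eq_zero_or_pos i with h0 | h0
    · subst h0
      exact absurd h.zero hi3
    · have hlt : i - 1 < N := by
        have := Finset.mem_range.mp hi1
        omega
      have hs : i - 1 + 1 = i := by omega
      have hr := h.rel (i - 1) hlt
      rw [hs] at hr
      rcases hr with ⟨_, h2, _⟩ | ⟨_, h2 | h2⟩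
      · exact absurd h2.1 hg
      · exact h2.1
      · exact absurd h2.1 hg

/-- the state of the growth procedure after `i` steps -/
private structure GwS {V W : Type} (E : Env V W) (m i : ℕ) (M : Set W) : Prop where
  BM : E.B ⊆ M
  MX : ∀ u ∈ M, u ∉ E.B → u ∈ E.Xh
  cnt : i * (m + 1) ≤ (M \ E.B).ncard
  back : ∀ u ∈ M, u ∉ E.B → ∃ v, (v ∈ E.B ∨ (E.p v ∈ E.gd ∧ E.p v ∈ gwC E M)) ∧
    ∃ w : E.G.Walk v u, w.length ≤ i ∧ ∀ z ∈ w.support, z = v ∨ (z ∈ M ∧ z ∉ E.B)
  ch : ∀ u ∈ M, u ∉ E.B → ∃ N θ, Chn E M (gwC E M) i u N θ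

private theorem gwChM {V W : Type} (E : Env V W) {m i : ℕ} {M : Set W} (S : GwS E m i M)
    {u : W} (hu : u ∈ M) : ∃ N θ, Chn E M (gwC E M) i u N θ := by
  by_cases hB : u ∈ E.B
  · exact ⟨0, _, gwZero E hB⟩
  · exact S.ch u hu hB

private theorem gwChC {V W : Type} (E : Env V W) (hE : E.Ok) {m i : ℕ} {M : Set W}
    (S : GwS E m i M) {a : W} (hg : E.p a ∈ E.gd) (hC : E.p a ∈ gwC E M) :
    ∃ N θ, Chn E M (gwC E M) i a N θ := by
  have hnot : ∀ b : W, E.p b ∈ E.gd → ¬ (b ∈ M ∧ b ∉ E.B) := by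
    rintro b hb ⟨h1, h2⟩
    exact hE.gX _ hb (S.MX b h1 h2).2
  obtain ⟨hX, u, hug, hj, ho⟩ := hC
  have huC : E.p u ∈ gwC E M :=
    ⟨hE.gX _ hug, u, hug, gwJn_refl E.T (hE.gX _ hug), ho⟩
  have hu : ∃ N θ, Chn E M (gwC E M) i u N θ := by
    rcases ho with ho | ⟨u1, h1, h2⟩
    · exact gwChM E S ho
    · obtain ⟨N, θ, h⟩ := gwChM E S h1
      have h3 := gwSnoc E h (b := u) (Or.inr ⟨h2, Or.inr ⟨hug, huC⟩⟩)
      rw [if_neg (hnot u hug)] at h3
      exact ⟨_, _, h3⟩
  obtain ⟨N, θ, h⟩ := hu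
  have h3 := gwSnoc E h (b := a)
    (Or.inl ⟨⟨hug, huC⟩, ⟨hg, ⟨hX, u, hug, hj, ho⟩⟩, gwJn_symm E.T hj⟩)
  rw [if_neg (hnot a hg)] at h3
  exact ⟨_, _, h3⟩

private def gwL {V W : Type} (E : Env V W) (M : Set W) : Set W :=
  {v | v ∈ E.Xh ∧ v ∉ M ∧ ∃ u, E.G.Adj u v ∧ (u ∈ M ∨ (E.p u ∈ E.gd ∧ E.p u ∈ gwC E M))}

private theorem gwStop {V W : Type} [Finite W] (E : Env V W) (hE : E.Ok) {m i : ℕ}
    {M : Set W} (S : GwS E m i M) (hL : (gwL E M).ncard ≤ m) : Nonempty (Rea E m) := by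
  refine ⟨⟨i, M, gwC E M, gwL E M, ?_, S.BM, S.MX, ?_, ?_, ?_, ?_, hL, ?_, ?_, S.back, ?_⟩⟩
  · refine S.cnt.trans (Set.ncard_le_ncard ?_ (Set.toFinite _))
    rintro u ⟨h1, h2⟩
    exact S.MX u h1 h2
  · intro z hz
    exact hz.1
  · rintro z ⟨hz, u, hu, hj, ho⟩ y hy hzy
    exact ⟨hy, u, hu, gwJn_cons E.T hy hzy.symm hj, ho⟩
  · intro u hu hg
    exact ⟨hE.gX _ hg, u, hg, gwJn_refl E.T (hE.gX _ hg), Or.inl (S.BM hu)⟩
  · intro u hu
    exact ⟨hu.1, hu.2.1⟩
  · intro u v hu huv hv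
    by_cases hvM : v ∈ M
    · exact Or.inl hvM
    · exact Or.inr ⟨hv, hvM, u, huv, hu⟩
  · intro u v hu huv hg
    exact ⟨hE.gX _ hg, v, hg, gwJn_refl E.T (hE.gX _ hg), Or.inr ⟨u, hu, huv⟩⟩
  · intro a hg hC
    exact gwChC E hE S hg hC

private theorem gwStep {V W : Type} [Finite W] (E : Env V W) (hE : E.Ok) {m i : ℕ}
    {M : Set W} (S : GwS E m i M) (hL : m < (gwL E M).ncard) :
    GwS E m (i + 1) (M ∪ gwL E M) := by
  have hMM : M ⊆ M ∪ gwL E M := Set.subset_union_left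
  have hCC : gwC E M ⊆ gwC E (M ∪ gwL E M) := gwC_mono E hMM
  have hX : ∀ u ∈ M ∪ gwL E M, u ∉ E.B → u ∈ E.Xh := by
    intro u hu hB
    rcases hu with hu | hu
    · exact S.MX u hu hB
    · exact hu.1
  have hLB : ∀ u ∈ gwL E M, u ∉ E.B := fun u hu hB => hu.2.1 (S.BM hB)
  refine ⟨S.BM.trans hMM, hX, ?_, ?_, ?_⟩
  · have h1 : (M ∪ gwL E M) \ E.B = (M \ E.B) ∪ gwL E M := by
      ext u
      constructor
      · rintro ⟨h | h, hB⟩
        · exact Or.inl ⟨h, hB⟩
        · exact Or.inr h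
      · rintro (⟨h, hB⟩ | h)
        · exact ⟨Or.inl h, hB⟩
        · exact ⟨Or.inr h, hLB u h⟩
    have h2 : Disjoint (M \ E.B) (gwL E M) := by
      rw [Set.disjoint_left]
      intro u hu hu'
      exact hu'.2.1 hu.1
    rw [h1, Set.ncard_union_eq h2 (Set.toFinite _) (Set.toFinite _)]
    have h3 := S.cnt
    have h4 : (i + 1) * (m + 1) = i * (m + 1) + (m + 1) := by ring
    omega
  · intro u hu hB
    by_cases huM : u ∈ M
    · obtain ⟨v, hv, w, hw, hs⟩ := S.back u huM hB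
      refine ⟨v, ?_, w, by omega, ?_⟩
      · rcases hv with hv | hv
        · exact Or.inl hv
        · exact Or.inr ⟨hv.1, hCC hv.2⟩
      · intro z hz
        rcases hs z hz with h | h
        · exact Or.inl h
        · exact Or.inr ⟨hMM h.1, h.2⟩
    · have huL : u ∈ gwL E M := by
        rcases hu with hu | hu
        · exact absurd hu huM
        · exact hu
      obtain ⟨_, _, u1, hadj, ho⟩ := huL
      have hone : (u1 ∈ E.B ∨ (E.p u1 ∈ E.gd ∧ E.p u1 ∈ gwC E (M ∪ gwL E M))) →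
          ∃ v, (v ∈ E.B ∨ (E.p v ∈ E.gd ∧ E.p v ∈ gwC E (M ∪ gwL E M))) ∧
            ∃ w : E.G.Walk v u, w.length ≤ i + 1 ∧
              ∀ z ∈ w.support, z = v ∨ (z ∈ M ∪ gwL E M ∧ z ∉ E.B) := by
        intro h
        refine ⟨u1, h, SimpleGraph.Walk.cons hadj SimpleGraph.Walk.nil, ?_, ?_⟩
        · simp only [SimpleGraph.Walk.length_cons, SimpleGraph.Walk.length_nil]
          omega
        · intro z hz
          simp only [SimpleGraph.Walk.support_cons, SimpleGraph.Walk.support_nil,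
            List.mem_cons, List.not_mem_nil, or_false] at hz
          rcases hz with hz | hz
          · exact Or.inl hz
          · rw [hz]
            exact Or.inr ⟨hu, hB⟩
      rcases ho with ho | ho
      · by_cases h1B : u1 ∈ E.B
        · exact hone (Or.inl h1B)
        · obtain ⟨v, hv, w, hw, hs⟩ := S.back u1 ho h1B
          refine ⟨v, ?_, w.concat hadj, ?_, ?_⟩
          · rcases hv with hv | hv
            · exact Or.inl hv
            · exact Or.inr ⟨hv.1, hCC hv.2⟩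
          · rw [SimpleGraph.Walk.length_concat]
            omega
          · intro z hz
            rw [SimpleGraph.Walk.support_concat, List.mem_append, List.mem_singleton] at hz
            rcases hz with hz | hz
            · rcases hs z hz with h | h
              · exact Or.inl h
              · exact Or.inr ⟨hMM h.1, h.2⟩
            · rw [hz]
              exact Or.inr ⟨hu, hB⟩
      · exact hone (Or.inr ⟨ho.1, hCC ho.2⟩)
  · intro u hu hB
    by_cases huM : u ∈ M
    · obtain ⟨N, θ, h⟩ := S.ch u huM hB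
      have h2 := gwMono E hE hMM hCC hX h
      exact ⟨N, θ, ⟨h2.zero, h2.last, h2.rel, h2.card.trans (Nat.le_succ i)⟩⟩
    · have huL : u ∈ gwL E M := by
        rcases hu with hu | hu
        · exact absurd hu huM
        · exact hu
      obtain ⟨_, _, u1, hadj, ho⟩ := huL
      have h1 : ∃ N θ, Chn E M (gwC E M) i u1 N θ := by
        rcases ho with ho | ho
        · exact gwChM E S ho
        · exact gwChC E hE S ho.1 ho.2
      obtain ⟨N, θ, h⟩ := h1
      have h2 := gwMono E hE hMM hCC hX h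
      have h3 := gwSnoc E h2 (b := u) (Or.inr ⟨hadj, Or.inl ⟨hu, hB⟩⟩)
      rw [if_pos ⟨hu, hB⟩] at h3
      exact ⟨_, _, h3⟩

/-- G1: the growth procedure -/
theorem sgrow : SGrow := by
  intro V W _ _ E hE m
  by_contra hno
  have hall : ∀ i : ℕ, ∃ M : Set W, GwS E m i M := by
    intro i
    induction i with
    | zero =>
      refine ⟨E.B, le_refl _, ?_, ?_, ?_, ?_⟩
      · intro u hu hB
        exact absurd hu hB
      · simp
      · intro u hu hB
        exact absurd hu hB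
      · intro u hu hB
        exact absurd hu hB
    | succ i ih =>
      obtain ⟨M, S⟩ := ih
      by_cases hL : (gwL E M).ncard ≤ m
      · exact absurd (gwStop E hE S hL) hno
      · exact ⟨_, gwStep E hE S (by omega)⟩
  obtain ⟨M, S⟩ := hall (E.Xh.ncard + 1)
  have h1 := S.cnt
  have h2 : (M \ E.B).ncard ≤ E.Xh.ncard := by
    refine Set.ncard_le_ncard ?_ (Set.toFinite _)
    rintro u ⟨h1, h2⟩
    exact S.MX u h1 h2
  have h3 : (E.Xh.ncard + 1) * 1 ≤ (E.Xh.ncard + 1) * (m + 1) :=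
    Nat.mul_le_mul_left _ (by omega)
  omega

end Pool.Agent.FM
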