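import Pool.Agent.FM.Stm

/-!
# MP_4c8b8e_co, project FIRE, macro part: cut edges and components of the complement of `C`
-/

set_option autoImplicit false

open Classical

namespace Pool.Agent.FM

private lemma g2_refl {V : Type} {T : SimpleGraph V} {A : Set V} {a : V} (h : a ∈ A) :
    Jn T A a a := by
  refine ⟨SimpleGraph.Walk.nil, ?_⟩
  intro z hz
  rw [SimpleGraph.Walk.support_nil, List.mem_singleton] at hz
  exact hz ▸ h

private lemma g2_symm {V : Type} {T : SimpleGraph V} {A : Set V} {a b : V} (h : Jn T A a b) :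
    Jn T A b a := by
  obtain ⟨w, hw⟩ := h
  refine ⟨w.reverse, ?_⟩
  intro z hz
  rw [SimpleGraph.Walk.support_reverse, List.mem_reverse] at hz
  exact hw z hz

private lemma g2_trans {V : Type} {T : SimpleGraph V} {A : Set V} {a b c : V} (h : Jn T A a b)
    (h' : Jn T A b c) : Jn T A a c := by
  obtain ⟨w, hw⟩ := h
  obtain ⟨w', hw'⟩ := h'
  refine ⟨w.append w', ?_⟩
  intro z hz
  rw [SimpleGraph.Walk.mem_support_append_iff] at hz
  rcases hz with hz | hz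
  · exact hw z hz
  · exact hw' z hz

private lemma g2_mono {V : Type} {T : SimpleGraph V} {A B : Set V} {a b : V} (h : Jn T A a b)
    (hAB : A ⊆ B) : Jn T B a b := by
  obtain ⟨w, hw⟩ := h
  exact ⟨w, fun z hz => hAB (hw z hz)⟩

private lemma g2_adj {V : Type} {T : SimpleGraph V} {A : Set V} {a b : V} (ha : a ∈ A)
    (hb : b ∈ A) (h : T.Adj a b) : Jn T A a b := by
  refine ⟨SimpleGraph.Walk.cons h SimpleGraph.Walk.nil, ?_⟩
  intro z hz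
  rw [SimpleGraph.Walk.support_cons, List.mem_cons, SimpleGraph.Walk.support_nil,
    List.mem_singleton] at hz
  rcases hz with hz | hz
  · exact hz ▸ ha
  · exact hz ▸ hb

/-- G2: cut edges -/
theorem scut : SCut := by
  intro V W _ _ E m R
  unfold cut
  have e1 : Nat.card {e : V × V // e.1 ∈ R.Cᶜ ∧ e.2 ∈ R.C ∧ E.T.Adj e.1 e.2} =
      {e : V × V | e.1 ∈ R.Cᶜ ∧ e.2 ∈ R.C ∧ E.T.Adj e.1 e.2}.ncard := rfl
  have e2 : Nat.card {e : V × V // e.1 ∈ E.X ∧ e.2 ∈ (E.X ∪ R.C)ᶜ ∧ E.T.Adj e.1 e.2} =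
      {e : V × V | e.1 ∈ E.X ∧ e.2 ∈ (E.X ∪ R.C)ᶜ ∧ E.T.Adj e.1 e.2}.ncard := rfl
  have e3 : Nat.card {e : V × V // e.1 ∈ E.X ∧ e.2 ∈ (E.X)ᶜ ∧ E.T.Adj e.1 e.2} =
      {e : V × V | e.1 ∈ E.X ∧ e.2 ∈ (E.X)ᶜ ∧ E.T.Adj e.1 e.2}.ncard := rfl
  rw [e1, e2, e3]
  have hd : Disjoint {e : V × V | e.1 ∈ R.Cᶜ ∧ e.2 ∈ R.C ∧ E.T.Adj e.1 e.2}
      {e : V × V | e.1 ∈ E.X ∧ e.2 ∈ (E.X ∪ R.C)ᶜ ∧ E.T.Adj e.1 e.2} := by
    rw [Set.disjoint_left]
    rintro e ⟨_, h2, _⟩ ⟨_, h5, _⟩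
    exact h5 (Or.inr h2)
  rw [← Set.ncard_union_eq hd (Set.toFinite _) (Set.toFinite _)]
  apply Set.ncard_le_ncard _ (Set.toFinite _)
  rintro e (⟨h1, h2, h3⟩ | ⟨h1, h2, h3⟩)
  · refine ⟨?_, R.CX _ h2, h3⟩
    by_contra hX
    exact h1 (R.Ccl _ h2 _ hX h3.symm)
  · exact ⟨h1, fun h => h2 (Or.inl h), h3⟩

private lemma g2_reach {V W : Type} (E : Env V W) {m : ℕ} (R : Rea E m) {y x0 : V}
    (w : E.T.Walk y x0) : x0 ∈ E.X → y ∉ R.C → ∃ x ∈ E.X, Jn E.T R.Cᶜ y x := by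
  induction w with
  | nil => exact fun h0 h => ⟨_, h0, g2_refl h⟩
  | @cons y y' x0 hadj w ih =>
    intro h0 h
    by_cases hX : y ∈ E.X
    · exact ⟨y, hX, g2_refl h⟩
    · have hy' : y' ∉ R.C := fun hc => h (R.Ccl _ hc _ hX hadj.symm)
      obtain ⟨x, hx, hj⟩ := ih h0 hy'
      exact ⟨x, hx, g2_trans (g2_adj h hy' hadj) hj⟩

/-- G5: the number of components of the complement of `C` -/
theorem snumc : SNumC := by
  intro V W _ _ E hE m R q hne hf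
  obtain ⟨x0, hx0⟩ := hne
  obtain ⟨f, hf⟩ := hf
  have hX : ∀ x ∈ E.X, x ∉ R.C := fun x hx hc => R.CX x hc hx
  have h1 : ∀ y, ∃ x ∈ E.X, y ∉ R.C → Jn E.T R.Cᶜ y x := by
    intro y
    by_cases hy : y ∈ R.C
    · exact ⟨x0, hx0, fun h => absurd hy h⟩
    · obtain ⟨w⟩ := hE.con y x0
      obtain ⟨x, hx, hj⟩ := g2_reach E R w hx0 hy
      exact ⟨x, hx, fun _ => hj⟩
  choose x hx hj using h1
  refine ⟨fun y => f (x y), ?_⟩
  intro y y' hy hy' hff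
  have h2 := hf (x y) (x y') (hx y) (hx y') hff
  exact g2_trans (g2_trans (hj y hy) (g2_mono h2 (fun z hz => hX z hz))) (g2_symm (hj y' hy'))

end Pool.Agent.FM
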