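import Pool.Agent.FM.Stm

/-!
# MP_4c8b8e_co, project FIRE, macro part, row T7 (G3): separation
-/

set_option autoImplicit false

open Classical

namespace Pool.Agent.FM

section

variable {V W : Type}

/-- burning along a walk -/
private theorem g3_by {G : SimpleGraph W} {P S : Set W} {a c : W} {n k : ℕ} (h : By G P S a n)
    (ha : a ∉ P) (w : G.Walk a c) (hw : ∀ z ∈ w.support, z ∈ P → z = c) (hk : w.length ≤ k) :
    By G P S c (n + k) := by
  obtain ⟨s, hs, w0, h1, h2⟩ := h
  refine ⟨s, hs, w0.append w, ?_, ?_⟩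
  · rw [SimpleGraph.Walk.length_append]
    omega
  · intro z hz hzP
    rw [SimpleGraph.Walk.mem_support_append_iff] at hz
    rcases hz with hz | hz
    · exact absurd (h2 z hz hzP ▸ hzP) ha
    · exact hw z hz hzP

private theorem g3_mono {G : SimpleGraph W} {P S : Set W} {a : W} {n k : ℕ} (h : By G P S a n)
    (hk : n ≤ k) : By G P S a k := by
  obtain ⟨s, hs, w0, h1, h2⟩ := h
  exact ⟨s, hs, w0, h1.trans hk, h2⟩

/-- the last visit of a set -/
private theorem g3_last {G : SimpleGraph W} (S : Set W) : ∀ {b s : W} (w : G.Walk b s),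
    s ∉ S → (∃ z ∈ w.support, z ∈ S) → ∃ u v, u ∈ S ∧ u ∈ w.support ∧ G.Adj u v ∧
      ∃ w' : G.Walk v s, ∀ z ∈ w'.support, z ∉ S ∧ z ∈ w.support := by
  intro b s w
  induction w with
  | nil =>
    rintro hs ⟨z, hz, hz'⟩
    rw [SimpleGraph.Walk.support_nil, List.mem_singleton] at hz
    exact absurd (hz ▸ hz') hs
  | cons h w ih =>
    rintro hs ⟨z, hz, hz'⟩
    by_cases hc : ∃ z ∈ w.support, z ∈ S
    · obtain ⟨u, v, h1, h2, h3, w', h4⟩ := ih hs hc
      refine ⟨u, v, h1, ?_, h3, w', fun z hz => ⟨(h4 z hz).1, ?_⟩⟩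
      · rw [SimpleGraph.Walk.support_cons]
        exact List.mem_cons_of_mem _ h2
      · rw [SimpleGraph.Walk.support_cons]
        exact List.mem_cons_of_mem _ (h4 z hz).2
    · rw [SimpleGraph.Walk.support_cons, List.mem_cons] at hz
      rcases hz with rfl | hz
      · refine ⟨z, _, hz', ?_, h, w, fun y hy => ⟨fun hy' => hc ⟨y, hy, hy'⟩, ?_⟩⟩
        · exact SimpleGraph.Walk.start_mem_support _
        · rw [SimpleGraph.Walk.support_cons]
          exact List.mem_cons_of_mem _ hy
      · exact absurd ⟨z, hz, hz'⟩ hc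

private theorem g3_refl {T : SimpleGraph V} {A : Set V} {a : V} (ha : a ∈ A) : Jn T A a a := by
  refine ⟨SimpleGraph.Walk.nil, ?_⟩
  intro z hz
  rw [SimpleGraph.Walk.support_nil, List.mem_singleton] at hz
  rw [hz]
  exact ha

private theorem g3_cons {T : SimpleGraph V} {A : Set V} {a b c : V} (ha : a ∈ A)
    (h : a = b ∨ T.Adj a b) (hb : Jn T A b c) : Jn T A a c := by
  rcases h with rfl | h
  · exact hb
  · obtain ⟨w, hw⟩ := hb
    refine ⟨SimpleGraph.Walk.cons h w, ?_⟩
    intro z hz
    rw [SimpleGraph.Walk.support_cons, List.mem_cons] at hz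
    rcases hz with rfl | hz
    · exact ha
    · exact hw z hz

private theorem g3_trans {T : SimpleGraph V} {A : Set V} {a b c : V} (h : Jn T A a b)
    (h' : Jn T A b c) : Jn T A a c := by
  obtain ⟨w, hw⟩ := h
  obtain ⟨w', hw'⟩ := h'
  refine ⟨w.append w', ?_⟩
  intro z hz
  rw [SimpleGraph.Walk.mem_support_append_iff] at hz
  rcases hz with hz | hz
  · exact hw z hz
  · exact hw' z hz

/-- the projection of a walk -/
private theorem g3_proj {T : SimpleGraph V} {G : SimpleGraph W} {p : W → V} (h : Ov T G p)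
    (A : Set V) : ∀ {a b : W} (w : G.Walk a b), (∀ z ∈ w.support, p z ∈ A) →
      Jn T A (p a) (p b) := by
  intro a b w
  induction w with
  | nil =>
    intro hw
    exact g3_refl (hw _ (SimpleGraph.Walk.start_mem_support _))
  | cons h' w ih =>
    intro hw
    refine g3_cons (hw _ (SimpleGraph.Walk.start_mem_support _)) (h.adj _ _ h') (ih ?_)
    intro z hz
    refine hw z ?_
    rw [SimpleGraph.Walk.support_cons]
    exact List.mem_cons_of_mem _ hz

/-- closed sets along walks -/
private theorem g3_ccl {T : SimpleGraph V} (C X : Set V)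
    (hC : ∀ z ∈ C, ∀ y, y ∉ X → T.Adj z y → y ∈ C) : ∀ {a b : V} (w : T.Walk a b),
      a ∈ C → (∀ z ∈ w.support, z ∈ Xᶜ) → b ∈ C := by
  intro a b w
  induction w with
  | nil => exact fun h _ => h
  | cons h w ih =>
    intro ha hw
    have h1 : ∀ z ∈ w.support, z ∈ Xᶜ := by
      intro z hz
      refine hw z ?_
      rw [SimpleGraph.Walk.support_cons]
      exact List.mem_cons_of_mem _ hz
    exact ih (hC _ ha _ (h1 _ (SimpleGraph.Walk.start_mem_support _)) h) h1

end

/-- G3: separation -/
theorem ssep : SSep := by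
  intro V W _ _ E hE m R n hn s hs hsC hby b hb ⟨w, hw⟩
  have hov := hE.ov
  set S : Set W := {u | u ∈ R.M ∨ E.p u ∈ R.C} with hS
  have hsS : s ∉ S := by
    rintro (h | h)
    · by_cases hsB : s ∈ E.B
      · exact hsC (R.BC s hsB hs)
      · exact hE.gX _ hs (R.MX s h hsB).2
    · exact hsC h
  obtain ⟨u, v, hu, huw, huv, w', hw'⟩ := g3_last S w hsS
    ⟨b, SimpleGraph.Walk.start_mem_support _, Or.inl (R.BM hb)⟩
  have hv := hw' v (SimpleGraph.Walk.start_mem_support _)
  have hvC : E.p v ∉ R.C := fun h => hv.1 (Or.inr h)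
  have hvM : v ∉ R.M := fun h => hv.1 (Or.inl h)
  have hvn := hw v hv.2
  have hvL : v ∉ R.L := fun h => hvn (Or.inr h)
  have hJv : Jn E.T R.Cᶜ (E.p v) (E.p s) :=
    g3_proj hov _ w' fun z hz h => (hw' z hz).1 (Or.inr h)
  have hadj := hov.adj u v huv
  -- the time of `v`
  have key : ∀ {k : ℕ}, k ≤ n + R.J + 1 → u ∉ E.P → By E.G E.P {E.v0} u k → v ∈ E.P → False := by
    intro k hk huP hbu hvP
    apply hvn
    refine Or.inl ⟨hvP, ?_⟩
    have h1 : By E.G E.P {E.v0} v (k + 1) := by
      refine g3_by hbu huP (SimpleGraph.Walk.cons huv SimpleGraph.Walk.nil) ?_ (le_of_eq ?_)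
      · intro z hz hzP
        rw [SimpleGraph.Walk.support_cons, SimpleGraph.Walk.support_nil, List.mem_cons,
          List.mem_singleton] at hz
        rcases hz with rfl | hz
        · exact absurd hzP huP
        · exact hz
      · rw [SimpleGraph.Walk.length_cons, SimpleGraph.Walk.length_nil]
    exact g3_mono h1 (by omega)
  by_cases huC : E.p u ∈ R.C
  · -- case (i)
    have hT : E.T.Adj (E.p u) (E.p v) := by
      rcases hadj with h | h
      · exact absurd (h ▸ huC) hvC
      · exact h
    have hvX : E.p v ∈ E.X := by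
      by_contra h
      exact hvC (R.Ccl _ huC _ h hT)
    have hug : E.p u ∈ E.gd := hE.xg _ _ (R.CX _ huC) hvX hT
    have hvP : v ∈ E.P := by
      by_contra hvP
      rcases R.cl1 u v (Or.inr ⟨hug, huC⟩) huv ⟨hvP, hvX⟩ with h | h
      · exact hvM h
      · exact hvL h
    exact key (by omega) (hE.gP u hug) (hby u hug huC ⟨_, hvC, hT, hJv⟩) hvP
  · -- case (ii)
    have huM : u ∈ R.M := by
      rcases hu with h | h
      · exact h
      · exact absurd h huC
    have huX : E.p u ∈ E.X := by
      by_contra huX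
      have huB : u ∈ E.B := by
        by_contra huB
        exact huX (R.MX u huM huB).2
      obtain ⟨u', hu'B, hu'g, q, hq⟩ := hE.bg u huB huX
      refine huC (g3_ccl R.C E.X R.Ccl q.reverse (R.BC u' hu'B hu'g) ?_)
      intro z hz
      rw [SimpleGraph.Walk.support_reverse, List.mem_reverse] at hz
      exact hq z hz
    have hvP : v ∈ E.P := by
      by_contra hvP
      by_cases hvX : E.p v ∈ E.X
      · rcases R.cl1 u v (Or.inl huM) huv ⟨hvP, hvX⟩ with h | h
        · exact hvM h
        · exact hvL h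
      · have hT : E.T.Adj (E.p u) (E.p v) := by
          rcases hadj with h | h
          · exact absurd (h ▸ huX) hvX
          · exact h
        exact hvC (R.cl2 u v huM huv (hE.xg _ _ hvX huX hT.symm))
    by_cases huB : u ∈ E.B
    · exact key (k := E.t1) (by omega) huB.1 huB.2 hvP
    · have huP : u ∉ E.P := (R.MX u huM huB).1
      obtain ⟨v', hv', q, hq1, hq2⟩ := R.back u huM huB
      have hfree : v' ∉ E.P → ∀ z ∈ q.support, z ∈ E.P → z = u := by
        intro h z hz hzP
        rcases hq2 z hz with h1 | h1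
        · exact absurd (h1 ▸ hzP) h
        · exact absurd hzP (R.MX z h1.1 h1.2).1
      rcases hv' with hv'B | ⟨hv'g, hv'C⟩
      · have h1 := g3_by hv'B.2 hv'B.1 q (hfree hv'B.1) hq1
        exact key (k := E.t1 + R.J) (by omega) huP h1 hvP
      · have hv'P : v' ∉ E.P := hE.gP v' hv'g
        have huv' : u ∉ ({v'} : Set W) := by
          intro h
          rw [Set.mem_singleton_iff] at h
          exact huC (h ▸ hv'C)
        obtain ⟨a, z1, ha, -, haz, q', hq'⟩ := g3_last ({v'} : Set W) q huv'
          ⟨v', SimpleGraph.Walk.start_mem_support _, rfl⟩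
        rw [Set.mem_singleton_iff] at ha
        subst ha
        have hX : ∀ z ∈ q'.support, E.p z ∈ R.Cᶜ := by
          intro z hz hzC
          have h1 := hq' z hz
          rcases hq2 z h1.2 with h2 | h2
          · exact h1.1 h2
          · exact R.CX _ hzC (R.MX z h2.1 h2.2).2
        have h1 : Jn E.T R.Cᶜ (E.p z1) (E.p u) := g3_proj hov _ q' hX
        have h2 : Jn E.T R.Cᶜ (E.p z1) (E.p s) := g3_trans h1 (g3_cons huC hadj hJv)
        have hz1 := hX z1 (SimpleGraph.Walk.start_mem_support _)
        have hT : E.T.Adj (E.p a) (E.p z1) := by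
          rcases hov.adj a z1 haz with h | h
          · exact absurd (h ▸ hv'C) hz1
          · exact h
        have h3 := hby a hv'g hv'C ⟨_, hz1, hT, h2⟩
        have h4 := g3_by h3 hv'P q (hfree hv'P) hq1
        exact key (k := n + R.J) (by omega) huP h4 hvP

end Pool.Agent.FM
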