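import Pool.Agent.FM.Stm

/-!
# MP_4c8b8e_co, project FIRE, macro part: the condition of Hall for the new guards
-/

set_option autoImplicit false

open Classical

namespace Pool.Agent.FM

private theorem hall_first {W : Type} (G : SimpleGraph W) (P : Set W) {a b : W}
    (w : G.Walk a b) (h : ∃ z ∈ w.support, z ∈ P) :
    ∃ z ∈ w.support, z ∈ P ∧ ∃ w' : G.Walk a z, w'.length ≤ w.length ∧
      ∀ y ∈ w'.support, y ∈ P → y = z := by
  induction w with
  | nil =>
    obtain ⟨z, hz, hzP⟩ := h
    rw [SimpleGraph.Walk.support_nil, List.mem_singleton] at hz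
    subst hz
    refine ⟨z, by simp, hzP, SimpleGraph.Walk.nil, le_rfl, ?_⟩
    intro y hy _
    simpa using hy
  | @cons a c b hac p ih =>
    by_cases haP : a ∈ P
    · refine ⟨a, by simp, haP, SimpleGraph.Walk.nil, Nat.zero_le _, ?_⟩
      intro y hy _
      simpa using hy
    · have h' : ∃ z ∈ p.support, z ∈ P := by
        obtain ⟨z, hz, hzP⟩ := h
        rw [SimpleGraph.Walk.support_cons, List.mem_cons] at hz
        rcases hz with rfl | hz
        · exact absurd hzP haP
        · exact ⟨z, hz, hzP⟩
      obtain ⟨z, hz, hzP, w', hw', hy⟩ := ih h'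
      refine ⟨z, ?_, hzP, SimpleGraph.Walk.cons hac w', ?_, ?_⟩
      · rw [SimpleGraph.Walk.support_cons]
        exact List.mem_cons_of_mem _ hz
      · rw [SimpleGraph.Walk.length_cons, SimpleGraph.Walk.length_cons]
        omega
      · intro y hyy hyP
        rw [SimpleGraph.Walk.support_cons, List.mem_cons] at hyy
        rcases hyy with rfl | hyy
        · exact absurd hyP haP
        · exact hy y hyy hyP

private theorem hall_mono {W : Type} (G : SimpleGraph W) (P S : Set W) {m n : ℕ} (h : m ≤ n) :
    Tch G P S m ⊆ Tch G P S n := by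
  rintro u ⟨hu, s, hs, w, hw, hz⟩
  exact ⟨hu, s, hs, w, hw.trans h, hz⟩

/-- G4: Hall's condition and the base for the new guards -/
theorem shall : SHall := by
  intro W _ G P L v0 t1 T' s hv0 htT hH hL hLP
  have hcard : (Tch G P {v0} T' ∪ L).ncard ≤ T' + s + L.ncard :=
    (Set.ncard_union_le _ _).trans (Nat.add_le_add_right (hH T') _)
  refine ⟨?_, hcard, ?_⟩
  · intro t
    by_cases ht : t ≤ T'
    · have hsub : Tch G (Tch G P {v0} T' ∪ L) {v0} t ⊆ Tch G P {v0} t ∪ L := by
        rintro x ⟨hx, a, ha, w, hw, hz⟩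
        rw [Set.mem_singleton_iff] at ha
        subst ha
        rcases hx with hx | hx
        · left
          obtain ⟨z, hzs, hzP, w', hw', hy⟩ := hall_first G P w ⟨x, w.end_mem_support, hx.1⟩
          have hzB : z ∈ Tch G P {a} t := ⟨hzP, a, rfl, w', hw'.trans hw, hy⟩
          have hzx : z = x := hz z hzs (Or.inl (hall_mono G P _ ht hzB))
          rw [← hzx]
          exact hzB
        · exact Or.inr hx
      have h1 := Set.ncard_le_ncard hsub (Set.toFinite _)
      have h2 := Set.ncard_union_le (Tch G P {v0} t) L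
      have h3 := hH t
      omega
    · have hsub : Tch G (Tch G P {v0} T' ∪ L) {v0} t ⊆ Tch G P {v0} T' ∪ L := fun x hx => hx.1
      have h1 := Set.ncard_le_ncard hsub (Set.toFinite _)
      omega
  · ext u
    constructor
    · rintro ⟨hu, a, ha, w, hw, hz⟩
      rw [Set.mem_singleton_iff] at ha
      subst ha
      have hav : ∀ z ∈ w.support, z ∉ P := by
        intro z hzs hzP
        obtain ⟨z', hzs', hzP', w', hw', hy⟩ := hall_first G P w ⟨z, hzs, hzP⟩
        have hzB : z' ∈ Tch G P {a} T' :=
          hall_mono G P _ htT ⟨hzP', a, rfl, w', hw'.trans hw, hy⟩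
        have hzu : z' = u := hz z' hzs' (Or.inl hzB)
        rw [hzu] at hzB
        exact hu (Or.inl hzB)
      exact ⟨hav u w.end_mem_support, a, rfl, w, hw, fun z hz' hzP => absurd hzP (hav z hz')⟩
    · rintro ⟨hu, a, ha, w, hw, hz⟩
      rw [Set.mem_singleton_iff] at ha
      subst ha
      have hav : ∀ z ∈ w.support, z ∉ P := by
        intro z hzs hzP
        have h1 := hz z hzs hzP
        rw [h1] at hzP
        exact hu hzP
      have hav' : ∀ z ∈ w.support, z ∉ Tch G P {a} T' ∪ L := by
        intro z hzs hzP'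
        rcases hzP' with h1 | h1
        · exact hav z hzs h1.1
        · refine hL z h1 ⟨hav z hzs, a, rfl, w.takeUntil z hzs,
            (w.length_takeUntil_le_length hzs).trans hw, ?_⟩
          intro y hy hyP
          exact absurd hyP (hav y (w.support_takeUntil_subset_support hzs hy))
      exact ⟨hav' u w.end_mem_support, a, rfl, w, hw, fun z hz' hzP => absurd hzP (hav' z hz')⟩

end Pool.Agent.FM
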