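import Pool.Agent.FM.Stm

/-!
# MP_4c8b8e_co, project FIRE, macro part, row T18 (G6): the environment of a fill structure
-/

set_option autoImplicit false

open Classical

namespace Pool.Agent.FM

/-- the vertices of a walk that shows that `u` is burnt are burnt -/
private theorem g6_walk {W : Type} {G : SimpleGraph W} {P : Set W} {v0 u : W} {t1 : ℕ}
    (h : u ∈ Bu G P {v0} t1) : ∃ w : G.Walk v0 u, ∀ z ∈ w.support, z ∈ Bu G P {v0} t1 := by
  obtain ⟨huP, s, hs, w, hl, hw⟩ := h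
  have hs' : s = v0 := hs
  subst hs'
  refine ⟨w, fun z hz => ?_⟩
  have hzP : ∀ y ∈ w.support, y ∉ P := fun y hy hyP => huP (hw y hy hyP ▸ hyP)
  refine ⟨hzP z hz, s, rfl, w.takeUntil z hz, (w.length_takeUntil_le_length hz).trans hl, ?_⟩
  intro y hy hyP
  exact absurd hyP (hzP y (w.support_takeUntil_subset_support hz hy))

/-- Row T18: the environment of a fill structure. -/
theorem senvok (_hA : SFilA) (hC : SFilC) : SEnvOk := by
  intro V W _ _ F F0 G p P v0 t1 hF hov hbl hv0 hB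
  obtain ⟨h1, h2, h3⟩ := hC V F F0 hF
  have hv0B : v0 ∈ Bu G P {v0} t1 := by
    refine ⟨hv0, v0, rfl, SimpleGraph.Walk.nil, Nat.zero_le _, ?_⟩
    intro z hz _
    simpa using hz
  have hch : ∀ z, z ∉ F.X → ∃ g ∈ F.gd, Jn F.T (F.X)ᶜ z g := by
    intro z hz
    by_cases hg : z ∈ F.gd
    · refine ⟨z, hg, SimpleGraph.Walk.nil, ?_⟩
      intro y hy
      have hy' : y = z := by simpa using hy
      rw [hy']
      exact hz
    · obtain ⟨S, hzS, -, -, -, ⟨y0, hy0⟩, hat⟩ := h3 z hz hg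
      obtain ⟨w⟩ := hF.con z y0
      obtain ⟨d, -, hd1, hd2⟩ := w.exists_boundary_dart S hzS hy0
      obtain ⟨hy1, hy2⟩ := hat d.snd hd2 ⟨d.fst, hd1, d.adj.symm⟩
      exact ⟨d.snd, hy1, hy2⟩
  have hbg : ∀ u ∈ Bu G P {v0} t1, p u ∉ F.X →
      ∃ u' ∈ Bu G P {v0} t1, p u' ∈ F.gd ∧ Jn F.T (F.X)ᶜ (p u) (p u') := by
    intro u hu hX
    by_cases hg : p u ∈ F.gd
    · refine ⟨u, hu, hg, SimpleGraph.Walk.nil, ?_⟩
      intro y hy
      have hy' : y = p u := by simpa using hy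
      rw [hy']
      exact hX
    · obtain ⟨S, hzS, hcard, -, -, -, hat⟩ := h3 (p u) hX hg
      obtain ⟨u1, hu1, hu1S⟩ := hB S hcard
      obtain ⟨w1, hw1⟩ := g6_walk hu
      obtain ⟨w2, hw2⟩ := g6_walk hu1
      have hw : ∀ z ∈ (w1.reverse.append w2).support, z ∈ Bu G P {v0} t1 := by
        intro z hz
        rw [SimpleGraph.Walk.mem_support_append_iff, SimpleGraph.Walk.support_reverse,
          List.mem_reverse] at hz
        exact hz.elim (hw1 z) (hw2 z)
      obtain ⟨d, hd, hd1, hd2⟩ := (w1.reverse.append w2).exists_boundary_dart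
        {v | p v ∈ S} hzS hu1S
      have hd1' : p d.fst ∈ S := hd1
      have hd2' : p d.snd ∉ S := hd2
      have hadj : F.T.Adj (p d.fst) (p d.snd) := by
        rcases hov.adj _ _ d.adj with h | h
        · exact absurd (h ▸ hd1') hd2'
        · exact h
      obtain ⟨hy1, hy2⟩ := hat (p d.snd) hd2' ⟨p d.fst, hd1', hadj.symm⟩
      exact ⟨d.snd, hw _ (SimpleGraph.Walk.dart_snd_mem_support_of_mem_darts _ hd), hy1, hy2⟩
  refine ⟨hov, hF.con, fun z hz => hz.1, ?_, h2, hch, hbg, hv0B⟩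
  intro u hu huP
  refine h1 _ hu ?_
  rw [hbl]
  exact ⟨u, huP, rfl⟩

end Pool.Agent.FM
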