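import Pool.Agent.FM.PStm

/-!
# MP_4c8b8e_co: process block, no admissible set of guards
-/

set_option autoImplicit false

namespace Pool.Agent.FM

open Classical Pool.Agent.H41.Fire Pool.Agent.H3.FF

/-- FIRE-P3 -/
theorem sadm (h : SChg) : SAdm := by
  intro V X _ _ G v ι B1 t1 lam1 lam2 l1 a A b Cm K0 z hst hz hzl hX k
  induction k with
  | zero =>
    intro _ P hv hB hC hPz _ hsig
    obtain ⟨M, -, -, ⟨h1, -⟩, -⟩ := hst P hv hB hC (by omega)
    rw [zero_mul] at hPz
    omega
  | succ k ih =>
    intro hk P hv hB hC hPz ht hsig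
    have e1 : (k + 1) * a = k * a + a := by rw [add_mul, one_mul]
    have e2 : (k + 1) * z = k * z + z := by rw [add_mul, one_mul]
    have e3 : (k + 1) * l1 = k * l1 + l1 := by rw [add_mul, one_mul]
    rw [e1] at hsig
    rw [e2] at hPz
    simp only [e3] at ht
    obtain ⟨M, hM, hMl, ⟨h1, h2⟩, -⟩ := hst P hv hB hC (by omega)
    obtain ⟨h3, h4, -, h6⟩ := h V G v P M t1 (P.ncard - lam1) hv (by rw [hB]; exact hM)
      (by omega)
    have h7 : (tch G v P (P.ncard - lam1) ∪ M).ncard + k * l1 ≤
        (P.ncard - lam1) + K0 * l1 := by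
      have h8 := Set.ncard_union_le (tch G v P (P.ncard - lam1)) M
      have h9 := ht (P.ncard - lam1)
      omega
    have h10 : k * a ≤ K0 * a := Nat.mul_le_mul_right a (by omega)
    refine ih (by omega) (tch G v P (P.ncard - lam1) ∪ M) h3 (h4.trans hB) (by omega) (by omega)
      ?_ ?_
    · intro s
      have h8 : (tch G v (tch G v P (P.ncard - lam1) ∪ M) s).ncard ≤
          (tch G v P (min s (P.ncard - lam1)) ∪ M).ncard :=
        Set.ncard_le_ncard (h6 s) (Set.toFinite _)
      have h9 := Set.ncard_union_le (tch G v P (min s (P.ncard - lam1))) M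
      have h11 := ht (min s (P.ncard - lam1))
      have h12 : min s (P.ncard - lam1) ≤ s := Nat.min_le_left _ _
      omega
    · rcases h2 with h2 | h2 <;> omega

end Pool.Agent.FM
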