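import Pool.Agent.FM.PStm

/-!
# MP_4c8b8e_co: row FIRE-P1, touched guards together with a set `M`
-/

set_option autoImplicit false

namespace Pool.Agent.FM

open Classical Pool.Agent.H41.Fire Pool.Agent.H3.FF Pool.Agent.H13.FG CV TV

theorem schg : SChg := by
  intro V _ G v P M t1 T hv hM ht
  have hvM : v ∉ M := fun h => Set.disjoint_left.1 hM h (v_mem _)
  have hvP' : v ∉ tch G v P T ∪ M := by
    rintro (h | h)
    · exact hv h.1
    · exact hvM h
  have hA : ∀ s ≤ T, bu G v (tch G v P T ∪ M) s ⊆ bu G v P s := by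
    intro s hs
    induction s with
    | zero => exact fun w h => h
    | succ s ih =>
      rintro w (h | ⟨hw, u, hu, ha⟩)
      · exact bu_succ (ih (by omega) h)
      · have hu' := ih (by omega) hu
        refine bu_step hu' ha ?_
        intro hwP
        exact hw (Or.inl (tch_mono hs (tch_step hu' ha hwP)))
  have hB : ∀ s ≤ t1, bu G v P s ⊆ bu G v (tch G v P T ∪ M) s := by
    intro s hs
    induction s with
    | zero => exact fun w h => h
    | succ s ih =>
      rintro w (h | ⟨hw, u, hu, ha⟩)
      · exact bu_succ (ih (by omega) h)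
      · refine bu_step (ih (by omega) hu) ha ?_
        rintro (h | h)
        · exact hw h.1
        · exact Set.disjoint_left.1 hM h (bu_mono hs (Or.inr ⟨hw, u, hu, ha⟩))
  refine ⟨hvP', Set.Subset.antisymm (hA t1 ht) (hB t1 le_rfl), hA, ?_⟩
  rintro s x ⟨hxP', r, hr, u, hu, ha⟩
  by_cases hsT : s ≤ T
  · rw [min_eq_left hsT]
    by_cases hxP : x ∈ P
    · left
      exact ⟨hxP, r, hr, u, hA r (by omega) hu, ha⟩
    · right
      rcases hxP' with h | h
      · exact absurd h.1 hxP
      · exact h
  · rw [min_eq_right (by omega)]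
    exact hxP'

end Pool.Agent.FM
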