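import Pool.Agent.FM.PStm

/-!
# MP_4c8b8e_co: process block, the step lemma from the topological block and the geometry
-/

set_option autoImplicit false

open scoped BigOperators

namespace Pool.Agent.FM

open Classical Pool.Agent.H41.Fire Pool.Agent.H3.FF Pool.Agent.H13.FG CV TV

theorem p6_single {K H : ℕ} [NeZero K] (S : Finset (TV K H)) : un {S} = S := by
  unfold un
  ext f
  simp

theorem p6_filter {K H : ℕ} [NeZero K] (B : Finset (Finset (TV K H))) :
    un (B.filter Finset.Nonempty) = un B := by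
  unfold un
  ext f
  simp only [Finset.mem_biUnion, Finset.mem_filter, id]
  constructor
  · rintro ⟨S, ⟨h1, _⟩, h3⟩
    exact ⟨S, h1, h3⟩
  · rintro ⟨S, h1, h3⟩
    exact ⟨S, ⟨h1, ⟨f, h3⟩⟩, h3⟩

theorem p6_sub {K H : ℕ} [NeZero K] {B : Finset (Finset (TV K H))} {S : Finset (TV K H)}
    (h : S ∈ B) : S ⊆ un B := by
  intro f hf
  unfold un
  exact Finset.mem_biUnion.2 ⟨S, h, hf⟩

theorem p6_card {K H : ℕ} [NeZero K] (S : Finset (TV K H)) :
    (Nat.card (TV K H) : ℝ) = S.card + Sᶜ.card := by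
  rw [Nat.card_eq_fintype_card, ← Finset.card_add_card_compl S]
  push_cast
  ring

theorem scomb (hs : SSpd) : SComb := by
  intro hT hG K _ hK η c1 δ C3 hη hη4 hc1 hc1η hδ hδc hC3
  have he : 0 < c1 / 1000 := by positivity
  obtain ⟨L0, hL⟩ := hT K hK (c1 / 1000) C3 he hC3
  refine ⟨L0, fun L hL0 h3L => ?_⟩
  obtain ⟨r0, k, C4, hk, hC4, hT1⟩ := hL L hL0 h3L
  refine ⟨2 * C4 + 1, by positivity, fun e1 he1 => ?_⟩
  obtain ⟨H1, hT2⟩ := hT1 e1 he1
  obtain ⟨H2, hG2⟩ := hG K hK η c1 δ (c1 / 1000) C3 C4 k hη hη4 hc1 hc1η hδ hδc he le_rfl hC3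
    hC4 hk r0
  obtain ⟨H3, hH3⟩ := exists_nat_ge (9 / c1 ^ 2)
  refine ⟨max (max H1 H2) (max H3 1), fun H hH hLH f0 i0 x0 y0 hsec v0 P t1 hbase hv hP ht1
    ht1' hburn hsigP => ?_⟩
  have hH1 : H1 ≤ H := le_trans (le_trans (le_max_left _ _) (le_max_left _ _)) hH
  have hH2 : H2 ≤ H := le_trans (le_trans (le_max_right _ _) (le_max_left _ _)) hH
  have hH3' : H3 ≤ H := le_trans (le_trans (le_max_left _ _) (le_max_right _ _)) hH
  have hHp : 1 ≤ H := le_trans (le_trans (le_max_right _ _) (le_max_right _ _)) hH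
  have hHr : (0 : ℝ) < H := by exact_mod_cast hHp
  have hc80 : c1 ≤ 1 / 80 := by linarith
  have hH9 : 9 ≤ c1 ^ 2 * H := by
    have h1 : 9 / c1 ^ 2 ≤ (H : ℝ) := hH3.trans (by exact_mod_cast hH3')
    rw [div_le_iff₀ (by positivity)] at h1
    linarith
  have hcH : 0 < c1 * H := by positivity
  have hcH2 : 720 ≤ c1 * H := by
    have h1 : c1 * (c1 * H) ≤ 1 / 80 * (c1 * H) := mul_le_mul_of_nonneg_right hc80 hcH.le
    have h2 : c1 * (c1 * H) = c1 ^ 2 * H := by ring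
    linarith
  have hcH80 : c1 * H ≤ 1 / 80 * H := mul_le_mul_of_nonneg_right hc80 hHr.le
  have hcH1 : c1 * H ≤ H := by linarith
  have ht1H : t1 ≤ H := by
    have : (t1 : ℝ) ≤ H := ht1'.trans hcH1
    exact_mod_cast this
  have hbr : 48 * (t1 : ℝ) ^ 2 ≤
      100 * ({f : TV K H | tv f ∈ bu (G K H L) v0 P t1}.ncard : ℝ) := by
    exact_mod_cast hburn
  have hHb : H ≤ {f : TV K H | tv f ∈ bu (G K H L) v0 P t1}.ncard := by
    have h1 : c1 * H / 2 ≤ t1 := by linarith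
    have h2 : (c1 * H / 2) ^ 2 ≤ (t1 : ℝ) ^ 2 := by
      apply pow_le_pow_left₀ (by positivity) h1
    have h3 : (c1 * H / 2) ^ 2 = c1 ^ 2 * H * H / 4 := by ring
    have h4 : 9 * (H : ℝ) ≤ c1 ^ 2 * H * H := mul_le_mul_of_nonneg_right hH9 hHr.le
    have h5 : (H : ℝ) ≤ ({f : TV K H | tv f ∈ bu (G K H L) v0 P t1}.ncard : ℝ) := by
      linarith
    exact_mod_cast h5
  obtain ⟨B, Q, Z, M, hB, hQB, hQb, hQc, hZ, hsB, hMd, hMc, hN⟩ :=
    hT2 H hH1 hLH v0 P t1 hv hP ht1H hHb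
  obtain ⟨hf0, hx1, hy1, hx2, hy2⟩ := hsec
  -- the point `(un B).card` is large
  have hd : 0 < 100 / δ * (H : ℝ) ^ 2 := by positivity
  have hC4H : 0 < C4 * H := by positivity
  have hC4e : (2 * C4 + 1) * (H : ℝ) = 2 * (C4 * H) + H := by ring
  rw [hC4e] at hsigP
  rw [hC4e]
  have hu : 100 / δ * (H : ℝ) ^ 2 ≤ (un B).card := by linarith
  have hune : (un B).Nonempty := by
    rw [← Finset.card_pos]
    have : (0 : ℝ) < (un B).card := lt_of_lt_of_le hd hu
    exact_mod_cast this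
  have hpar : Par K H L := by
    refine ⟨?_, ?_, h3L, hLH, hHp⟩
    · exact Nat.le_of_dvd (Nat.pos_of_ne_zero (NeZero.ne K)) hK
    · exact Dvd.dvd.trans (by norm_num) hK
  have hQn : ∀ f ∈ Q, Nr t1 (sq i0 x0 y0) f := by
    intro f hf
    have h1 := hs K H L hpar v0 f0 P t1 hbase (tv f) (hQb f hf)
    rw [hf0] at h1
    exact h1
  have hgeo := hG2 H hH2 i0 x0 y0 hx1 hy1 (by linarith) (by linarith) B Q Z t1 hB ht1 ht1' hQn
    hQB (by linarith) hZ hu
  have hsq : 0 ≤ 18 * (c1 * H) ^ 2 := by positivity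
  -- the two ways to use the family
  have hall : ∀ lam : ℕ, (∀ S ∈ B, S.Nonempty →
      NearTo Q Z r0 k (c1 / 1000) t1 lam (un B) S) → t1 + lam ≤ P.ncard ∧
      ((un B).card : ℝ) ≤
        sig (G K H L) v0 tv (tch (G K H L) v0 P (P.ncard - lam) ∪ M) + C4 * H := by
    intro lam h
    have h1 := hN lam (B.filter Finset.Nonempty) (Finset.filter_subset _ _) ?_ ?_
    · rw [p6_filter] at h1
      exact h1
    · obtain ⟨f, hf⟩ := hune
      unfold un at hf
      obtain ⟨S, hS, hfS⟩ := Finset.mem_biUnion.1 hf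
      exact ⟨S, Finset.mem_filter.2 ⟨hS, ⟨f, hfS⟩⟩⟩
    · intro S hS
      rw [Finset.mem_filter] at hS
      exact h S hS.1 hS.2
  have hone : ∀ (lam : ℕ) (S : Finset (TV K H)), S ∈ B →
      NearTo Q Z r0 k (c1 / 1000) t1 lam (un B) S → t1 + lam ≤ P.ncard ∧
      (S.card : ℝ) ≤
        sig (G K H L) v0 tv (tch (G K H L) v0 P (P.ncard - lam) ∪ M) + C4 * H := by
    intro lam S hS h
    have h1 := hN lam {S} (Finset.singleton_subset_iff.2 hS) (Finset.singleton_nonempty S) ?_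
    · rw [p6_single] at h1
      exact h1
    · intro S' hS'
      rw [Finset.mem_singleton] at hS'
      rw [hS']
      exact h
  refine ⟨M, hMd, hMc, ?_, ?_⟩
  · intro lam hlam
    have hlam0 : (0 : ℝ) ≤ lam := Nat.cast_nonneg lam
    rcases hgeo lam hlam0 (by linarith) with h | ⟨S, hS, h1, h2⟩ | ⟨S, hS, h1, h2, h3⟩
    · obtain ⟨h1, h2⟩ := hall lam h
      refine ⟨h1, Or.inl ?_⟩
      linarith
    · obtain ⟨h3, h4⟩ := hone lam S hS (h2 hlam)
      refine ⟨h3, Or.inr ?_⟩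
      rw [p6_card S]
      have h5 : 200 / δ * (H : ℝ) ^ 2 = 2 * (100 / δ * (H : ℝ) ^ 2) := by ring
      linarith
    · obtain ⟨h4, h5⟩ := hone lam S hS h1
      refine ⟨h4, Or.inl ?_⟩
      have h6 : (t1 : ℝ) + lam + (2 * (c1 / 1000) + 4 * δ) * H ≤ 1.02 * (c1 * H) := by
        have h7 : δ * H ≤ c1 / 1000 * H := mul_le_mul_of_nonneg_right hδc hHr.le
        have h8 : (2 * (c1 / 1000) + 4 * δ) * H = 2 / 1000 * (c1 * H) + 4 * (δ * H) := by ring
        have h9 : c1 / 1000 * H = 1 / 1000 * (c1 * H) := by ring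
        rw [h9] at h7
        rw [h8]
        linarith
      have h7 : (0 : ℝ) ≤ (t1 : ℝ) + lam + (2 * (c1 / 1000) + 4 * δ) * H := by positivity
      have h8 : (1.02 : ℝ) * (c1 * H) ≤ H / 16 := by linarith
      have h9 := h3 (h6.trans h8)
      have h10 : ((t1 : ℝ) + lam + (2 * (c1 / 1000) + 4 * δ) * H) ^ 2 ≤
          (1.02 * (c1 * H)) ^ 2 := pow_le_pow_left₀ h7 h6 2
      have h11 : (1.02 * (c1 * H)) ^ 2 = 1.0404 * (c1 * (H : ℝ)) ^ 2 := by ring
      rw [h11] at h10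
      linarith
  · intro lam lam' hlam hlam'
    have hlam0 : (0 : ℝ) ≤ lam := Nat.cast_nonneg lam
    have hlam0' : (0 : ℝ) ≤ lam' := Nat.cast_nonneg lam'
    have h200 : 200 / δ * (H : ℝ) ^ 2 = 2 * (100 / δ * (H : ℝ) ^ 2) := by ring
    rcases hgeo lam hlam0 hlam with h | ⟨S, hS, h1, h2⟩ | ⟨S, hS, h1, h2, h3⟩
    · obtain ⟨h1, h2⟩ := hall lam h
      refine Or.inl ⟨h1, ?_⟩
      linarith
    · right
      rcases hgeo lam' hlam0' (by linarith) with h | ⟨S', hS', h1', h2'⟩ |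
        ⟨S', hS', h1', h2', h3'⟩
      · by_cases hne : S.Nonempty
        · obtain ⟨_, h4⟩ := hone lam' S hS (h S hS hne)
          rw [p6_card S]
          linarith
        · rw [Finset.not_nonempty_iff_eq_empty] at hne
          rw [p6_card S]
          have h4 : (S.card : ℝ) = 0 := by rw [hne]; simp
          have h5 : (0 : ℝ) ≤
            sig (G K H L) v0 tv (tch (G K H L) v0 P (P.ncard - lam') ∪ M) :=
            Nat.cast_nonneg _
          linarith
      · obtain ⟨_, h4⟩ := hone lam' S' hS' (h2' hlam')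
        rw [p6_card S']
        linarith
      · obtain ⟨_, h4⟩ := hone lam' S' hS' h1'
        have h5 : (S.card : ℝ) ≤ (un B).card := by
          exact_mod_cast Finset.card_le_card (p6_sub hS)
        rw [p6_card S]
        linarith
    · obtain ⟨h4, h5⟩ := hone lam S hS h1
      refine Or.inl ⟨h4, ?_⟩
      linarith

end Pool.Agent.FM
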