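import Pool.Agent.FM.PStm
import Pool.Agent.H3.FF.Fib

/-!
# MP_4c8b8e_co: FIRE-P8, the number of burnt vertices

A vertex that burns and has no guard over the same lattice point burns together with its lattice
point. So all burnt vertices lie over the burnt lattice points and the lattice points of the
guards, and a fibre has at most `13` vertices.
-/

set_option autoImplicit false

open scoped BigOperators

namespace Pool.Agent.FM

open Classical Pool.Agent.H41.Fire Pool.Agent.H3.FF Pool.Agent.H13.FG CV TV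

section

variable {K H L : ℕ} [NeZero K]

/-- the lattice point of a half hexagon burns with the half hexagon -/
theorem fib_tz {v0 : GV K H L} {P : Set (GV K H L)} {τ : Tz K H L} {t : ℕ}
    (hw : (Sum.inl (Sum.inr τ) : GV K H L) ∈ bu (G K H L) v0 P t)
    (hP : ∀ p ∈ P, bp p ≠ τ.f) : ∃ s, tv τ.f ∈ bu (G K H L) v0 P s := by
  have hr : Rim (Sum.inr τ : DV K H L) τ.f := ⟨τ.2.1, Or.inl rfl, Or.inl rfl⟩
  have h1 : (Sum.inr ⟨(Sum.inr τ, τ.f), hr⟩ : GV K H L) ∈ bu (G K H L) v0 P (t + 1) := by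
    refine bu_step hw ?_ fun h => hP _ h rfl
    exact Or.inl rfl
  refine ⟨t + 1 + 1, bu_step h1 ?_ fun h => hP _ h rfl⟩
  exact Or.inr rfl

/-- the lattice point of a vertex burns with the vertex -/
theorem fib_base {v0 : GV K H L} {P : Set (GV K H L)} {w : GV K H L} {t : ℕ}
    (hw : w ∈ bu (G K H L) v0 P t) (hP : ∀ p ∈ P, bp p ≠ bp w) :
    ∃ s, tv (bp w) ∈ bu (G K H L) v0 P s := by
  rcases w with (f | τ) | e
  · exact ⟨t, hw⟩
  · exact fib_tz hw hP
  · obtain ⟨⟨x, g⟩, hr⟩ := e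
    rcases x with x | τ
    · refine ⟨t + 1, bu_step hw ?_ fun h => hP _ h rfl⟩
      exact Or.inl rfl
    · have h1 : (Sum.inl (Sum.inr τ) : GV K H L) ∈ bu (G K H L) v0 P (t + 1) := by
        refine bu_step hw ?_ fun h => hP _ h rfl
        exact Or.inl rfl
      exact fib_tz h1 hP

end

/-- FIRE-P8 -/
theorem sfib : SFib := by
  intro K H L _ g v0 P _
  have h1 := card_over (L := L) g
    ({f | ∃ t, tv f ∈ bu (G K H L) v0 P t} ∪ (bp : GV K H L → TV K H) '' P)
  have h2 : {x | ∃ t, x ∈ bu (G K H L) v0 P t} ⊆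
      {w : GV K H L | bp w ∈ {f | ∃ t, tv f ∈ bu (G K H L) v0 P t} ∪
        (bp : GV K H L → TV K H) '' P} := by
    rintro w ⟨t, hw⟩
    by_cases hP : ∀ p ∈ P, bp p ≠ bp w
    · exact Or.inl (fib_base hw hP)
    · push Not at hP
      obtain ⟨p, hp, he⟩ := hP
      exact Or.inr ⟨p, hp, he⟩
  have h3 := Set.ncard_le_ncard h2 (Set.toFinite _)
  have h4 := Set.ncard_union_le {f : TV K H | ∃ t, tv f ∈ bu (G K H L) v0 P t}
    ((bp : GV K H L → TV K H) '' P)
  have h5 : ((bp : GV K H L → TV K H) '' P).ncard ≤ P.ncard := Set.ncard_image_le (Set.toFinite _)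
  have h6 := Set.ncard_add_ncard_compl {f : TV K H | ∃ t, tv f ∈ bu (G K H L) v0 P t}
    (Set.toFinite _) (Set.toFinite _)
  have h7 : {f : TV K H | ∃ t, tv f ∈ bu (G K H L) v0 P t}ᶜ =
      {f : TV K H | ∀ t, tv f ∉ bu (G K H L) v0 P t} := by
    ext f
    simp
  rw [h7] at h6
  have h8 : sig (G K H L) v0 tv P = {f : TV K H | ∀ t, tv f ∉ bu (G K H L) v0 P t}.ncard := rfl
  rw [h8]
  omega

end Pool.Agent.FM
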