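import Pool.Agent.FM.PStm

/-!
# MP_4c8b8e_co: the fire is stopped by the touched guards and the front
-/

set_option autoImplicit false

namespace Pool.Agent.FM

open Classical Pool.Agent.H41.Fire Pool.Agent.H3.FF

/-- FIRE-P2 -/
theorem sfrt : SFrt := by
  intro V _ G v P t hv ht
  obtain ⟨t, rfl⟩ : ∃ t', t = t' + 1 := ⟨t - 1, by omega⟩
  have hfr : ∀ w, w ∈ fr G v P (t + 1) ↔ w ∈ bu G v P (t + 1) ∧ w ∉ bu G v P t := fun w => Iff.rfl
  have hP0 : ∀ w, w ∈ P0 G v P (t + 1) ↔ w ∈ tch G v P (t + 1) ∨ w ∈ fr G v P (t + 1) :=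
    fun w => Iff.rfl
  have h2 : ∀ s, bu G v (P0 G v P (t + 1)) s = bu G v P (min s (t + 1 - 1)) := by
    intro s
    rw [Nat.add_sub_cancel]
    induction s with
    | zero =>
      rw [Nat.zero_min]
      rfl
    | succ s ih =>
      rcases Nat.lt_or_ge s t with hst | hst
      · rw [min_eq_left hst.le] at ih
        rw [min_eq_left (Nat.succ_le_of_lt hst)]
        ext w
        constructor
        · rintro (h | ⟨hw, u, hu, ha⟩)
          · rw [ih] at h
            exact bu_succ h
          · rw [ih] at hu
            refine bu_step hu ha fun hwP => hw ((hP0 w).2 (Or.inl ?_))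
            exact tch_mono (by omega) (tch_step hu ha hwP)
        · rintro (h | ⟨hw, u, hu, ha⟩)
          · rw [← ih] at h
            exact bu_succ h
          · have h3 : w ∈ bu G v P t := bu_mono hst (bu_step hu ha hw)
            rw [← ih] at hu
            refine bu_step hu ha fun hwP => ?_
            rcases (hP0 w).1 hwP with h4 | h4
            · exact hw h4.1
            · exact ((hfr w).1 h4).2 h3
      · rw [min_eq_right hst] at ih
        rw [min_eq_right (by omega)]
        ext w
        constructor
        · rintro (h | ⟨hw, u, hu, ha⟩)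
          · rw [ih] at h
            exact h
          · rw [ih] at hu
            by_contra hwt
            apply hw
            by_cases hwP : w ∈ P
            · exact (hP0 w).2 (Or.inl (tch_step hu ha hwP))
            · exact (hP0 w).2 (Or.inr ((hfr w).2 ⟨bu_step hu ha hwP, hwt⟩))
        · intro h
          rw [← ih] at h
          exact bu_succ h
  have h2' : ∀ s, s ≤ t → bu G v (P0 G v P (t + 1)) s = bu G v P s := by
    intro s hs
    rw [h2 s, Nat.add_sub_cancel, min_eq_left hs]
  refine ⟨fun h => ?_, h2, fun s hs x hx => ?_, ?_⟩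
  · rcases (hP0 v).1 h with h | h
    · exact hv h.1
    · exact ((hfr v).1 h).2 (v_mem t)
  · obtain ⟨hx0, r, hr, u, hu, ha⟩ := hx
    rw [h2' r (by omega)] at hu
    rcases (hP0 x).1 hx0 with h | h
    · exact ⟨h.1, r, hr, u, hu, ha⟩
    · obtain ⟨h3, h4⟩ := (hfr x).1 h
      exact absurd (bu_mono (by omega) (bu_step hu ha (bu_not_mem hv h3))) h4
  · ext x
    constructor
    · exact fun h => h.1
    · intro hx
      rcases (hP0 x).1 hx with h | h
      · obtain ⟨-, r, hr, u, hu, ha⟩ := h
        rw [← h2' r (by omega)] at hu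
        exact ⟨hx, r, hr, u, hu, ha⟩
      · obtain ⟨h3, h4⟩ := (hfr x).1 h
        rcases h3 with h3 | ⟨-, u, hu, ha⟩
        · exact absurd h3 h4
        · rw [← h2' t le_rfl] at hu
          exact ⟨hx, t, Nat.lt_succ_self t, u, hu, ha⟩

end Pool.Agent.FM
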