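import Pool.Agent.FM.PStm

/-!
# MP_4c8b8e_co: the first step
-/

set_option autoImplicit false

namespace Pool.Agent.FM

open Pool.Agent.H3.FF

theorem sfst (h : SChg) (ha : SAdm) : SFst := by
  intro V X _ _ G v ι B1 t1 lam1 lam2 l1 a A b Cm K0 z hst hz hzl hX hK0 hCm P M lam hv hB1 hP
    hM hMl hlam hl hsl hsig
  obtain ⟨h1, h2, h3, h4⟩ := h V G v P M t1 (P.ncard - lam) hv (by rw [hB1]; exact hM) (by omega)
  have hcu : (tch G v P (P.ncard - lam) ∪ M).ncard ≤
      (tch G v P (P.ncard - lam)).ncard + M.ncard := Set.ncard_union_le _ _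
  have hT := hsl (P.ncard - lam) le_rfl
  have hc : (tch G v P (P.ncard - lam) ∪ M).ncard ≤ Cm := by omega
  refine ha V X G v ι B1 t1 lam1 lam2 l1 a A b Cm K0 z hst hz hzl hX (K0 - 2) (by omega)
    (tch G v P (P.ncard - lam) ∪ M) h1 (h2.trans hB1) hc (hc.trans hCm) ?_ ?_
  · intro s
    have h5 : (tch G v (tch G v P (P.ncard - lam) ∪ M) s).ncard ≤
        (tch G v P (min s (P.ncard - lam))).ncard + M.ncard :=
      (Set.ncard_le_ncard (h4 s) (Set.toFinite _)).trans (Set.ncard_union_le _ _)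
    have h6 := hsl (min s (P.ncard - lam)) (min_le_right _ _)
    have h7 : min s (P.ncard - lam) ≤ s := min_le_left _ _
    have h8 : (K0 - 2) * l1 + 2 * l1 = K0 * l1 := by
      rw [← Nat.add_mul]
      congr 1
      omega
    omega
  · have h9 : (K0 - 2) * a ≤ K0 * a := Nat.mul_le_mul_right _ (by omega)
    omega

end Pool.Agent.FM
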