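import Pool.Agent.FM.PFin

/-!
# MP_4c8b8e_co: process block, FIRE-P10: points far from the coarse edges, number of points
-/

set_option autoImplicit false

open scoped BigOperators

namespace Pool.Agent.FM

open Classical Pool.Agent.H41.Fire Pool.Agent.H3.FF Pool.Agent.H13.FG CV TV

section

variable {K H : ℕ} [NeZero K]

private theorem p10_ne (hK : 4 ≤ K) (i : ZMod K) : i ≠ i + 1 := by
  haveI : Fact (1 < K) := ⟨by omega⟩
  intro h
  exact one_ne_zero (left_eq_add.1 h)

private theorem p10_sum (hK : 4 ≤ K) (f : CV K → ℕ) (i : ZMod K)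
    (hf : ∀ j, j ≠ i ∧ j ≠ i + 1 → f (A j) = 0) :
    ∑ c, f c = f CV.N + f CV.S + (f (A i) + f (A (i + 1))) := by
  rw [sum_cv, Fintype.sum_eq_add i (i + 1) (p10_ne hK i) hf]

private theorem p10_key (hK : 4 ≤ K) (f : TV K H) : ∃ b i, Sp b i f.1 ∧
    ((b = true ∧ f = sq i (f.1 (A i)) (f.1 (A (i + 1))) ∧
      f.1 CV.N + f.1 (A i) + f.1 (A (i + 1)) = H) ∨
    (b = false ∧ f = sq i (H - f.1 (A (i + 1))) (H - f.1 (A i)) ∧
      f.1 CV.S + f.1 (A i) + f.1 (A (i + 1)) = H)) := by
  obtain ⟨hs, b, i, hb⟩ := f.2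
  have hne := p10_ne hK i
  have hz : ∀ j, j ≠ i ∧ j ≠ i + 1 → f.1 (A j) = 0 := by
    rintro j ⟨h1, h2⟩
    apply hb
    rintro (h | h | h)
    · cases b <;> simp [CV.P] at h
    · exact h1 (CV.A.inj h)
    · exact h2 (CV.A.inj h)
  rw [p10_sum hK f.1 i hz] at hs
  refine ⟨b, i, hb, ?_⟩
  cases b with
  | true =>
    have hS : f.1 CV.S = 0 := by
      apply hb
      rintro (h | h | h)
      · simp [CV.P] at h
      · cases h
      · cases h
    refine Or.inl ⟨rfl, ?_, by omega⟩
    apply Subtype.ext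
    funext c
    show f.1 c = sqf H i (min (f.1 (A i)) H) (min (f.1 (A (i + 1))) H) c
    cases c with
    | N => simp only [sqf]; omega
    | S => simp only [sqf]; omega
    | A j =>
      simp only [sqf]
      by_cases h1 : j = i
      · subst h1
        rw [if_pos rfl, if_neg hne]
        omega
      · by_cases h2 : j = i + 1
        · subst h2
          rw [if_pos rfl, if_neg h1]
          omega
        · rw [if_neg h1, if_neg h2, hz j ⟨h1, h2⟩]
  | false =>
    have hN : f.1 CV.N = 0 := by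
      apply hb
      rintro (h | h | h)
      · simp [CV.P] at h
      · cases h
      · cases h
    refine Or.inr ⟨rfl, ?_, by omega⟩
    apply Subtype.ext
    funext c
    show f.1 c = sqf H i (min (H - f.1 (A (i + 1))) H) (min (H - f.1 (A i)) H) c
    cases c with
    | N => simp only [sqf]; omega
    | S => simp only [sqf]; omega
    | A j =>
      simp only [sqf]
      by_cases h1 : j = i
      · subst h1
        rw [if_pos rfl, if_neg hne]
        omega
      · by_cases h2 : j = i + 1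
        · subst h2
          rw [if_pos rfl, if_neg h1]
          omega
        · rw [if_neg h1, if_neg h2, hz j ⟨h1, h2⟩]

end

/-- FIRE-P10. Points far from the coarse edges are inside a square sector; number of points. -/
theorem sins : SIns := by
  intro K H _ hK
  constructor
  · intro f h hh hf
    obtain ⟨b, i, hb, hc⟩ := p10_key hK f
    have e1 : h ≤ (f.1 (CV.P b) : ℝ) := hf b i hb _ (Or.inl rfl)
    have e2 : h ≤ (f.1 (A i) : ℝ) := hf b i hb _ (Or.inr (Or.inl rfl))
    have e3 : h ≤ (f.1 (A (i + 1)) : ℝ) := hf b i hb _ (Or.inr (Or.inr rfl))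
    rcases hc with ⟨rfl, h1, h2⟩ | ⟨rfl, h1, h2⟩
    · have e1' : h ≤ (f.1 CV.N : ℝ) := e1
      have h3 : (f.1 CV.N : ℝ) + f.1 (A i) + f.1 (A (i + 1)) = H := by exact_mod_cast h2
      exact ⟨i, _, _, h1, e2, e3, by linarith, by linarith⟩
    · have e1' : h ≤ (f.1 CV.S : ℝ) := e1
      have h3 : (f.1 CV.S : ℝ) + f.1 (A i) + f.1 (A (i + 1)) = H := by exact_mod_cast h2
      have h4 : ((H - f.1 (A (i + 1)) : ℕ) : ℝ) = H - f.1 (A (i + 1)) :=
        Nat.cast_sub (by omega)
      have h5 : ((H - f.1 (A i) : ℕ) : ℝ) = H - f.1 (A i) :=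
        Nat.cast_sub (by omega)
      refine ⟨i, _, _, h1, ?_, ?_, ?_, ?_⟩
      · rw [h4]; linarith
      · rw [h5]; linarith
      · rw [h4]; linarith
      · rw [h5]; linarith
  · have hsur : Function.Surjective (fun q : ZMod K × Fin (H + 1) × Fin (H + 1) =>
        (sq q.1 q.2.1 q.2.2 : TV K H)) := by
      intro f
      obtain ⟨b, i, hb, hc⟩ := p10_key hK f
      rcases hc with ⟨rfl, h1, h2⟩ | ⟨rfl, h1, h2⟩
      · exact ⟨(i, ⟨f.1 (A i), by omega⟩, ⟨f.1 (A (i + 1)), by omega⟩), h1.symm⟩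
      · exact ⟨(i, ⟨H - f.1 (A (i + 1)), by omega⟩, ⟨H - f.1 (A i), by omega⟩), h1.symm⟩
    have h := Nat.card_le_card_of_surjective _ hsur
    rw [Nat.card_prod, Nat.card_prod, Nat.card_zmod, Nat.card_fin] at h
    rw [pow_two]
    exact h

end Pool.Agent.FM
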