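import Pool.Agent.FM.PStm

/-!
# MP_4c8b8e_co: from the step lemma to the time bound
-/

set_option autoImplicit false

open scoped BigOperators

namespace Pool.Agent.FM

open Classical Pool.Agent.H41.Fire Pool.Agent.H3.FF Pool.Agent.H13.FG CV TV

private lemma pp_ub {V X : Type} [Finite X] (G : SimpleGraph V) (v : V) (ι : X → V) (P : Set V)
    {s t : ℕ} (h : s ≤ t) : ub G v ι P t ≤ ub G v ι P s := by
  unfold ub
  apply Set.ncard_le_ncard _ (Set.toFinite _)
  intro x hx hx'
  exact hx (bu_mono h hx')

private lemma pp_sig_ub {V X : Type} [Finite X] (G : SimpleGraph V) (v : V) (ι : X → V)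
    (P : Set V) (t : ℕ) : sig G v ι P ≤ ub G v ι P t := by
  unfold ub sig
  apply Set.ncard_le_ncard _ (Set.toFinite _)
  intro x hx
  exact hx t

private lemma pp_sig {V X : Type} (G : SimpleGraph V) (v : V) (ι : X → V) (P Q : Set V)
    (t : ℕ) (h : ∀ s, bu G v Q s = bu G v P (min s t)) : sig G v ι Q = ub G v ι P t := by
  unfold ub sig
  congr 1
  ext x
  simp only [Set.mem_setOf_eq]
  constructor
  · intro hx
    have h1 := hx t
    rw [h, min_self] at h1
    exact h1
  · intro hx s hs
    rw [h] at hs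
    exact hx (bu_mono (min_le_right _ _) hs)

private lemma pp_sum {V : Type} [Finite V] (G : SimpleGraph V) (v : V) (P : Set V) (a c : ℕ)
    (ha : 1 ≤ a) (n : ℕ) (h : ∀ s, a ≤ s → s < a + n → c ≤ (fr G v P s).ncard) :
    n * c ≤ (bu G v P (a + n - 1)).ncard := by
  induction n with
  | zero => simp
  | succ n ih =>
    have h1 := ih (fun s hs hs' => h s hs (by omega))
    have h2 := h (a + n) (by omega) (by omega)
    have h3 : (fr G v P (a + n)).ncard + (bu G v P (a + n - 1)).ncard =
        (bu G v P (a + n)).ncard := by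
      unfold fr
      exact Set.ncard_diff_add_ncard_of_subset (bu_mono (by omega)) (Set.toFinite _)
    have h4 : a + (n + 1) - 1 = a + n := by omega
    rw [h4, ← h3, add_mul, one_mul]
    omega

/-- FIRE-P5: from the step lemma to the time bound -/
theorem sproc (h1 : SChg) (h2 : SFrt) (h4 : SFst) : SProc := by
  intro V X _ _ G v ι U t1 lam1 lam2 l1 a A b Cm K0 z Cg th C7 T hU hN hCg hz hzl hK0 hCm h12
    hbX hbth ht1 hC7 hC7T hV hTC
  by_contra hth
  have hth' : th ≤ ub G v ι U T := not_lt.1 hth
  have hKl : 2 * l1 ≤ K0 * l1 := Nat.mul_le_mul_right _ hK0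
  have hKa : (K0 + 2) * a = K0 * a + 2 * a := by ring
  rw [hKa] at hbX hbth
  -- the first step for `P`
  have key : ∀ (P M : Set V) (lam : ℕ), v ∉ P → bu G v P t1 = bu G v U t1 → P.ncard ≤ Cm →
      Disjoint M (bu G v U t1) → M.ncard ≤ l1 → t1 + lam ≤ P.ncard → lam1 ≤ lam →
      (∀ s ≤ P.ncard - lam, (tch G v P s).ncard ≤ s + l1) →
      b + K0 * a ≤ sig G v ι (tch G v P (P.ncard - lam) ∪ M) → False := by
    intro P M lam g1 g2 g3 g4 g5 g6 g7 g8 g9
    exact h4 V X G v ι (bu G v U t1) t1 lam1 lam2 l1 a A b Cm K0 z hN hz hzl (by omega) hK0 hCm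
      P M lam g1 g2 g3 g4 g5 g6 (by omega) g8 g9
  have claim : ∀ t, C7 ≤ t → t ≤ T → lam2 ≤ (fr G v U t).ncard := by
    intro t hCt htT
    by_contra hfr
    rw [not_le] at hfr
    obtain ⟨q1, q2, q3, q4⟩ := h2 V G v U t hU.st (by omega)
    have qc : (P0 G v U t).ncard ≤ t + (fr G v U t).ncard := by
      unfold P0
      refine (Set.ncard_union_le _ _).trans ?_
      exact Nat.add_le_add_right (hU.cnt t) _
    have qs : sig G v ι (P0 G v U t) = ub G v ι U (t - 1) := pp_sig G v ι U _ (t - 1) q2
    have qu : th ≤ sig G v ι (P0 G v U t) := by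
      rw [qs]
      exact hth'.trans (pp_ub G v ι U (by omega))
    generalize hQ : P0 G v U t = Q at q1 q2 q3 q4 qc qs qu
    have qb : bu G v Q t1 = bu G v U t1 := by
      rw [q2, min_eq_left (by omega)]
    have qt : ∀ s, s < t → (tch G v Q s).ncard ≤ s := fun s hs =>
      (Set.ncard_le_ncard (q3 s hs) (Set.toFinite _)).trans (hU.cnt s)
    obtain ⟨M, m1, m2, ⟨m3, m4⟩, m5⟩ := hN Q q1 qb (by omega) (by omega)
    rcases m5 with ⟨m5, m6⟩ | m6
    · refine key Q M lam2 q1 qb (by omega) m1 m2 m5 h12 ?_ (by omega)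
      intro s hs
      exact (qt s (by omega)).trans (by omega)
    · rcases lt_or_ge (Q.ncard - lam1) t with hlt | hge
      · refine key Q M lam1 q1 qb (by omega) m1 m2 m3 le_rfl ?_ (by omega)
        intro s hs
        exact (qt s (by omega)).trans (by omega)
      · obtain ⟨c1, c2, c3, c4⟩ := h1 V G v Q M t1 (Q.ncard - lam1) q1 (by rw [qb]; exact m1)
          (by omega)
        have hQs : tch G v Q (Q.ncard - lam1) ⊆ Q := fun w hw => hw.1
        have hPc : (tch G v Q (Q.ncard - lam1) ∪ M).ncard ≤ Q.ncard + l1 := by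
          refine (Set.ncard_union_le _ _).trans ?_
          exact Nat.add_le_add (Set.ncard_le_ncard hQs (Set.toFinite _)) m2
        have hPt : ∀ s, s < t → (tch G v (tch G v Q (Q.ncard - lam1) ∪ M) s).ncard ≤ s + l1 := by
          intro s hs
          refine (Set.ncard_le_ncard (c4 s) (Set.toFinite _)).trans ?_
          refine (Set.ncard_union_le _ _).trans ?_
          rw [min_eq_left (by omega)]
          exact Nat.add_le_add (qt s hs) m2
        generalize hR : tch G v Q (Q.ncard - lam1) ∪ M = R at c1 c2 c3 c4 hPc hPt m6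
        have hbR : bu G v R t1 = bu G v U t1 := c2.trans qb
        have hg := hCg R c1
        have hg2 : {x | ∃ t, x ∈ bu G v R t}.ncard ≤ Cg * (A + Cm) := by
          have e1 : Cg * (Nat.card X + R.ncard) ≤ Cg * (A + Cm) + Cg * sig G v ι R := by
            rw [← mul_add]
            apply Nat.mul_le_mul_left
            omega
          omega
        have hex : ∃ s, t1 + 2 ≤ s ∧ s < C7 ∧ (fr G v R s).ncard < lam1 - l1 := by
          by_contra hno
          push Not at hno
          have e2 := pp_sum G v R (t1 + 2) (lam1 - l1) (by omega) (C7 - (t1 + 2))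
            (fun s hs hs' => hno s hs (by omega))
          have e3 : (bu G v R (t1 + 2 + (C7 - (t1 + 2)) - 1)).ncard ≤
              {x | ∃ t, x ∈ bu G v R t}.ncard :=
            Set.ncard_le_ncard (fun x hx => ⟨_, hx⟩) (Set.toFinite _)
          omega
        obtain ⟨s, hs1, hs2, hs3⟩ := hex
        obtain ⟨r1, r2, r3, r4⟩ := h2 V G v R s c1 (by omega)
        have rc : (P0 G v R s).ncard ≤ s + l1 + (fr G v R s).ncard := by
          unfold P0
          refine (Set.ncard_union_le _ _).trans ?_
          exact Nat.add_le_add_right (hPt s (by omega)) _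
        have rs : sig G v ι (P0 G v R s) = ub G v ι R (s - 1) := pp_sig G v ι R _ (s - 1) r2
        have rs2 := pp_sig_ub G v ι R (s - 1)
        generalize hS : P0 G v R s = S at r1 r2 r3 r4 rc rs
        have rb : bu G v S t1 = bu G v U t1 := by
          rw [r2, min_eq_left (by omega), hbR]
        have rt : ∀ r, r < s → (tch G v S r).ncard ≤ r + l1 := fun r hr =>
          (Set.ncard_le_ncard (r3 r hr) (Set.toFinite _)).trans (hPt r (by omega))
        obtain ⟨M2, n1, n2, ⟨n3, n4⟩, -⟩ := hN S r1 rb (by omega) (by omega)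
        refine key S M2 lam1 r1 rb (by omega) n1 n2 n3 le_rfl ?_ ?_
        · intro r hr
          exact rt r (by omega)
        · rcases n4 with n4 | n4 <;> omega
  have e5 := pp_sum G v U C7 lam2 (by omega) (T - C7) (fun s hs hs' => claim s hs (by omega))
  have e6 : (bu G v U (C7 + (T - C7) - 1)).ncard ≤ Nat.card V := Set.ncard_le_card _
  omega

end Pool.Agent.FM
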