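import Pool.Agent.FM.PStm

/-!
# MP_4c8b8e_co: process block, FIRE-P7: the speed of the fire
-/

set_option autoImplicit false

namespace Pool.Agent.FM

open Classical Pool.Agent.H41.Fire Pool.Agent.H3.FF Pool.Agent.H13.FG CV TV

private theorem spd_symm {K H : ℕ} [NeZero K] {f g : TV K H} (h : AdE f g) : AdE g f := by
  rcases h with h | h
  · exact Or.inl h.symm
  · exact Or.inr h.symm

private theorem spd_spoke {K H L : ℕ} [NeZero K] (e : Spk K H L) {y : GV K H L}
    (h : (G K H L).Adj (Sum.inr e) y) : AdE (pr (Sum.inr e : GV K H L)) (pr y) := by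
  rcases y with y | e'
  · rcases spoke_nbr e h with h | h
    · injection h with h
      rw [h]
      exact Or.inl rfl
    · injection h with h
      rw [h]
      rcases hp_rim e.2 with h1 | h1
      · exact Or.inl h1.symm
      · exact Or.inr h1
  · exact absurd h (fun h => h)

private theorem spd_adj {K H L : ℕ} [NeZero K] {x y : GV K H L} (h : (G K H L).Adj x y) :
    AdE (pr x) (pr y) := by
  rcases x with x | e
  · rcases y with y | e'
    · obtain ⟨f, f', rfl, rfl, s⟩ := adj_inl h
      exact Or.inr s.ad
    · exact spd_symm (spd_spoke e' h.symm)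
  · exact spd_spoke e h

private theorem spd_ext {K H : ℕ} [NeZero K] {n : ℕ} {f g g' : TV K H} (h : Nr n f g)
    (hg : AdE g g') : Nr (n + 1) f g' := by
  obtain ⟨w, h1, h2, h3⟩ := h
  refine ⟨fun i => if i ≤ n then w i else g', fun i hi => ?_, ?_, ?_⟩
  · dsimp only
    rw [if_pos (by omega : i ≤ n)]
    by_cases hi' : i + 1 ≤ n
    · rw [if_pos hi']
      exact h1 i (by omega)
    · rw [if_neg hi', show i = n by omega, h3]
      exact hg
  · dsimp only
    rw [if_pos (Nat.zero_le n)]
    exact h2
  · dsimp only
    rw [if_neg (by omega)]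

/-- the fire moves by at most one lattice step per time step -/
theorem sspd : SSpd := by
  intro K H L _ _ v0 f0 P t hB
  have h0 : pr v0 = f0 := by
    rcases hB with ⟨x, hx, h⟩ | ⟨e, he, h⟩
    · rw [hx]
      exact h
    · rw [he]
      exact h
  induction t with
  | zero =>
    intro x hx
    have h1 : x = v0 := hx
    rw [h1, h0]
    exact ⟨fun _ => f0, fun i hi => absurd hi (Nat.not_lt_zero i), rfl, rfl⟩
  | succ t ih =>
    rintro x (hx | ⟨-, u, hu, ha⟩)
    · exact spd_ext (ih x hx) (Or.inl rfl)
    · exact spd_ext (ih u hu) (spd_adj ha)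

end Pool.Agent.FM
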