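import Pool.Agent.FM.PFin

/-!
# MP_4c8b8e_co: row FIRE-P9, vertices that never burn, from the lattice points that do not burn
-/

set_option autoImplicit false

open scoped BigOperators

namespace Pool.Agent.FM

open Classical Pool.Agent.H41.Fire Pool.Agent.H3.FF Pool.Agent.H13.FG CV TV

section

variable {K H L : ℕ} [NeZero K]

/-- one step over the same point -/
theorem unb_step {v0 : GV K H L} {U : Set (GV K H L)} {t : ℕ} {u w : GV K H L}
    (hu : u ∈ bu (G K H L) v0 U t) (ha : (G K H L).Adj u w) :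
    w ∈ bu (G K H L) v0 U (t + 1) ∨ w ∈ tch (G K H L) v0 U (t + 1) := by
  by_cases hw : w ∈ U
  · exact Or.inr (tch_step hu ha hw)
  · exact Or.inl (bu_step hu ha hw)

/-- from the point of a spoke to the spoke -/
theorem unb_spoke2 (e : Spk K H L) : (G K H L).Adj (tv e.1.2) (Sum.inr e) :=
  Or.inr rfl

/-- from a spoke to its centre -/
theorem unb_spoke3 (e : Spk K H L) : (G K H L).Adj (Sum.inr e) (Sum.inl e.1.1) :=
  Or.inl rfl

/-- from the centre to a spoke -/
theorem unb_spoke (e : Spk K H L) : (G K H L).Adj (Sum.inl e.1.1) (Sum.inr e) :=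
  (unb_spoke3 e).symm

/-- the centre of a face over a burnt point burns or a guard over the point is touched -/
theorem unb_centre {v0 : GV K H L} {U : Set (GV K H L)} {T : ℕ} (x : DV K H L)
    (h : tv (hp x) ∈ bu (G K H L) v0 U T) :
    Sum.inl x ∈ bu (G K H L) v0 U (T + 2) ∨
      ∃ u, bp u = hp x ∧ u ∈ tch (G K H L) v0 U (T + 2) := by
  rcases x with f | τ
  · exact Or.inl (bu_mono (by omega) h)
  · have hR : Rim (Sum.inr τ : DV K H L) τ.f := by
      refine ⟨τ.2.1, Or.inl rfl, Or.inl rfl⟩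
    let e : Spk K H L := ⟨(Sum.inr τ, τ.f), hR⟩
    have h1 : (G K H L).Adj (tv τ.f) (Sum.inr e) := unb_spoke2 e
    have h2 : (G K H L).Adj (Sum.inr e) (Sum.inl (Sum.inr τ)) := unb_spoke3 e
    rcases unb_step h h1 with h3 | h3
    · rcases unb_step h3 h2 with h4 | h4
      · exact Or.inl h4
      · exact Or.inr ⟨_, rfl, h4⟩
    · exact Or.inr ⟨_, rfl, tch_mono (by omega) h3⟩

/-- a vertex over a burnt point burns or a guard over the point is touched -/
theorem unb_all {v0 : GV K H L} {U : Set (GV K H L)} {T : ℕ} (w : GV K H L)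
    (h : tv (bp w) ∈ bu (G K H L) v0 U T) :
    w ∈ bu (G K H L) v0 U (T + 4) ∨ ∃ u, bp u = bp w ∧ u ∈ tch (G K H L) v0 U (T + 4) := by
  rcases w with x | e
  · rcases unb_centre x h with h1 | ⟨u, hu, h1⟩
    · exact Or.inl (bu_mono (by omega) h1)
    · exact Or.inr ⟨u, hu, tch_mono (by omega) h1⟩
  · rcases unb_centre e.1.1 h with h1 | ⟨u, hu, h1⟩
    · rcases unb_step h1 (unb_spoke e) with h2 | h2
      · exact Or.inl (bu_mono (by omega) h2)
      · exact Or.inr ⟨_, rfl, tch_mono (by omega) h2⟩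
    · exact Or.inr ⟨u, hu, tch_mono (by omega) h1⟩

end

theorem sunb : SUnb := by
  intro K H L _ g v0 U T hU
  set S : Set (TV K H) := {f | tv f ∉ bu (G K H L) v0 U T} ∪ bp '' tch (G K H L) v0 U (T + 4)
    with hS
  have hsub : {w | ∀ t, w ∉ bu (G K H L) v0 U t} ⊆ {w : GV K H L | bp w ∈ S} := by
    intro w hw
    by_cases h : tv (bp w) ∈ bu (G K H L) v0 U T
    · rcases unb_all w h with h1 | ⟨u, hu, h1⟩
      · exact absurd h1 (hw _)
      · exact Or.inr ⟨u, h1, hu⟩
    · exact Or.inl h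
  have h1 := Set.ncard_le_ncard hsub (Set.toFinite _)
  have h2 := card_over (L := L) g S
  have h3 : S.ncard ≤ ub (G K H L) v0 tv U T + (T + 4) := by
    refine (Set.ncard_union_le _ _).trans (Nat.add_le_add le_rfl ?_)
    exact (Set.ncard_image_le (Set.toFinite _)).trans (hU.cnt _)
  have h4 : 13 * S.ncard ≤ 13 * (ub (G K H L) v0 tv U T + (T + 13)) :=
    Nat.mul_le_mul_left _ (by omega)
  exact h1.trans (h2.trans h4)

end Pool.Agent.FM
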