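import Pool.Agent.FM.PMain
import Pool.Agent.FM.PAdm
import Pool.Agent.FM.PFst
import Pool.Agent.FM.PProc
import Pool.Agent.FM.PChg
import Pool.Agent.FM.PFrt
import Pool.Agent.FM.PComb
import Pool.Agent.FM.PSpd
import Pool.Agent.FM.PFib
import Pool.Agent.FM.PUnb
import Pool.Agent.FM.PIns

/-!
# MP_4c8b8e_co: the process block together
-/

set_option autoImplicit false

namespace Pool.Agent.FM

open Pool.Agent.H3.FF Pool.Agent.H13.FG

theorem block4 (hT : SStepTop) (hG : SGeo) : ∀ D0 ta, Pool.Agent.H3.FF.SMain D0 ta :=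
  smain_of (scomb sspd hT hG) (sproc schg sfrt (sfst schg (sadm schg))) sfib sunb sins

/-- what remains for the final theorem -/
theorem final_of_blocks (hA : Pool.Agent.H58.FF.SArea) (hT : SStepTop) (hG : SGeo) : FinalG5 :=
  final_of hA (block4 hT hG)

end Pool.Agent.FM
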