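import Pool.Agent.H13.FG.Stm
import Pool.Agent.H3.FF.Typ

/-!
# MP_4c8b8e_co: process block, definitions and the interfaces between the blocks
-/

set_option autoImplicit false

open scoped BigOperators

namespace Pool.Agent.FM

open Classical Pool.Agent.H41.Fire Pool.Agent.H3.FF Pool.Agent.H13.FG CV TV

/-- number of points whose vertex never burns when the fire starts at `v` and exactly the vertices
in `P` are guarded -/
noncomputable def sig {V X : Type} (G : SimpleGraph V) (v : V) (ι : X → V) (P : Set V) : ℕ :=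
  {x : X | ∀ t, ι x ∉ bu G v P t}.ncard

/-- number of points whose vertex does not burn up to time `t` -/
noncomputable def ub {V X : Type} (G : SimpleGraph V) (v : V) (ι : X → V) (P : Set V) (t : ℕ) :
    ℕ :=
  {x : X | ι x ∉ bu G v P t}.ncard

/-- the vertices that burn for the first time at time `t` -/
def fr {V : Type} (G : SimpleGraph V) (v : V) (P : Set V) (t : ℕ) : Set V :=
  bu G v P t \ bu G v P (t - 1)

/-- the touched guards and the fire front at time `t` -/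
def P0 {V : Type} (G : SimpleGraph V) (v : V) (P : Set V) (t : ℕ) : Set V :=
  tch G v P t ∪ fr G v P t

/-- the vertex of a lattice point -/
def tv {K H L : ℕ} [NeZero K] (f : TV K H) : GV K H L := Sum.inl (Sum.inl f)

/-- the lattice point under a vertex -/
def pr {K H L : ℕ} [NeZero K] : GV K H L → TV K H
  | Sum.inl x => hp x
  | Sum.inr e => hp e.1.1

/-- the point `f` is in the square sector `i` at distance at least `h` from the sides -/
def InSec {K H : ℕ} [NeZero K] (h : ℝ) (i : ZMod K) (x y : ℕ) (f : TV K H) : Prop :=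
  f = sq i x y ∧ h ≤ x ∧ h ≤ y ∧ (x : ℝ) + h ≤ H ∧ (y : ℝ) + h ≤ H

/-- OUTPUT OF THE TOPOLOGICAL BLOCK. For a set `P` of guards with few elements there is a family
`B` of chambers (pairwise disjoint and not adjacent), a set `Q` of burnt points outside the
chambers, a set `Z` (dust) and a small set `M` of vertices such that the guards touched by time
`#P - lam` together with `M` separate the start from all chambers that are near. -/
def SStepTop : Prop := ∀ (K : ℕ) [NeZero K], 4 ∣ K → ∀ e C3 : ℝ, 0 < e → 0 < C3 →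
  ∃ L0 : ℕ, ∀ L : ℕ, L0 ≤ L → 3 ∣ L → ∃ (r0 : ℕ) (k C4 : ℝ), 0 < k ∧ 0 < C4 ∧
  ∀ e1 : ℝ, 0 < e1 → ∃ H0 : ℕ, ∀ H : ℕ, H0 ≤ H → L ∣ H →
  ∀ (v0 : GV K H L) (P : Set (GV K H L)) (t1 : ℕ), v0 ∉ P → (P.ncard : ℝ) ≤ C3 * H →
    t1 ≤ H → H ≤ {f : TV K H | tv f ∈ bu (G K H L) v0 P t1}.ncard →
  ∃ (B : Finset (Finset (TV K H))) (Q Z : Finset (TV K H)) (M : Set (GV K H L)),
    Apart B ∧ (∀ f ∈ Q, f ∉ un B) ∧ (∀ f ∈ Q, tv f ∈ bu (G K H L) v0 P t1) ∧
    ({f : TV K H | tv f ∈ bu (G K H L) v0 P t1}.ncard : ℝ) ≤ Q.card + C4 * H ∧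
    (Z.card : ℝ) ≤ C3 * H ∧
    (sig (G K H L) v0 tv P : ℝ) ≤ (un B).card + C4 * H ∧
    Disjoint M (bu (G K H L) v0 P t1) ∧ (M.ncard : ℝ) ≤ e1 * H ∧
    ∀ (lam : ℕ) (N : Finset (Finset (TV K H))), N ⊆ B → N.Nonempty →
      (∀ S ∈ N, NearTo Q Z r0 k e t1 lam (un B) S) →
        t1 + lam ≤ P.ncard ∧ ((un N).card : ℝ) ≤
          sig (G K H L) v0 tv (tch (G K H L) v0 P (P.ncard - lam) ∪ M) + C4 * H

/-- THE STEP LEMMA (topological block and geometry together). -/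
def SStepG : Prop := ∀ (K : ℕ) [NeZero K], 4 ∣ K → ∀ η c1 δ C3 : ℝ, 0 < η → η ≤ 1 / 4 →
  0 < c1 → c1 ≤ η / 20 → 0 < δ → δ ≤ c1 / 1000 → 0 < C3 →
  ∃ L0 : ℕ, ∀ L : ℕ, L0 ≤ L → 3 ∣ L → ∃ C4 : ℝ, 0 < C4 ∧
  ∀ e1 : ℝ, 0 < e1 → ∃ H0 : ℕ, ∀ H : ℕ, H0 ≤ H → L ∣ H →
  ∀ (f0 : TV K H) (i0 : ZMod K) (x0 y0 : ℕ), InSec (η * H) i0 x0 y0 f0 →
  ∀ (v0 : GV K H L) (P : Set (GV K H L)) (t1 : ℕ), Base v0 f0 → v0 ∉ P →
    (P.ncard : ℝ) ≤ C3 * H → c1 * H - 1 ≤ t1 → (t1 : ℝ) ≤ c1 * H →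
    48 * t1 ^ 2 ≤ 100 * {f : TV K H | tv f ∈ bu (G K H L) v0 P t1}.ncard →
    100 / δ * (H : ℝ) ^ 2 + C4 * H ≤ sig (G K H L) v0 tv P →
  ∃ M : Set (GV K H L), Disjoint M (bu (G K H L) v0 P t1) ∧ (M.ncard : ℝ) ≤ e1 * H ∧
    (∀ lam : ℕ, (lam : ℝ) ≤ c1 * H / 100 → t1 + lam ≤ P.ncard ∧
      ((sig (G K H L) v0 tv P : ℝ) ≤
          sig (G K H L) v0 tv (tch (G K H L) v0 P (P.ncard - lam) ∪ M) +
            18 * (c1 * H) ^ 2 + C4 * H ∨
        (Nat.card (TV K H) : ℝ) ≤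
          sig (G K H L) v0 tv (tch (G K H L) v0 P (P.ncard - lam) ∪ M) +
            200 / δ * (H : ℝ) ^ 2 + C4 * H)) ∧
    (∀ lam lam' : ℕ, (lam : ℝ) ≤ 0.9 * H → (lam' : ℝ) ≤ c1 * H / 100 →
      (t1 + lam ≤ P.ncard ∧ (sig (G K H L) v0 tv P : ℝ) ≤
          sig (G K H L) v0 tv (tch (G K H L) v0 P (P.ncard - lam) ∪ M) +
            100 / δ * (H : ℝ) ^ 2 + C4 * H) ∨
        (Nat.card (TV K H) : ℝ) ≤
          sig (G K H L) v0 tv (tch (G K H L) v0 P (P.ncard - lam') ∪ M) +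
            200 / δ * (H : ℝ) ^ 2 + C4 * H)

/-- THE MAIN THEOREM at the level of the process: for all starts except few, every set of guards
that can be placed one per step leaves only few points of the lattice unburnt at a time that is
small compared with the number of points. -/
def SMain : Prop := ∀ ε : ℝ, 0 < ε → ∃ (K : ℕ) (_ : NeZero K) (H L : ℕ), Par K H L ∧
  ∃ (T : ℕ) (bad : Set (GV K H L)), 1 / ε ≤ H ∧ (T : ℝ) ≤ ε * Nat.card (TV K H) ∧
    (bad.ncard : ℝ) ≤ ε * Nat.card (TV K H) ∧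
    ∀ v0 ∉ bad, ∀ U : Set (GV K H L), Hall (G K H L) v0 U →
      (ub (G K H L) v0 tv U T : ℝ) ≤ ε * Nat.card (TV K H)

end Pool.Agent.FM
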