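import Pool.Agent.FM.PStm
import Pool.Agent.H3.FF.Fin

/-!
# MP_4c8b8e_co: process block, statements for the last step
-/

set_option autoImplicit false

open scoped BigOperators

namespace Pool.Agent.FM

open Classical Pool.Agent.H41.Fire Pool.Agent.H3.FF Pool.Agent.H13.FG CV TV

/-- FIRE-P9. Vertices that never burn, from the lattice points that do not burn up to time `T`. -/
def SUnb : Prop := ∀ (K H L : ℕ) [NeZero K], Par K H L → ∀ (v0 : GV K H L)
  (U : Set (GV K H L)) (T : ℕ), Hall (G K H L) v0 U →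
    {w | ∀ t, w ∉ bu (G K H L) v0 U t}.ncard ≤ 13 * (ub (G K H L) v0 tv U T + (T + 13))

/-- FIRE-P10. Points far from the coarse edges are inside a square sector; number of points. -/
def SIns : Prop := ∀ (K H : ℕ) [NeZero K], 4 ≤ K →
  (∀ (f : TV K H) (h : ℝ), 0 ≤ h →
    (∀ b i, Sp b i f.1 → ∀ e, fc b i e → h ≤ (f.1 e : ℝ)) →
      ∃ (i : ZMod K) (x y : ℕ), InSec h i x y f) ∧
  Nat.card (TV K H) ≤ K * (H + 1) ^ 2

end Pool.Agent.FM
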