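import Pool.Agent.FM.PNum
import Pool.Agent.FM.PFin

/-!
# MP_4c8b8e_co: from the step lemma to the main theorem on the process
-/

set_option autoImplicit false

open scoped BigOperators

namespace Pool.Agent.FM

open Classical Pool.Agent.H41.Fire Pool.Agent.H3.FF Pool.Agent.H13.FG CV TV

theorem smain_of (hst : SStepG) (hp : SProc) (hf : SFib) (hu : SUnb) (hi : SIns) :
    ∀ D0 ta, Pool.Agent.H3.FF.SMain D0 ta := by
  intro D0 ta ε hε
  set e : ℝ := min ε 1 with he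
  have e0 : 0 < e := lt_min hε one_pos
  have e1 : e ≤ 1 := min_le_right _ _
  have eε : e ≤ ε := min_le_left _ _
  obtain ⟨c1, d, n7, K, C3, K0, c, h4K⟩ := cst_ex e e0 e1
  have c0 := c.c0
  have d0 := c.d0
  have c1le := c.c1_le
  have hKK : 4 ≤ K := by
    have h1 := c.hK'
    have h2 := c.h7'
    omega
  haveI : NeZero K := ⟨by omega⟩
  have hC3pos : 1 ≤ C3 := by
    have := c.hC
    omega
  have hC3r : (0 : ℝ) < C3 := by exact_mod_cast hC3pos
  have hK0pos : (0 : ℝ) < K0 := by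
    have h1 := c.hK0
    have h2 : 0 < 250 * (C3 : ℝ) / c1 := by positivity
    linarith
  obtain ⟨L0, hst⟩ := hst K h4K (e / 4) c1 d C3 (by positivity) (by linarith) c0
    (by rw [c.hc]; linarith) d0 (by rw [c.hd]) hC3r
  refine ⟨K, inferInstance, c1, e / 4, L0, hKK, (show (2 : ℕ) ∣ 4 by norm_num).trans h4K, c0, ?_,
    by positivity, by linarith, ?_⟩
  · have h1 : c1 ≤ ε := by
      rw [c.hc]
      linarith
    nlinarith
  intro L hL h3
  obtain ⟨C4, hC4, hst⟩ := hst L hL h3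
  obtain ⟨H0, hst⟩ := hst (c1 / (1000 * K0)) (by positivity)
  obtain ⟨m1, hm1⟩ := exists_nat_ge (2000 / c1)
  obtain ⟨m2, hm2⟩ := exists_nat_ge ((C4 + 1) / c1 ^ 2)
  obtain ⟨m3, hm3⟩ := exists_nat_ge (100 * C3 / e)
  obtain ⟨m4, hm4⟩ := exists_nat_ge ((ta + 1) / c1)
  refine ⟨H0 + m1 + m2 + m3 + m4, ?_⟩
  intro H hH g w0 hTyp hedge U hU harea
  have hHr : ((H0 + m1 + m2 + m3 + m4 : ℕ) : ℝ) ≤ H := by exact_mod_cast hH
  push_cast at hHr
  have p0 : (0 : ℝ) ≤ H0 := Nat.cast_nonneg _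
  have p1 : (0 : ℝ) ≤ m1 := Nat.cast_nonneg _
  have p2 : (0 : ℝ) ≤ m2 := Nat.cast_nonneg _
  have p3 : (0 : ℝ) ≤ m3 := Nat.cast_nonneg _
  have p4 : (0 : ℝ) ≤ m4 := Nat.cast_nonneg _
  have h1 : 2000 ≤ c1 * H := by
    have : 2000 / c1 ≤ H := by linarith
    rw [div_le_iff₀ c0] at this
    linarith
  have h2 : C4 + 1 ≤ c1 ^ 2 * H := by
    have : (C4 + 1) / c1 ^ 2 ≤ H := by linarith
    rw [div_le_iff₀ (by positivity)] at this
    linarith
  have h3' : 100 * (C3 : ℝ) ≤ e * H := by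
    have : 100 * (C3 : ℝ) / e ≤ H := by linarith
    rw [div_le_iff₀ e0] at this
    linarith
  have h4 : (ta : ℝ) + 1 ≤ c1 * H := by
    have : ((ta : ℝ) + 1) / c1 ≤ H := by linarith
    rw [div_le_iff₀ c0] at this
    linarith
  have hcard := card_TV g
  have hGV := card_GV g
  obtain ⟨hins, hcardU⟩ := hi K H hKK
  obtain ⟨t1, lam1, lam2, l1, a, A, z, C7, T, n1, n2, n3, n4, n5, n6, n7', n8, n9, n10, n11, n12,
    n13, n14, n15, n16, n17, n18, n19⟩ := c.main hC4 h1 h2 h3' hcard hcardU hGV.2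
  obtain ⟨i0, x0, y0, hsec⟩ := hins (bp w0) (e / 4 * H) (by positivity) hedge
  have hta : ta ≤ t1 := by
    have : (ta : ℝ) ≤ t1 := by linarith
    exact_mod_cast this
  have hB := harea t1 hta n1
  -- the step lemma in natural numbers
  have hstep : StepN (G K H L) w0 tv (bu (G K H L) w0 U t1) t1 lam1 lam2 l1 a A A (C3 * H) := by
    intro P hP hB1 hcP hsig
    have hcP' : (P.ncard : ℝ) ≤ C3 * H := by exact_mod_cast hcP
    have hsig' : 100 / d * (H : ℝ) ^ 2 + C4 * H ≤ sig (G K H L) w0 tv P := by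
      have h5 : (A : ℝ) ≤ sig (G K H L) w0 tv P := by exact_mod_cast hsig
      have h6 : 100 / d * (H : ℝ) ^ 2 ≤ 200 / d * (H : ℝ) ^ 2 := by
        refine mul_le_mul_of_nonneg_right ?_ (by positivity)
        exact div_le_div_of_nonneg_right (by norm_num) d0.le
      linarith
    obtain ⟨M, hM1, hM2, hS1, hS2⟩ := hst H (by omega) g.lh (bp w0) i0 x0 y0 hsec w0 P t1
      (base_bp w0) hP hcP' n2 n1 (by rw [hB1]; exact hB) hsig'
    obtain ⟨hS1a, hS1b⟩ := hS1 lam1 n3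
    have hM2' : M.ncard ≤ l1 := n5 _ hM2
    refine ⟨M, by rw [← hB1]; exact hM1, hM2', ⟨hS1a, ?_⟩, ?_⟩
    · rcases hS1b with h5 | h5
      · left
        have : (sig (G K H L) w0 tv P : ℝ) ≤
            sig (G K H L) w0 tv (tch (G K H L) w0 P (P.ncard - lam1) ∪ M) + a := by linarith
        exact_mod_cast this
      · right
        have : (Nat.card (TV K H) : ℝ) ≤
            sig (G K H L) w0 tv (tch (G K H L) w0 P (P.ncard - lam1) ∪ M) + A := by linarith
        exact_mod_cast this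
    · rcases hS2 lam2 lam1 n4 n3 with ⟨h5, h6⟩ | h5
      · left
        refine ⟨h5, ?_⟩
        have h7 : 100 / d * (H : ℝ) ^ 2 ≤ 200 / d * (H : ℝ) ^ 2 := by
          refine mul_le_mul_of_nonneg_right ?_ (by positivity)
          exact div_le_div_of_nonneg_right (by norm_num) d0.le
        have : (sig (G K H L) w0 tv P : ℝ) ≤
            sig (G K H L) w0 tv (tch (G K H L) w0 P (P.ncard - lam2) ∪ M) + A := by linarith
        exact_mod_cast this
      · right
        have : (Nat.card (TV K H) : ℝ) ≤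
            sig (G K H L) w0 tv (tch (G K H L) w0 P (P.ncard - lam1) ∪ M) + A := by linarith
        exact_mod_cast this
  have hproc := hp (GV K H L) (TV K H) (G K H L) w0 tv U t1 lam1 lam2 l1 a A A (C3 * H) K0 z 13
    (A + (K0 + 2) * a + A) C7 T hU hstep (fun P hP => hf K H L g w0 P hP) n8 n9 n10 n11 n12 n13
    le_rfl n14 n15 n16 n17 n18
  have hfin := hu K H L g w0 U T hU
  have h7 : ({w | ∀ t, w ∉ bu (G K H L) w0 U t}.ncard : ℝ) ≤
      13 * ((ub (G K H L) w0 tv U T : ℝ) + (T + 13)) := by exact_mod_cast hfin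
  have h8 : (ub (G K H L) w0 tv U T : ℝ) ≤ ((A + (K0 + 2) * a + A : ℕ) : ℝ) := by
    exact_mod_cast hproc.le
  have h9 : (Nat.card (TV K H) : ℝ) ≤ Nat.card (GV K H L) := by exact_mod_cast hGV.1
  calc ({w | ∀ t, w ∉ bu (G K H L) w0 U t}.ncard : ℝ) ≤
        13 * (((A + (K0 + 2) * a + A : ℕ) : ℝ) + ((T : ℝ) + 13)) := by linarith
    _ ≤ e * Nat.card (TV K H) := n19
    _ ≤ ε * Nat.card (GV K H L) := mul_le_mul eε h9 (Nat.cast_nonneg _) hε.le

end Pool.Agent.FM
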