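import Mathlib

/-!
# MP_4c8b8e_co: the constants
-/

set_option autoImplicit false

namespace Pool.Agent.FM

/-- the constants that do not depend on `L` and `H` -/
structure Cst (e c1 d : ℝ) (n7 K C3 K0 : ℕ) : Prop where
  e0 : 0 < e
  e1 : e ≤ 1
  hc : c1 = e / 1000000000
  hd : d = c1 / 1000
  h7 : 1000000 / (d * c1) ≤ n7
  h7' : 1 ≤ n7
  hK : 4000000 / (d * e) ≤ K
  hK' : 4 * n7 ≤ K
  hC : C3 = n7 + 60 * K + 1
  hK0 : 250 * C3 / c1 + 2 ≤ K0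
  hK0' : (K0 : ℝ) ≤ 250 * C3 / c1 + 3

/-- constants exist -/
theorem cst_ex (e : ℝ) (h0 : 0 < e) (h1 : e ≤ 1) : ∃ (c1 d : ℝ) (n7 K C3 K0 : ℕ),
    Cst e c1 d n7 K C3 K0 ∧ 4 ∣ K := by
  set c1 : ℝ := e / 1000000000 with hc
  set d : ℝ := c1 / 1000 with hd
  have c0 : 0 < c1 := by positivity
  have d0 : 0 < d := by positivity
  set n7 : ℕ := ⌈1000000 / (d * c1)⌉₊ + 1 with h7
  set nK : ℕ := ⌈4000000 / (d * e)⌉₊ with hnK
  set K : ℕ := 4 * (n7 + nK) with hK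
  set C3 : ℕ := n7 + 60 * K + 1 with hC
  refine ⟨c1, d, n7, K, C3, ⌈(250 * C3 / c1 : ℝ)⌉₊ + 2, ⟨h0, h1, hc, hd, ?_, by omega, ?_,
    by omega, hC, ?_, ?_⟩, ⟨_, hK⟩⟩
  · have := Nat.le_ceil (1000000 / (d * c1))
    rw [h7]
    push_cast
    linarith
  · have := Nat.le_ceil (4000000 / (d * e))
    rw [hK]
    push_cast
    have h2 : (0 : ℝ) ≤ n7 := Nat.cast_nonneg _
    have h3 : (0 : ℝ) ≤ nK := Nat.cast_nonneg _
    rw [← hnK] at this
    linarith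
  · push_cast
    have := Nat.le_ceil (250 * (C3 : ℝ) / c1)
    linarith
  · push_cast
    have := (Nat.ceil_lt_add_one (show (0 : ℝ) ≤ 250 * (C3 : ℝ) / c1 by positivity)).le
    linarith

section

variable {e c1 d : ℝ} {n7 K C3 K0 : ℕ} (c : Cst e c1 d n7 K C3 K0)

include c

theorem Cst.c0 : 0 < c1 := by
  have := c.e0
  rw [c.hc]
  positivity

theorem Cst.d0 : 0 < d := by
  have := c.c0
  rw [c.hd]
  positivity

theorem Cst.c1_le : c1 ≤ 1 / 1000000000 := by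
  have := c.e1
  rw [c.hc]
  linarith

/-- the inequalities for large `H` -/
theorem Cst.main {C4 : ℝ} {H : ℕ} (hC4 : 0 < C4) (h1 : 2000 ≤ c1 * H)
    (h2 : (C4 + 1) ≤ c1 ^ 2 * H) (h3 : 100 * C3 ≤ e * H) {X Y : ℕ} (hX : K * H ^ 2 ≤ X)
    (hX' : X ≤ K * (H + 1) ^ 2) (hY : Y ≤ 13 * X) :
    ∃ t1 lam1 lam2 l1 a A z C7 T : ℕ,
      (t1 : ℝ) ≤ c1 * H ∧ c1 * H - 1 ≤ t1 ∧ (lam1 : ℝ) ≤ c1 * H / 100 ∧
      (lam2 : ℝ) ≤ 0.9 * H ∧ (∀ n : ℕ, (n : ℝ) ≤ c1 / (1000 * K0) * H → n ≤ l1) ∧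
      18 * (c1 * H) ^ 2 + C4 * H ≤ a ∧ 200 / d * (H : ℝ) ^ 2 + C4 * H ≤ A ∧
      1 ≤ z ∧ z + K0 * l1 ≤ lam1 ∧ 2 ≤ K0 ∧ C3 * H ≤ (K0 - 2) * z ∧ lam1 ≤ lam2 ∧
      A + (K0 + 2) * a + 2 * A ≤ X ∧ t1 + 2 ≤ C7 ∧
      13 * (A + C3 * H) < (C7 - (t1 + 2)) * (lam1 - l1) ∧ C7 ≤ T ∧ Y < (T - C7) * lam2 ∧
      T + lam2 + l1 ≤ C3 * H ∧
      13 * (((A + (K0 + 2) * a + A : ℕ) : ℝ) + ((T : ℝ) + 13)) ≤ e * X := by
  have c0 := c.c0
  have d0 := c.d0
  have e0 := c.e0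
  have e1 := c.e1
  have c1le := c.c1_le
  have hH1 : (2000000000000 : ℝ) ≤ H := by
    have : c1 * H ≤ 1 / 1000000000 * H := mul_le_mul_of_nonneg_right c1le (Nat.cast_nonneg _)
    linarith
  have hH : 2000000000000 ≤ H := by exact_mod_cast hH1
  have hHpos : (0 : ℝ) < H := by linarith
  have hH2pos : (0 : ℝ) < (H : ℝ) ^ 2 := by positivity
  have hC3 : (1 : ℝ) ≤ C3 := by
    have := c.hC
    exact_mod_cast (show 1 ≤ C3 by omega)
  have hC3' : (C3 : ℝ) = n7 + 60 * K + 1 := by exact_mod_cast c.hC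
  have hK4 : (4 : ℝ) * n7 ≤ K := by exact_mod_cast c.hK'
  have h71 : (1 : ℝ) ≤ n7 := by exact_mod_cast c.h7'
  have hKpos : (0 : ℝ) < K := by linarith
  have hC61 : (C3 : ℝ) ≤ 61 * K := by
    rw [hC3']
    linarith
  have hK0 := c.hK0
  have hK0' := c.hK0'
  have hq : 0 < 250 * (C3 : ℝ) / c1 := by positivity
  have hK02 : (2 : ℝ) ≤ K0 := by linarith
  have hK02' : 2 ≤ K0 := by exact_mod_cast hK02
  have hK0pos : (0 : ℝ) < K0 := by linarith
  -- the numbers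
  set t1 : ℕ := ⌊c1 * H⌋₊ with ht1
  set lam1 : ℕ := ⌊c1 * H / 100⌋₊ with hl1
  set l1 : ℕ := ⌊c1 / (1000 * K0) * H⌋₊ with hl
  set a : ℕ := ⌈18 * (c1 * H) ^ 2 + C4 * H⌉₊ with ha
  set A : ℕ := ⌈200 / d * (H : ℝ) ^ 2 + C4 * H⌉₊ with hA
  have ht1' : (t1 : ℝ) ≤ c1 * H := Nat.floor_le (by positivity)
  have ht1'' : c1 * H - 1 ≤ t1 := (Nat.sub_one_lt_floor _).le
  have hlam : (lam1 : ℝ) ≤ c1 * H / 100 := Nat.floor_le (by positivity)
  have hlam' : c1 * H / 100 - 1 ≤ lam1 := (Nat.sub_one_lt_floor _).le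
  have hl1' : (l1 : ℝ) ≤ c1 / (1000 * K0) * H := Nat.floor_le (by positivity)
  have ha' : 18 * (c1 * H) ^ 2 + C4 * H ≤ a := Nat.le_ceil _
  have ha'' : (a : ℝ) ≤ 18 * (c1 * H) ^ 2 + C4 * H + 1 := (Nat.ceil_lt_add_one (by positivity)).le
  have hA' : 200 / d * (H : ℝ) ^ 2 + C4 * H ≤ A := Nat.le_ceil _
  have hA'' : (A : ℝ) ≤ 200 / d * (H : ℝ) ^ 2 + C4 * H + 1 :=
    (Nat.ceil_lt_add_one (by positivity)).le
  have hc1H : c1 * H ≤ H / 1000000000 := by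
    have : c1 * H ≤ 1 / 1000000000 * H := mul_le_mul_of_nonneg_right c1le hHpos.le
    linarith
  have hKl : (K0 : ℝ) * l1 ≤ c1 * H / 1000 := by
    calc (K0 : ℝ) * l1 ≤ K0 * (c1 / (1000 * K0) * H) := mul_le_mul_of_nonneg_left hl1' hK0pos.le
      _ = c1 * H / 1000 := by field_simp
  have hl1le : (l1 : ℝ) ≤ c1 * H / 1000 := by
    refine le_trans ?_ hKl
    have : (0 : ℝ) ≤ l1 := Nat.cast_nonneg _
    nlinarith
  have hC4H : C4 * H + 1 ≤ (c1 * H) ^ 2 := by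
    have h5 : C4 * H + 1 ≤ (C4 + 1) * H := by linarith
    have h6 : (C4 + 1) * H ≤ c1 ^ 2 * H * H := mul_le_mul_of_nonneg_right h2 hHpos.le
    linarith [show c1 ^ 2 * (H : ℝ) * H = (c1 * H) ^ 2 by ring]
  have hsq : (c1 * H) ^ 2 ≤ (H : ℝ) ^ 2 := by
    have h5 : c1 * H ≤ H := by linarith
    exact pow_le_pow_left₀ (by positivity) h5 2
  have hd1 : d ≤ 1 := by
    rw [c.hd]
    linarith
  have hHd : (H : ℝ) ^ 2 ≤ (H : ℝ) ^ 2 / d := by
    rw [le_div_iff₀ d0]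
    nlinarith
  have hA3 : (A : ℝ) ≤ 201 * ((H : ℝ) ^ 2 / d) := by
    have : 200 / d * (H : ℝ) ^ 2 = 200 * ((H : ℝ) ^ 2 / d) := by ring
    linarith
  have ha3 : (a : ℝ) ≤ 19 * (c1 * H) ^ 2 := by linarith
  -- `lam1`, `z`
  have hlam19 : (19 : ℝ) ≤ lam1 := by linarith
  have hlam19' : 19 ≤ lam1 := by exact_mod_cast hlam19
  have hz1 : 2 * (lam1 / 2) ≤ lam1 := by omega
  have hz2 : lam1 ≤ 2 * (lam1 / 2) + 1 := by omega
  have hz1' : 2 * ((lam1 / 2 : ℕ) : ℝ) ≤ lam1 := by exact_mod_cast hz1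
  have hz2' : (lam1 : ℝ) ≤ 2 * ((lam1 / 2 : ℕ) : ℝ) + 1 := by exact_mod_cast hz2
  have hm1 : H ≤ 2 * (H / 2 + 1) := by omega
  have hm2 : 2 * (H / 2 + 1) ≤ H + 2 := by omega
  have hm1' : (H : ℝ) ≤ 2 * ((H / 2 + 1 : ℕ) : ℝ) := by exact_mod_cast hm1
  have hm2' : 2 * ((H / 2 + 1 : ℕ) : ℝ) ≤ (H : ℝ) + 2 := by exact_mod_cast hm2
  have hXr : (K : ℝ) * H ^ 2 ≤ X := by exact_mod_cast hX
  have hH2K : (0 : ℝ) < K * H ^ 2 := by positivity
  -- the two main estimates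
  have hE1 : 3 * (A : ℝ) ≤ e / 100 * (K * H ^ 2) := by
    have h5 : 4000000 / (d * e) ≤ (K : ℝ) := c.hK
    have h6 : 40000 * ((H : ℝ) ^ 2 / d) ≤ e / 100 * (K * H ^ 2) := by
      calc 40000 * ((H : ℝ) ^ 2 / d) = e / 100 * (4000000 / (d * e) * H ^ 2) := by
            field_simp
            ring
        _ ≤ e / 100 * (K * H ^ 2) := by
            refine mul_le_mul_of_nonneg_left ?_ (by positivity)
            exact mul_le_mul_of_nonneg_right h5 (by positivity)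
    have h7 : (0 : ℝ) ≤ (H : ℝ) ^ 2 / d := by positivity
    linarith
  have hE2 : ((K0 : ℝ) + 2) * a ≤ e / 100 * (K * H ^ 2) := by
    have h5 : (K0 : ℝ) + 2 ≤ 255 * C3 / c1 := by
      have h6 : (5 : ℝ) ≤ 5 * C3 / c1 := by
        rw [le_div_iff₀ c0]
        nlinarith
      have h7 : 255 * (C3 : ℝ) / c1 = 250 * C3 / c1 + 5 * C3 / c1 := by ring
      linarith
    have h6 : (0 : ℝ) ≤ 19 * (c1 * H) ^ 2 := by positivity
    calc ((K0 : ℝ) + 2) * a ≤ (255 * C3 / c1) * (19 * (c1 * H) ^ 2) :=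
          mul_le_mul h5 ha3 (Nat.cast_nonneg _) (by positivity)
      _ = 4845 * C3 * c1 * H ^ 2 := by
          field_simp
          ring
      _ ≤ 4845 * (61 * K) * c1 * H ^ 2 := by
          have : (0 : ℝ) ≤ 4845 * c1 * H ^ 2 := by positivity
          nlinarith
      _ = 295545 / 1000000000 * (e * (K * H ^ 2)) := by
          rw [c.hc]
          ring
      _ ≤ e / 100 * (K * H ^ 2) := by
          have : (0 : ℝ) ≤ e * (K * H ^ 2) := by positivity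
          nlinarith
  have hE3 : (C3 : ℝ) * H ≤ e / 100 * (K * H ^ 2) := by
    have h5 : (C3 : ℝ) ≤ e * H / 100 := by linarith
    have hK1 : (1 : ℝ) ≤ K := by linarith
    calc (C3 : ℝ) * H ≤ e * H / 100 * H := mul_le_mul_of_nonneg_right h5 hHpos.le
      _ = e / 100 * (1 * H ^ 2) := by ring
      _ ≤ e / 100 * (K * H ^ 2) := by
          refine mul_le_mul_of_nonneg_left ?_ (by positivity)
          exact mul_le_mul_of_nonneg_right hK1 (by positivity)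
  have hC3c := c.hC
  have hbnd : (lam1 : ℝ) - l1 ≥ c1 * H / 200 := by linarith
  have hll : l1 ≤ lam1 := by
    have : (l1 : ℝ) ≤ lam1 := by linarith [show 0 ≤ c1 * H by positivity]
    exact_mod_cast this
  have hn7H : H ≤ n7 * H := Nat.le_mul_of_pos_left _ (by have := c.h7'; omega)
  have ht1H : t1 + 2 ≤ H := by
    have : (t1 : ℝ) + 2 ≤ H := by linarith
    exact_mod_cast this
  refine ⟨t1, lam1, H / 2 + 1, l1, a, A, lam1 / 2, n7 * H, (n7 + 60 * K) * H, ht1', ht1'', hlam,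
    ?_, fun n hn => Nat.le_floor hn, ha', hA', by omega, ?_, hK02', ?_, ?_, ?_, by omega, ?_, ?_,
    ?_, ?_, ?_⟩
  · linarith
  · have : ((lam1 / 2 : ℕ) : ℝ) + K0 * l1 ≤ lam1 := by linarith
    exact_mod_cast this
  · have h5 : (C3 : ℝ) * H ≤ ((K0 - 2 : ℕ) : ℝ) * ((lam1 / 2 : ℕ) : ℝ) := by
      rw [Nat.cast_sub hK02']
      push_cast
      have h6 : c1 * H / 250 ≤ ((lam1 / 2 : ℕ) : ℝ) := by linarith
      have h7 : 250 * (C3 : ℝ) / c1 ≤ (K0 : ℝ) - 2 := by linarith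
      calc (C3 : ℝ) * H = (250 * C3 / c1) * (c1 * H / 250) := by field_simp
        _ ≤ ((K0 : ℝ) - 2) * ((lam1 / 2 : ℕ) : ℝ) :=
          mul_le_mul h7 h6 (by positivity) (by linarith)
    exact_mod_cast h5
  · have : (lam1 : ℝ) ≤ ((H / 2 + 1 : ℕ) : ℝ) := by linarith
    exact_mod_cast this
  · have : (A : ℝ) + (K0 + 2) * a + 2 * A ≤ X := by
      have h5 : e / 50 * (K * (H : ℝ) ^ 2) ≤ 1 * (K * (H : ℝ) ^ 2) :=
        mul_le_mul_of_nonneg_right (by linarith) hH2K.le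
      linarith
    exact_mod_cast this
  · have h5 : 13 * ((A : ℝ) + C3 * H) <
        (((n7 * H - (t1 + 2) : ℕ)) : ℝ) * ((lam1 - l1 : ℕ) : ℝ) := by
      rw [Nat.cast_sub (by omega), Nat.cast_sub hll]
      push_cast
      have h6 : 900000 / (d * c1) * H ≤ (n7 : ℝ) * H - (t1 + 2) := by
        have h7 : 1000000 / (d * c1) * H ≤ n7 * H := mul_le_mul_of_nonneg_right c.h7 hHpos.le
        have h8 : (H : ℝ) / 10 ≤ n7 * H / 10 := by nlinarith
        have h9 : 900000 / (d * c1) * (H : ℝ) = 0.9 * (1000000 / (d * c1) * H) := by ring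
        rw [h9]
        linarith
      have h7 : 900000 / (d * c1) * (H : ℝ) * (c1 * H / 200) = 4500 * ((H : ℝ) ^ 2 / d) := by
        field_simp
        ring
      have h8 : 900000 / (d * c1) * (H : ℝ) * (c1 * H / 200) ≤
          ((n7 : ℝ) * H - (t1 + 2)) * ((lam1 : ℝ) - l1) :=
        mul_le_mul h6 (by linarith) (by positivity) (le_trans (by positivity) h6)
      have h9 : 13 * ((C3 : ℝ) * H) ≤ (H : ℝ) ^ 2 := by
        have : 100 * (C3 : ℝ) ≤ H := by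
          have : e * H ≤ 1 * H := mul_le_mul_of_nonneg_right e1 hHpos.le
          linarith
        nlinarith
      have h10 : 0 < (H : ℝ) ^ 2 / d := by positivity
      linarith
    exact_mod_cast h5
  · exact Nat.mul_le_mul_right _ (by omega)
  · have h5 : (n7 + 60 * K) * H - n7 * H = 60 * K * H := by
      rw [← Nat.sub_mul]
      congr 1
      omega
    rw [h5]
    have h6 : (H + 1) ^ 2 ≤ 2 * H ^ 2 := by nlinarith
    have h7 : Y ≤ 26 * (K * H ^ 2) := by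
      calc Y ≤ 13 * X := hY
        _ ≤ 13 * (K * (H + 1) ^ 2) := Nat.mul_le_mul_left _ hX'
        _ ≤ 13 * (K * (2 * H ^ 2)) :=
            Nat.mul_le_mul_left _ (Nat.mul_le_mul_left _ h6)
        _ = _ := by ring
    have h8 : 30 * (K * H ^ 2) ≤ 60 * K * H * (H / 2 + 1) := by
      calc 30 * (K * H ^ 2) = 30 * K * H * H := by ring
        _ ≤ 30 * K * H * (2 * (H / 2 + 1)) := Nat.mul_le_mul_left _ hm1
        _ = _ := by ring
    have h9 : 0 < K * H ^ 2 := by exact_mod_cast hH2K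
    omega
  · have h5 : H / 2 + 1 + l1 ≤ H := by
      have : ((H / 2 + 1 : ℕ) : ℝ) + l1 ≤ H := by linarith
      exact_mod_cast this
    have h6 : C3 * H = (n7 + 60 * K) * H + H := by
      rw [hC3c]
      ring
    omega
  · push_cast
    have h5 : ((n7 : ℝ) + 60 * K) * H + 13 ≤ C3 * H := by
      rw [hC3']
      linarith
    have h6 : 0.5 * (e * (K * (H : ℝ) ^ 2)) ≤ e * X := by
      have h7 : e * (K * (H : ℝ) ^ 2) ≤ e * X := mul_le_mul_of_nonneg_left hXr e0.le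
      have h8 : 0 ≤ e * (K * (H : ℝ) ^ 2) := by positivity
      linarith
    have h7 : 0 ≤ e * (K * (H : ℝ) ^ 2) := by positivity
    have h8 : (0 : ℝ) ≤ A := Nat.cast_nonneg _
    linarith

end

end Pool.Agent.FM
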