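import Pool.Agent.FM.PDefs

/-!
# MP_4c8b8e_co: process block, statements
-/

set_option autoImplicit false

open scoped BigOperators

namespace Pool.Agent.FM

open Classical Pool.Agent.H41.Fire Pool.Agent.H3.FF Pool.Agent.H13.FG CV TV

/-- the step lemma in natural numbers, for abstract graphs -/
def StepN {V X : Type} (G : SimpleGraph V) (v : V) (ι : X → V) (B1 : Set V)
    (t1 lam1 lam2 l1 a A b Cm : ℕ) : Prop :=
  ∀ P : Set V, v ∉ P → bu G v P t1 = B1 → P.ncard ≤ Cm → b ≤ sig G v ι P →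
    ∃ M : Set V, Disjoint M B1 ∧ M.ncard ≤ l1 ∧
      (t1 + lam1 ≤ P.ncard ∧
        (sig G v ι P ≤ sig G v ι (tch G v P (P.ncard - lam1) ∪ M) + a ∨
          Nat.card X ≤ sig G v ι (tch G v P (P.ncard - lam1) ∪ M) + A)) ∧
      ((t1 + lam2 ≤ P.ncard ∧
          sig G v ι P ≤ sig G v ι (tch G v P (P.ncard - lam2) ∪ M) + A) ∨
        Nat.card X ≤ sig G v ι (tch G v P (P.ncard - lam1) ∪ M) + A)

/-- FIRE-P1. The guards touched by time `T` together with a set `M` that does not meet the fire at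
time `t1`. -/
def SChg : Prop := ∀ (V : Type) [Finite V] (G : SimpleGraph V) (v : V) (P M : Set V) (t1 T : ℕ),
  v ∉ P → Disjoint M (bu G v P t1) → t1 ≤ T →
    v ∉ tch G v P T ∪ M ∧ bu G v (tch G v P T ∪ M) t1 = bu G v P t1 ∧
      (∀ s ≤ T, bu G v (tch G v P T ∪ M) s ⊆ bu G v P s) ∧
      ∀ s, tch G v (tch G v P T ∪ M) s ⊆ tch G v P (min s T) ∪ M

/-- FIRE-P2. The fire is stopped by the touched guards and the front. -/
def SFrt : Prop := ∀ (V : Type) [Finite V] (G : SimpleGraph V) (v : V) (P : Set V) (t : ℕ),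
  v ∉ P → 1 ≤ t → v ∉ P0 G v P t ∧ (∀ s, bu G v (P0 G v P t) s = bu G v P (min s (t - 1))) ∧
    (∀ s < t, tch G v (P0 G v P t) s ⊆ tch G v P s) ∧
    tch G v (P0 G v P t) t = P0 G v P t

/-- FIRE-P3. No admissible set of guards. -/
def SAdm : Prop := ∀ (V X : Type) [Finite V] [Finite X] (G : SimpleGraph V) (v : V) (ι : X → V)
  (B1 : Set V) (t1 lam1 lam2 l1 a A b Cm K0 z : ℕ),
  StepN G v ι B1 t1 lam1 lam2 l1 a A b Cm → 1 ≤ z → z + K0 * l1 ≤ lam1 →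
    b + K0 * a + A ≤ Nat.card X →
    ∀ k ≤ K0, ∀ P : Set V, v ∉ P → bu G v P t1 = B1 → P.ncard ≤ Cm → P.ncard ≤ k * z →
      (∀ s, (tch G v P s).ncard + k * l1 ≤ s + K0 * l1) → b + k * a ≤ sig G v ι P → False

/-- FIRE-P4. The first step. -/
def SFst : Prop := ∀ (V X : Type) [Finite V] [Finite X] (G : SimpleGraph V) (v : V) (ι : X → V)
  (B1 : Set V) (t1 lam1 lam2 l1 a A b Cm K0 z : ℕ),
  StepN G v ι B1 t1 lam1 lam2 l1 a A b Cm → 1 ≤ z → z + K0 * l1 ≤ lam1 →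
    b + K0 * a + A ≤ Nat.card X → 2 ≤ K0 → Cm ≤ (K0 - 2) * z →
    ∀ (P M : Set V) (lam : ℕ), v ∉ P → bu G v P t1 = B1 → P.ncard ≤ Cm →
      Disjoint M B1 → M.ncard ≤ l1 → t1 + lam ≤ P.ncard → 2 * l1 ≤ lam →
      (∀ s ≤ P.ncard - lam, (tch G v P s).ncard ≤ s + l1) →
      b + K0 * a ≤ sig G v ι (tch G v P (P.ncard - lam) ∪ M) → False

/-- FIRE-P5. From the step lemma to the time bound. -/
def SProc : Prop := ∀ (V X : Type) [Finite V] [Finite X] (G : SimpleGraph V) (v : V) (ι : X → V)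
  (U : Set V) (t1 lam1 lam2 l1 a A b Cm K0 z Cg th C7 T : ℕ),
  Hall G v U → StepN G v ι (bu G v U t1) t1 lam1 lam2 l1 a A b Cm →
  (∀ P : Set V, v ∉ P → {x | ∃ t, x ∈ bu G v P t}.ncard + Cg * sig G v ι P ≤
    Cg * (Nat.card X + P.ncard)) →
  1 ≤ z → z + K0 * l1 ≤ lam1 → 2 ≤ K0 → Cm ≤ (K0 - 2) * z → lam1 ≤ lam2 →
  b + (K0 + 2) * a + 2 * A ≤ Nat.card X → b + (K0 + 2) * a + A ≤ th →
  t1 + 2 ≤ C7 → Cg * (A + Cm) < (C7 - (t1 + 2)) * (lam1 - l1) → C7 ≤ T →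
  Nat.card V < (T - C7) * lam2 → T + lam2 + l1 ≤ Cm →
    ub G v ι U T < th

/-- FIRE-P6. The step lemma from the topological block and the geometry. -/
def SComb : Prop := SStepTop → SGeo → SStepG

/-- FIRE-P7. The fire moves by at most one lattice step per time step. -/
def SSpd : Prop := ∀ (K H L : ℕ) [NeZero K], Par K H L → ∀ (v0 : GV K H L) (f0 : TV K H)
  (P : Set (GV K H L)) (t : ℕ), Base v0 f0 →
    ∀ x ∈ bu (G K H L) v0 P t, Nr t f0 (pr x)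

/-- FIRE-P8. The number of burnt vertices. -/
def SFib : Prop := ∀ (K H L : ℕ) [NeZero K], Par K H L → ∀ (v0 : GV K H L)
  (P : Set (GV K H L)), v0 ∉ P →
    {x | ∃ t, x ∈ bu (G K H L) v0 P t}.ncard + 13 * sig (G K H L) v0 tv P ≤
      13 * (Nat.card (TV K H) + P.ncard)

/-- FIRE-P9. Typical starts. -/
def SCnt : Prop := ∀ (K H L : ℕ) [NeZero K], Par K H L → ∀ (D0 R h : ℕ), 1 ≤ R → 1 ≤ h →
  R ≤ H → h ≤ H →
  {v0 : GV K H L | ∀ f, Base v0 f →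
    ¬ (Typ L D0 R f ∧ ∃ (i : ZMod K) (x y : ℕ), f = sq i x y ∧ h ≤ x ∧ h ≤ y ∧ x + h ≤ H ∧
      y + h ≤ H)}.ncard ≤
    13 * (24 * K * R ^ 2 + 6 * K * (H / L + 1) * (2 * D0 + 2) * (H + 1) + 8 * K * h * (H + 1)) ∧
  K * H ^ 2 ≤ Nat.card (TV K H) ∧ Nat.card (TV K H) ≤ K * H ^ 2 + 2 ∧
  Nat.card (GV K H L) ≤ 13 * Nat.card (TV K H)

end Pool.Agent.FM
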