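import Pool.Agent.FM.Stm

/-!
# MP_4c8b8e_co, project FIRE, macro part, block T: the step (assembly)
-/

set_option autoImplicit false

open Classical

namespace Pool.Agent.FM

section

variable {V W : Type}

private theorem st_by_mono {G : SimpleGraph W} {P S : Set W} {u : W} {n n' : ℕ} (h : n ≤ n')
    (hb : By G P S u n) : By G P S u n' := by
  obtain ⟨s, hs, w, hw, hz⟩ := hb
  exact ⟨s, hs, w, hw.trans h, hz⟩

private theorem st_nbh_mono {T : SimpleGraph V} {U U' : Set V} {r r' : ℕ} (hU : U ⊆ U')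
    (hr : r ≤ r') : nbh T U r ⊆ nbh T U' r' := by
  rintro z ⟨u, hu, w, hw⟩
  exact ⟨u, hU hu, w, hw.trans hr⟩

/-- the points outside `X` are far from `U` -/
private theorem st_far_out (F : Fld V) {z : V} (hz : z ∉ F.X) (r' : ℕ) (hr : r' < F.r) :
    z ∉ nbh F.T F.U r' := fun h =>
  hz (Or.inl (st_nbh_mono (le_refl _) hr.le h))

/-- the points of the border of `X` are far from `U` -/
private theorem st_far_bd [Finite V] (hfD : SFilD) (F : Fld V) (F0 : ℕ) (hF : F.Ok F0) {z : V}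
    (hz : z ∈ bdX F.T F.X) (r' : ℕ) (hr : r' < F.r) : z ∉ nbh F.T F.U r' := by
  rcases hz with ⟨h1, _⟩ | ⟨h1, x, hx, hzx⟩
  · exact st_far_out F h1 r' hr
  · exact (hfD V F F0 hF).2.2 z h1 x hx hzx r' hr

/-- the border of `C` is contained in the border of `X` -/
private theorem st_bor {E : Env V W} {m : ℕ} (R : Rea E m) : bor E.T R.C ⊆ bdX E.T E.X := by
  rintro z (⟨h1, y, hy, hzy⟩ | ⟨h1, c, hc, hzc⟩)
  · refine Or.inl ⟨R.CX z h1, y, ?_, hzy⟩
    by_contra h
    exact hy (R.Ccl z h1 y h hzy)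
  · refine Or.inr ⟨?_, c, R.CX c hc, hzc⟩
    by_contra h
    exact h1 (R.Ccl c hc z h hzc.symm)

/-- from mixed paths in a set far from `U` to the time of burning -/
private theorem st_mid [Finite V] [Finite W] (he : SEnvOk) (hD : SCD) (hx : SWalk)
    {F : Fld V} {G : SimpleGraph W} {p : W → V} {P : Set W} {v0 : W}
    {t1 F0 M D C0 Δ q R0 : ℕ} (hA : StA F G p P v0 t1 F0 M D C0 Δ q R0) (A : Set V)
    (hfar : ∀ z ∈ A, ∀ r', r' < F.r → z ∉ nbh F.T F.U r') {b a : W} {n k K : ℕ}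
    (hb : b ∈ Bu G P {v0} t1) (ha : p a ∈ F.gd) (hM : Mix (mkE F G p P v0 t1) A b a n k)
    (hK : k ≤ K) :
    ∃ g : ℕ, M * g ≤ (M + 1) * n + M * (C0 + 1) * (K + 1) ∧
      By G P {v0} a (t1 + g + (6 * Δ + 12) * (dst F D A).ncard) := by
  have hE : (mkE F G p P v0 t1).Ok :=
    he V W F F0 G p P v0 t1 hA.fok hA.ov hA.bl hA.v0P hA.Bbig
  have hO : ContO F.T := (hD V F.T hA.tri hA.hone).1
  have hAZ : A ⊆ {z | z ∉ nbh F.T F.Z R0} := by
    intro z hz hz'
    refine hfar z hz R0 hA.R0r (st_nbh_mono ?_ (le_refl _) hz')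
    exact Set.subset_union_left
  have hbig : ∀ d, F.big d → Disjoint d (nbh F.T A D) := by
    intro d hd
    rw [Set.disjoint_left]
    rintro z hz ⟨u, hu, w, hw⟩
    refine hfar u hu D hA.Dr ⟨z, Or.inr ⟨d, hd, hz⟩, w.reverse, ?_⟩
    rw [SimpleGraph.Walk.length_reverse]
    exact hw
  obtain ⟨g, hg1, hg2⟩ := hx V W (mkE F G p P v0 t1) hE hO F F0 hA.fok rfl hA.bl rfl rfl
    {z | z ∉ nbh F.T F.Z R0} M D C0 Δ hA.M_pos hA.fol hA.deg A hAZ hbig b a n k hb ha hM
  refine ⟨g, hg1.trans ?_, hg2⟩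
  exact Nat.add_le_add_left (Nat.mul_le_mul_left _ (Nat.succ_le_succ hK)) _

private theorem st_pce {E : Env V W} {A : Set V} {u v w : W} {n n' : ℕ} (h : Pce E A u v n)
    (h' : Pce E A v w n') : Pce E A u w (n + n') := by
  rcases h with ⟨rfl, rfl⟩ | ⟨hu, hv, x, hx, hxA⟩
  · rw [Nat.zero_add]
    exact h'
  · rcases h' with ⟨rfl, rfl⟩ | ⟨_, hw, y, hy, hyA⟩
    · exact Or.inr ⟨hu, hv, x, hx, hxA⟩
    · refine Or.inr ⟨hu, hw, x.append y, ?_, ?_⟩
      · rw [SimpleGraph.Walk.length_append, hx, hy]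
      · intro z hz
        rcases (SimpleGraph.Walk.mem_support_append_iff x y).1 hz with h | h
        · exact hxA z h
        · exact hyA z h

private theorem st_pre {E : Env V W} {A : Set V} {u v w : W} {n n' k : ℕ} (h : Pce E A u v n)
    (h' : Mix E A v w n' k) : Mix E A u w (n + n') k := by
  cases h' with
  | one _ _ _ h1 => exact Mix.one u w _ (st_pce h h1)
  | cons _ x x' _ n1 n2 k' h1 h2 h3 h4 h5 =>
    rw [← Nat.add_assoc]
    exact Mix.cons u x x' w (n + n1) n2 k' (st_pce h h1) h2 h3 h4 h5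

/-- a walk outside `X` which starts in `C` stays in `C` -/
private theorem st_stay {E : Env V W} {m : ℕ} (R : Rea E m) {x y : V} (w : E.T.Walk x y)
    (hw : ∀ z ∈ w.support, z ∈ (E.X)ᶜ) (hx : x ∈ R.C) : ∀ z ∈ w.support, z ∈ R.C := by
  induction w with
  | nil =>
    intro z hz
    rw [SimpleGraph.Walk.support_nil, List.mem_singleton] at hz
    rw [hz]
    exact hx
  | cons h w ih =>
    intro z hz
    rw [SimpleGraph.Walk.support_cons, List.mem_cons] at hz
    rcases hz with rfl | hz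
    · exact hx
    · refine ih ?_ ?_ z hz
      · intro z' hz'
        refine hw z' ?_
        rw [SimpleGraph.Walk.support_cons]
        exact List.mem_cons_of_mem _ hz'
      · refine R.Ccl _ hx _ ?_ h
        refine hw _ ?_
        rw [SimpleGraph.Walk.support_cons]
        exact List.mem_cons_of_mem _ w.start_mem_support

/-- chains give mixed paths inside `C` -/
private theorem st_chain {E : Env V W} (hE : E.Ok) {m : ℕ} (R : Rea E m) {a : W} {N : ℕ}
    {θ : ℕ → W} (hc : Chn E R.M R.C R.J a N θ) : ∃ n k, Mix E R.C (θ 0) a n k := by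
  have hP : ∀ i ≤ N, θ i ∉ E.P := by
    intro i hi
    rcases i with _ | i
    · exact (hc.zero).1
    · rcases hc.rel i hi with ⟨_, h, _⟩ | ⟨_, h | h⟩
      · exact hE.gP _ h.1
      · exact (R.MX _ h.1 h.2).1
      · exact hE.gP _ h.1
  have key : ∀ j ≤ N, ∃ n k, Mix E R.C (θ (N - j)) a n k := by
    intro j
    induction j with
    | zero =>
      intro _
      refine ⟨0, 0, ?_⟩
      rw [Nat.sub_zero, hc.last]
      exact Mix.one a a 0 (Or.inl ⟨rfl, rfl⟩)
    | succ j ih =>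
      intro hj
      obtain ⟨n, k, hM⟩ := ih (by omega)
      have e : N - j = N - (j + 1) + 1 := by omega
      rw [e] at hM
      rcases hc.rel (N - (j + 1)) (by omega) with ⟨h1, h2, w, hw⟩ | ⟨h1, _⟩
      · exact ⟨w.length + n, k, st_pre (Or.inr ⟨h1.1, h2.1, w, rfl, st_stay R w hw h1.2⟩) hM⟩
      · exact ⟨0 + n, k + 1, Mix.cons _ _ _ _ 0 n k (Or.inl ⟨rfl, rfl⟩) h1
          (hP _ (by omega)) (hP _ (by omega)) hM⟩
  have := key N (le_refl _)
  rwa [Nat.sub_self] at this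

/-- the walk `ρ`, followed by a walk outside `C` and one step -/
private theorem st_walk {T : SimpleGraph V} {C : Set V} {x t y a : V} (ρ : T.Walk x t)
    (hy : Jn T Cᶜ y t) (ha : T.Adj a y) :
    ∃ ρ' : T.Walk x a, (ρ'.support.countP fun z => z ∈ C) ≤ ρ.length + 2 ∧
      ∀ z, z ∈ C → z ∈ ρ'.support → z ∈ ρ.support ∨ z = a := by
  obtain ⟨w, hw⟩ := hy
  have hw' : ∀ z ∈ w.reverse.support, z ∉ C := by
    intro z hz
    rw [SimpleGraph.Walk.support_reverse, List.mem_reverse] at hz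
    exact hw z hz
  refine ⟨(ρ.append w.reverse).concat ha.symm, ?_, ?_⟩
  · rw [SimpleGraph.Walk.support_concat, SimpleGraph.Walk.support_append,
      List.countP_append, List.countP_append]
    have h1 : (ρ.support.countP fun z => z ∈ C) ≤ ρ.length + 1 := by
      rw [← SimpleGraph.Walk.length_support]
      exact List.countP_le_length
    have h2 : (w.reverse.support.tail.countP fun z => z ∈ C) = 0 := by
      rw [List.countP_eq_zero]
      intro z hz
      simpa using hw' z (List.mem_of_mem_tail hz)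
    have h3 : ([a].countP fun z => z ∈ C) ≤ 1 := List.countP_le_length
    omega
  · intro z hzC hz
    rw [SimpleGraph.Walk.support_concat, List.mem_append,
      SimpleGraph.Walk.mem_support_append_iff, List.mem_singleton] at hz
    rcases hz with (h | h) | h
    · exact Or.inl h
    · exact absurd hzC (hw' z h)
    · exact Or.inr h

private theorem st_jn {T : SimpleGraph V} {A : Set V} {y s s' : V} (h : Jn T A y s')
    (h' : Jn T A s s') : Jn T A y s := by
  obtain ⟨w, hw⟩ := h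
  obtain ⟨w', hw'⟩ := h'
  refine ⟨w.append w'.reverse, ?_⟩
  intro z hz
  rw [SimpleGraph.Walk.mem_support_append_iff, SimpleGraph.Walk.support_reverse,
    List.mem_reverse] at hz
  rcases hz with h | h
  · exact hw z h
  · exact hw' z h

private theorem st_dst [Finite V] (F : Fld V) (D : ℕ) {A B B' : Set V} (h : A ⊆ B ∪ B') :
    (dst F D A).ncard ≤ (dst F D B).ncard + (dst F D B').ncard := by
  refine le_trans (Set.ncard_le_ncard ?_ (Set.toFinite _)) (Set.ncard_union_le _ _)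
  rintro z ⟨d, hd, hz, y, hy, u, hu, w, hw⟩
  rcases h hu with h1 | h1
  · exact Or.inl ⟨d, hd, hz, y, hy, u, h1, w, hw⟩
  · exact Or.inr ⟨d, hd, hz, y, hy, u, h1, w, hw⟩

private theorem st_fib [Finite V] [Finite W] (p : W → V) (hfib : ∀ f, {u | p u = f}.ncard ≤ 13)
    (X : Set V) (S : Set W) (hS : ∀ u ∈ S, p u ∈ X) : S.ncard ≤ 13 * X.ncard := by
  have := Fintype.ofFinite V
  have := Fintype.ofFinite W
  rw [Set.ncard_eq_toFinset_card' S, Set.ncard_eq_toFinset_card' X]
  refine Finset.card_le_mul_card_image_of_maps_to (f := p) ?_ 13 ?_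
  · intro u hu
    rw [Set.mem_toFinset] at hu
    rw [Set.mem_toFinset]
    exact hS u hu
  · intro f _
    refine le_trans ?_ (hfib f)
    rw [Set.ncard_eq_toFinset_card']
    refine Finset.card_le_card ?_
    intro u hu
    rw [Finset.mem_filter] at hu
    rw [Set.mem_toFinset]
    exact hu.2

end

/-- ST: the step -/
theorem sstep (hg : SGrow) (hc : SCut) (hs : SSep) (hn : SNumC) (he : SEnvOk) (hD : SCD)
    (hw : SWalkT) (hx : SWalk) (hfA : SFilA) (hfC : SFilC) (hfD : SFilD) (hfN : SFilN) :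
    SStepT := by
  intro V W _ _ F G p P v0 t1 F0 M D C0 Δ q R0 hA m
  have hE : (mkE F G p P v0 t1).Ok :=
    he V W F F0 G p P v0 t1 hA.fok hA.ov hA.bl hA.v0P hA.Bbig
  have hQ : ContQ F.T := (hD V F.T hA.tri hA.hone).2
  obtain ⟨R⟩ := hg V W (mkE F G p P v0 t1) hE m
  have hXne : F.X.Nonempty := by
    obtain ⟨z, hz⟩ := hA.Zne
    exact ⟨z, Or.inl ⟨z, Or.inl hz, SimpleGraph.Walk.nil, Nat.zero_le _⟩⟩
  have hq : ∃ f : V → Fin q, ∀ x y, x ∉ R.C → y ∉ R.C → f x = f y → Jn F.T R.Cᶜ x y :=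
    hn V W (mkE F G p P v0 t1) hE m R q hXne (hfN V F F0 q hA.fok hA.num)
  have hbor : bor F.T R.C ⊆ bdX F.T F.X := st_bor R
  refine ⟨R.J, R.C, R.L, ?_⟩
  refine ⟨?_, R.L_card, ?_, ?_, R.CX, R.Ccl, R.BC, ?_, ?_⟩
  · refine R.J_le.trans ?_
    exact st_fib p hA.fib F.X _ fun u hu => hu.2
  · intro u hu
    exact (R.LX u hu).1.1
  · intro u hu hu'
    exact (R.LX u hu).2 (R.BM hu')
  · intro a ha haC
    obtain ⟨N, θ, hθ⟩ := R.chain a ha haC
    obtain ⟨n, k, hM⟩ := st_chain hE R hθ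
    obtain ⟨g, _, hg2⟩ := st_mid he hD hx hA R.C
      (fun z hz r' hr => st_far_out F (R.CX z hz) r' hr) hθ.zero ha hM (le_refl k)
    exact ⟨_, hg2⟩
  · intro s hs1 hs2 b hb hbg ρ n g T' h1 h2 h3 s' hs' hj b' hb'
    have hs'' : p s' ∉ R.C := by
      obtain ⟨w, hw⟩ := hj
      exact hw _ w.end_mem_support
    have hT : T' - R.J - 2 + R.J + 2 = T' := by omega
    have key := hs V W (mkE F G p P v0 t1) hE m R (T' - R.J - 2)
      (show t1 ≤ T' - R.J - 2 by omega) s' hs' hs'' ?_ b' hb'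
    · rw [hT] at key
      exact key
    · rintro a ha haC ⟨y, hyC, hay, hyj'⟩
      have hyj : Jn F.T R.Cᶜ y (p s) := st_jn hyj' hj
      have hab : p a ∈ bdX F.T F.X := hbor (Or.inl ⟨haC, y, hyC, hay⟩)
      obtain ⟨ρ', hρ1, hρ2⟩ := st_walk (C := R.C) ρ hyj hay
      obtain ⟨b1, hb1, n', k, hM, hn', hk⟩ := hw V W (mkE F G p P v0 t1) hE hQ m R q hq b hb hbg
        a ha haC ρ'
      have hsub : bor F.T R.C ∪ {z | z ∈ R.C ∧ z ∈ ρ'.support} ⊆
          bdX F.T F.X ∪ {z | z ∈ ρ.support} := by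
        rintro z (hz | ⟨hzC, hz⟩)
        · exact Or.inl (hbor hz)
        · rcases hρ2 z hzC hz with h | h
          · exact Or.inr h
          · refine Or.inl ?_
            rw [h]
            exact hab
      have hfar : ∀ z ∈ bor F.T R.C ∪ {z | z ∈ R.C ∧ z ∈ ρ'.support}, ∀ r', r' < F.r →
          z ∉ nbh F.T F.U r' := by
        rintro z (hz | ⟨hzC, _⟩) r' hr
        · exact st_far_bd hfD F F0 hA.fok (hbor hz) r' hr
        · exact st_far_out F (R.CX z hzC) r' hr
      obtain ⟨g0, hg1, hg2⟩ := st_mid he hD hx hA _ hfar hb1 ha hM hk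
      have hcut : cut F.T R.Cᶜ R.C + cut F.T F.X (F.X ∪ R.C)ᶜ ≤ cut F.T F.X (F.X)ᶜ :=
        hc V W (mkE F G p P v0 t1) m R
      have hn2 : n' ≤ n := by
        have h4 : 4 * n' ≤ 4 * (ρ'.support.countP fun z => z ∈ R.C) + cut F.T R.Cᶜ R.C +
          4 * (q + 2 * R.J + 2) := hn'
        omega
      have hg3 : g0 ≤ g := by
        refine Nat.le_of_mul_le_mul_left ?_ hA.M_pos
        refine hg1.trans (le_trans ?_ h2)
        exact Nat.add_le_add_right (Nat.mul_le_mul_left _ hn2) _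
      refine st_by_mono ?_ hg2
      have h5 : (dst F D (bor F.T R.C ∪ {z | z ∈ R.C ∧ z ∈ ρ'.support})).ncard ≤
          (dst F D (bdX F.T F.X)).ncard + (dst F D {z | z ∈ ρ.support}).ncard :=
        st_dst F D hsub
      have h6 := Nat.mul_le_mul_left (6 * Δ + 12) h5
      show t1 + g0 + (6 * Δ + 12) *
        (dst F D (bor F.T R.C ∪ {z | z ∈ R.C ∧ z ∈ ρ'.support})).ncard ≤ T' - R.J - 2
      omega

end Pool.Agent.FM
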