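import Pool.Agent.FM.Defs

/-!
# MP_4c8b8e_co, project FIRE, macro part: abstract topological block, statements of the rows
-/

set_option autoImplicit false

open Classical

namespace Pool.Agent.FM

/-! ### contours -/

/-- CA: the graph of darts is regular of degree two -/
def SCA : Prop := ∀ (V : Type) [Finite V] (T : SimpleGraph V), Tri T →
  ∀ Y c : Set V, Co T Yᶜ c → ∀ e : Dr T Y c, ((DG T Y c).neighborSet e).ncard = 2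

/-- CB: the graph of darts is connected -/
def SCB : Prop := ∀ (V : Type) [Finite V] (T : SimpleGraph V), Tri T → Hone T →
  ∀ Y c : Set V, Cn T Y → Co T Yᶜ c → (DG T Y c).Preconnected

/-- CC: in a finite connected graph of degree two, distances are at most half of the number of
vertices -/
def SCC : Prop := ∀ (D : Type) [Finite D] (Γ : SimpleGraph D),
  (∀ e, (Γ.neighborSet e).ncard = 2) → Γ.Preconnected →
    ∀ u v : D, ∃ w : Γ.Walk u v, 2 * w.length ≤ Nat.card D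

/-- CD: contours -/
def SCD : Prop := ∀ (V : Type) [Finite V] (T : SimpleGraph V), Tri T → Hone T →
  ContO T ∧ ContQ T

/-! ### growth, separation, Hall's condition -/

/-- G1: the growth procedure -/
def SGrow : Prop := ∀ (V W : Type) [Finite V] [Finite W] (E : Env V W), E.Ok → ∀ m : ℕ,
  Nonempty (Rea E m)

/-- G2: cut edges of `C` and of the unreached part -/
def SCut : Prop := ∀ (V W : Type) [Finite V] [Finite W] (E : Env V W) (m : ℕ) (R : Rea E m),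
  cut E.T R.Cᶜ R.C + cut E.T E.X (E.X ∪ R.C)ᶜ ≤ cut E.T E.X (E.X)ᶜ

/-- G3: separation -/
def SSep : Prop := ∀ (V W : Type) [Finite V] [Finite W] (E : Env V W), E.Ok →
  ∀ (m : ℕ) (R : Rea E m) (n : ℕ), E.t1 ≤ n → ∀ s : W, E.p s ∈ E.gd → E.p s ∉ R.C →
    (∀ a, E.p a ∈ E.gd → E.p a ∈ R.C →
      (∃ y, y ∉ R.C ∧ E.T.Adj (E.p a) y ∧ Jn E.T R.Cᶜ y (E.p s)) → By E.G E.P {E.v0} a n) →
    ∀ b ∈ E.B, ¬ ∃ w : E.G.Walk b s, ∀ z ∈ w.support, z ∉ nxt E R (n + R.J + 2)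

/-- G4: Hall's condition and the base for the new guards -/
def SHall : Prop := ∀ (W : Type) [Finite W] (G : SimpleGraph W) (P L : Set W) (v0 : W)
  (t1 T' s : ℕ), v0 ∉ P → t1 ≤ T' → Hl G P {v0} s → (∀ u ∈ L, u ∉ Bu G P {v0} t1) →
    (∀ u ∈ L, u ∉ P) →
    Hl G (Tch G P {v0} T' ∪ L) {v0} (s + L.ncard) ∧
    (Tch G P {v0} T' ∪ L).ncard ≤ T' + s + L.ncard ∧
    Bu G (Tch G P {v0} T' ∪ L) {v0} t1 = Bu G P {v0} t1

/-! ### dust -/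

/-- D1: walks of `G` can be led around dust clusters -/
def SDust : Prop := ∀ (V W : Type) [Finite V] [Finite W] (T : SimpleGraph V) (G : SimpleGraph W)
  (p : W → V) (P : Set W), Ov T G p → ∀ (𝒟 : Finset (Set V)) (μ : Set V → Set V) (k : Set V → ℕ),
  (∀ d ∈ 𝒟, Co T (p '' P) d ∧ Co T dᶜ (μ d)) →
  (∀ d ∈ 𝒟, ∀ x ∈ μ d, ∀ x' ∈ μ d, At T d x → At T d x' →
    ∃ w : T.Walk x x', w.length ≤ k d ∧ ∀ z ∈ w.support, z ∈ μ d ∧ At T d z) →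
  ∀ (u u' : W), (∀ d ∈ 𝒟, p u ∈ μ d ∧ p u' ∈ μ d) → ∀ g : G.Walk u u',
  (∀ z ∈ g.support, z ∈ P → ∃ d ∈ 𝒟, p z ∈ d) →
    ∃ g' : G.Walk u u', g'.length ≤ g.length + ∑ d ∈ 𝒟, (12 * k d + 12) ∧
      ∀ z ∈ g'.support, z ∉ P

/-! ### mixed paths -/

/-- X1: composition of mixed paths -/
def SMixT : Prop := ∀ (V W : Type) (E : Env V W) (A : Set V) (u v w : W) (n n' k k' : ℕ),
  Mix E A u v n k → Mix E A v w n' k' → Mix E A u w (n + n') (k + k')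

/-- X2: passing one component `Y` of the complement of `C` along a chain -/
def SWalkY : Prop := ∀ (V W : Type) [Finite V] [Finite W] (E : Env V W), E.Ok → ContQ E.T →
  ∀ (m : ℕ) (R : Rea E m) (a : W) (N : ℕ) (θ : ℕ → W), Chn E R.M R.C R.J a N θ →
  ∀ Y : Set V, Co E.T R.Cᶜ Y → ∀ i ≤ N, ∀ j ≤ N, i ≤ j →
  ∀ v : W, E.p v ∈ E.gd → At E.T Y (E.p v) → E.p (θ j) ∉ Y → Jn E.T Yᶜ (E.p (θ j)) (E.p v) →
    (E.p (θ i) ∈ Y → θ i ∉ E.P → ∃ n k, Mix E (bor E.T R.C) (θ i) v n k ∧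
      4 * n ≤ cut E.T Y R.C +
        4 * (((Finset.Icc i j).filter fun l => E.p (θ l) ∈ Y).card + 1) ∧
      k ≤ 2 * ((Finset.Icc i j).filter fun l => E.p (θ l) ∈ Y).card) ∧
    (E.p (θ i) ∉ Y → ∀ u : W, E.p u ∈ E.gd → At E.T Y (E.p u) →
      Jn E.T Yᶜ (E.p u) (E.p (θ i)) → ∃ n k, Mix E (bor E.T R.C) u v n k ∧
      4 * n ≤ cut E.T Y R.C +
        4 * (((Finset.Icc i j).filter fun l => E.p (θ l) ∈ Y).card + 1) ∧
      k ≤ 2 * ((Finset.Icc i j).filter fun l => E.p (θ l) ∈ Y).card)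

/-- X3: walks along an arbitrary walk `ρ` of `T` -/
def SWalkT : Prop := ∀ (V W : Type) [Finite V] [Finite W] (E : Env V W), E.Ok → ContQ E.T →
  ∀ (m : ℕ) (R : Rea E m) (q : ℕ), (∃ f : V → Fin q, ∀ x y, x ∉ R.C → y ∉ R.C → f x = f y →
    Jn E.T R.Cᶜ x y) →
  ∀ b ∈ E.B, E.p b ∈ E.gd → ∀ a, E.p a ∈ E.gd → E.p a ∈ R.C →
  ∀ ρ : E.T.Walk (E.p b) (E.p a), ∃ b' ∈ E.B, ∃ n k : ℕ,
    Mix E (bor E.T R.C ∪ {z | z ∈ R.C ∧ z ∈ ρ.support}) b' a n k ∧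
    4 * n ≤ 4 * (ρ.support.countP fun z => z ∈ R.C) + cut E.T R.Cᶜ R.C + 4 * (q + 2 * R.J + 2) ∧
    k ≤ 2 * R.J + 2

/-- X4: from mixed paths to the time of burning -/
def SWalk : Prop := ∀ (V W : Type) [Finite V] [Finite W] (E : Env V W), E.Ok → ContO E.T →
  ∀ (F : Fld V) (F0 : ℕ), F.Ok F0 → F.T = E.T → F.bl = E.p '' E.P → F.X = E.X → F.gd = E.gd →
  ∀ (Z : Set V) (M D C0 Δ : ℕ), 0 < M → Fol E.T E.G E.p Z M D C0 →
  (∀ z, (E.T.neighborSet z).ncard ≤ Δ) →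
  ∀ (A : Set V), A ⊆ Z → (∀ d, F.big d → Disjoint d (nbh E.T A D)) →
  ∀ (b a : W) (n k : ℕ), b ∈ E.B → E.p a ∈ E.gd → Mix E A b a n k →
    ∃ g : ℕ, M * g ≤ (M + 1) * n + M * (C0 + 1) * (k + 1) ∧
      By E.G E.P {E.v0} a (E.t1 + g + (6 * Δ + 12) *
        {z | ∃ d, F.dus d ∧ z ∈ d ∧ (d ∩ nbh E.T A D).Nonempty}.ncard)

/-! ### fills -/

/-- F1: basic facts about fills -/
def SFilA : Prop := ∀ (V : Type) [Finite V] (F : Fld V) (F0 : ℕ), F.Ok F0 → ∀ d, F.dus d →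
  Co F.T dᶜ (F.mn d) ∧ (F.fil d).ncard ≤ F0 ∧ d ⊆ F.fil d ∧ Cn F.T (F.fil d) ∧
    ∀ z ∈ F.fil d, ∀ w, w ∉ F.fil d → F.T.Adj z w → z ∈ d

/-- F2: fills are nested, or disjoint and not adjacent -/
def SFilB : Prop := ∀ (V : Type) [Finite V] (F : Fld V) (F0 : ℕ), F.Ok F0 → ∀ d d', F.dus d →
  F.dus d' → d ≠ d' → F.fil d ⊆ F.fil d' ∨ F.fil d' ⊆ F.fil d ∨
    (Disjoint (F.fil d) (F.fil d') ∧ ∀ a ∈ F.fil d, ∀ b ∈ F.fil d', ¬ F.T.Adj a b)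

/-- F3: good points and chambers -/
def SFilC : Prop := ∀ (V : Type) [Finite V] (F : Fld V) (F0 : ℕ), F.Ok F0 →
  (∀ z ∈ F.gd, z ∉ F.bl) ∧
  (∀ z x, z ∉ F.X → x ∈ F.X → F.T.Adj z x → z ∈ F.gd) ∧
  (∀ z, z ∉ F.X → z ∉ F.gd → ∃ S : Set V, z ∈ S ∧ S.ncard ≤ F0 ∧ S ∩ F.X = ∅ ∧
    (∀ x ∈ S, Jn F.T (F.X)ᶜ z x) ∧ (∃ y, y ∉ S) ∧
    ∀ y, y ∉ S → At F.T S y → y ∈ F.gd ∧ Jn F.T (F.X)ᶜ z y)

/-- F4: levels of the border of `X` -/
def SFilD : Prop := ∀ (V : Type) [Finite V] (F : Fld V) (F0 : ℕ), F.Ok F0 →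
  (∀ d, F.att d → (d ∩ nbh F.T F.U (F.r + 1)).Nonempty) ∧
  (∀ z ∈ F.X, ∀ x, x ∉ F.X → F.T.Adj z x → z ∈ nbh F.T F.U (F.r + 1 + F.m0)) ∧
  (∀ z ∈ F.X, ∀ x, x ∉ F.X → F.T.Adj z x → ∀ r', r' < F.r → z ∉ nbh F.T F.U r')

/-- F5: the number of border edges of `X` -/
def SFilE : Prop := ∀ (V : Type) [Finite V] (F : Fld V) (F0 Δ : ℕ), F.Ok F0 →
  (∀ z, (F.T.neighborSet z).ncard ≤ Δ) →
    cut F.T F.X (F.X)ᶜ ≤ cut F.T (nbh F.T F.U F.r) (nbh F.T F.U F.r)ᶜ +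
      Δ * {z | (∃ d, F.att d ∧ z ∈ d) ∧ z ∉ nbh F.T F.U F.r}.ncard

/-- F6: the number of components of `X` -/
def SFilN : Prop := ∀ (V : Type) [Finite V] (F : Fld V) (F0 q : ℕ), F.Ok F0 →
  (∃ f : V → Fin q, ∀ x y, x ∈ F.U → y ∈ F.U → f x = f y → Jn F.T F.U x y) →
    ∃ f : V → Fin q, ∀ x y, x ∈ F.X → y ∈ F.X → f x = f y → Jn F.T F.X x y

/-! ### the environment and the step -/

/-- G5: the number of components of the complement of `C` -/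
def SNumC : Prop := ∀ (V W : Type) [Finite V] [Finite W] (E : Env V W), E.Ok →
  ∀ (m : ℕ) (R : Rea E m) (q : ℕ), E.X.Nonempty →
  (∃ f : V → Fin q, ∀ x y, x ∈ E.X → y ∈ E.X → f x = f y → Jn E.T E.X x y) →
    ∃ f : V → Fin q, ∀ x y, x ∉ R.C → y ∉ R.C → f x = f y → Jn E.T R.Cᶜ x y

/-- the environment of guards `P`, start `v0`, base time `t1` and a fill structure -/
def mkE {V W : Type} (F : Fld V) (G : SimpleGraph W) (p : W → V) (P : Set W) (v0 : W) (t1 : ℕ) :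
    Env V W :=
  ⟨F.T, G, p, P, v0, t1, F.X, F.gd⟩

/-- G6: the environment of a fill structure -/
def SEnvOk : Prop := ∀ (V W : Type) [Finite V] [Finite W] (F : Fld V) (F0 : ℕ)
  (G : SimpleGraph W) (p : W → V) (P : Set W) (v0 : W) (t1 : ℕ), F.Ok F0 → Ov F.T G p →
  F.bl = p '' P → v0 ∉ P → (∀ S : Set V, S.ncard ≤ F0 → ∃ u ∈ Bu G P {v0} t1, p u ∉ S) →
    (mkE F G p P v0 t1).Ok

/-- the border of `X` on both sides -/
def bdX {V : Type} (T : SimpleGraph V) (X : Set V) : Set V :=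
  {z | z ∉ X ∧ At T X z} ∪ {z | z ∈ X ∧ At T Xᶜ z}

/-- the points of the dust clusters near `A` -/
def dst {V : Type} (F : Fld V) (D : ℕ) (A : Set V) : Set V :=
  {z | ∃ d, F.dus d ∧ z ∈ d ∧ (d ∩ nbh F.T A D).Nonempty}

/-- the parameters of the step and the assumptions -/
structure StA {V W : Type} (F : Fld V) (G : SimpleGraph W) (p : W → V) (P : Set W) (v0 : W)
    (t1 F0 M D C0 Δ q R0 : ℕ) : Prop where
  fok : F.Ok F0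
  tri : Tri F.T
  hone : Hone F.T
  ov : Ov F.T G p
  fib : ∀ f, {u | p u = f}.ncard ≤ 13
  bl : F.bl = p '' P
  v0P : v0 ∉ P
  Bbig : ∀ S : Set V, S.ncard ≤ F0 → ∃ u ∈ Bu G P {v0} t1, p u ∉ S
  Zne : F.Z.Nonempty
  M_pos : 0 < M
  fol : Fol F.T G p {z | z ∉ nbh F.T F.Z R0} M D C0
  deg : ∀ z, (F.T.neighborSet z).ncard ≤ Δ
  R0r : R0 < F.r
  Dr : D < F.r
  num : ∃ f : V → Fin q, ∀ x y, x ∈ F.U → y ∈ F.U → f x = f y → Jn F.T F.U x y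

/-- the result of the step: `C` = union of the reached chambers, `L` = the new guards -/
structure StR {V W : Type} (F : Fld V) (G : SimpleGraph W) (p : W → V) (P : Set W) (v0 : W)
    (t1 M D C0 Δ q m J : ℕ) (C : Set V) (L : Set W) : Prop where
  J_le : J * (m + 1) ≤ 13 * F.X.ncard
  L_card : L.ncard ≤ m
  LP : ∀ u ∈ L, u ∉ P
  LB : ∀ u ∈ L, u ∉ Bu G P {v0} t1
  CX : ∀ z ∈ C, z ∉ F.X
  Ccl : ∀ z ∈ C, ∀ y, y ∉ F.X → F.T.Adj z y → y ∈ C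
  BC : ∀ u ∈ Bu G P {v0} t1, p u ∈ F.gd → p u ∈ C
  rch : ∀ a, p a ∈ F.gd → p a ∈ C → ∃ n, By G P {v0} a n
  sep : ∀ s, p s ∈ F.gd → p s ∉ C → ∀ b ∈ Bu G P {v0} t1, p b ∈ F.gd →
    ∀ ρ : F.T.Walk (p b) (p s), ∀ n g T' : ℕ,
      4 * (ρ.length + 3) + (cut F.T F.X (F.X)ᶜ - cut F.T F.X (F.X ∪ C)ᶜ) + 4 * (q + 2 * J + 2)
        ≤ 4 * n →
      (M + 1) * n + M * (C0 + 1) * (2 * J + 3) ≤ M * g →
      t1 + g + (6 * Δ + 12) * ((dst F D (bdX F.T F.X)).ncard +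
        (dst F D {z | z ∈ ρ.support}).ncard) + J + 2 ≤ T' →
      ∀ s', p s' ∈ F.gd → Jn F.T Cᶜ (p s) (p s') →
      ∀ b' ∈ Bu G P {v0} t1, ¬ ∃ w : G.Walk b' s', ∀ z ∈ w.support, z ∉ Tch G P {v0} T' ∪ L

/-- ST: the step -/
def SStepT : Prop := ∀ (V W : Type) [Finite V] [Finite W] (F : Fld V) (G : SimpleGraph W)
  (p : W → V) (P : Set W) (v0 : W) (t1 F0 M D C0 Δ q R0 : ℕ),
  StA F G p P v0 t1 F0 M D C0 Δ q R0 → ∀ m : ℕ,
    ∃ (J : ℕ) (C : Set V) (L : Set W), StR F G p P v0 t1 M D C0 Δ q m J C L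

end Pool.Agent.FM
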