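import Pool.Agent.FM.Stm

/-!
# MP_4c8b8e_co, project FIRE: mixed paths compose
-/

set_option autoImplicit false

open Classical

namespace Pool.Agent.FM

theorem x1_pce {V W : Type} {E : Env V W} {A : Set V} {u v w : W} {n n' : ℕ}
    (h : Pce E A u v n) (h' : Pce E A v w n') : Pce E A u w (n + n') := by
  rcases h with ⟨h1, h2⟩ | ⟨hu, hv, p, hp, hpA⟩
  · subst h1 h2
    rw [Nat.zero_add]
    exact h'
  · rcases h' with ⟨h1, h2⟩ | ⟨-, hw, q, hq, hqA⟩
    · subst h1 h2
      exact Or.inr ⟨hu, hv, p, hp, hpA⟩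
    · refine Or.inr ⟨hu, hw, p.append q, by rw [SimpleGraph.Walk.length_append, hp, hq],
        fun z hz => ?_⟩
      rw [SimpleGraph.Walk.mem_support_append_iff] at hz
      exact hz.elim (hpA z) (hqA z)

theorem smixt : SMixT := by
  intro V W E A u v w n n' k k' h
  induction h generalizing w n' k' with
  | one u v n hp =>
    intro h'
    rw [Nat.zero_add]
    cases h' with
    | one _ _ _ hq => exact Mix.one _ _ _ (x1_pce hp hq)
    | cons _ a b _ m m' l hq hab ha hb hm =>
      rw [← Nat.add_assoc]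
      exact Mix.cons _ a b _ _ _ _ (x1_pce hp hq) hab ha hb hm
  | cons u v v' u' n m k hp hab ha hb _ ih =>
    intro h'
    rw [Nat.add_assoc, Nat.add_right_comm]
    exact Mix.cons _ v v' _ _ _ _ hp hab ha hb (ih w n' k' h')

end Pool.Agent.FM
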