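import Pool.Agent.FM.Stm

/-!
# MP_4c8b8e_co, project FIRE, row X2: passing one component of the complement of `C`
along a chain
-/

set_option autoImplicit false

open Classical

namespace Pool.Agent.FM

section

variable {V W : Type}

private theorem x2_jrefl (T : SimpleGraph V) {A : Set V} {a : V} (ha : a ∈ A) : Jn T A a a :=
  ⟨SimpleGraph.Walk.nil, by
    intro z hz
    simp only [SimpleGraph.Walk.support_nil, List.mem_singleton] at hz
    rw [hz]; exact ha⟩

private theorem x2_jsymm (T : SimpleGraph V) {A : Set V} {a b : V} (h : Jn T A a b) :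
    Jn T A b a := by
  obtain ⟨w, hw⟩ := h
  exact ⟨w.reverse, fun z hz => hw z (by simpa using hz)⟩

private theorem x2_jtrans (T : SimpleGraph V) {A : Set V} {a b c : V} (h : Jn T A a b)
    (h' : Jn T A b c) : Jn T A a c := by
  obtain ⟨w, hw⟩ := h
  obtain ⟨w', hw'⟩ := h'
  refine ⟨w.append w', fun z hz => ?_⟩
  rw [SimpleGraph.Walk.mem_support_append_iff] at hz
  exact hz.elim (hw z) (hw' z)

private theorem x2_jadj (T : SimpleGraph V) {A : Set V} {a b : V} (ha : a ∈ A) (hb : b ∈ A)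
    (h : T.Adj a b) : Jn T A a b :=
  ⟨SimpleGraph.Walk.cons h SimpleGraph.Walk.nil, by
    intro z hz
    simp only [SimpleGraph.Walk.support_cons, SimpleGraph.Walk.support_nil, List.mem_cons,
      List.not_mem_nil, or_false] at hz
    rcases hz with rfl | rfl
    · exact ha
    · exact hb⟩

private theorem x2_jend (T : SimpleGraph V) {A : Set V} {a b : V} (h : Jn T A a b) : b ∈ A := by
  obtain ⟨w, hw⟩ := h
  exact hw _ w.end_mem_support

private theorem x2_jstart (T : SimpleGraph V) {A : Set V} {a b : V} (h : Jn T A a b) :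
    a ∈ A := by
  obtain ⟨w, hw⟩ := h
  exact hw _ w.start_mem_support

/-- a walk which starts in a set closed under steps inside `A` stays in it -/
private theorem x2_stay (T : SimpleGraph V) {A S : Set V}
    (hS : ∀ x ∈ S, ∀ y ∈ A, T.Adj x y → y ∈ S) :
    ∀ {a b : V} (w : T.Walk a b), (∀ z ∈ w.support, z ∈ A) → a ∈ S → ∀ z ∈ w.support, z ∈ S := by
  intro a b w
  induction w with
  | nil =>
      intro _ ha z hz
      simp only [SimpleGraph.Walk.support_nil, List.mem_singleton] at hz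
      rw [hz]; exact ha
  | @cons a b c h w ih =>
      intro hA ha z hz
      have hb : b ∈ S := by
        refine hS a ha b (hA b ?_) h
        simp [SimpleGraph.Walk.support_cons]
      rw [SimpleGraph.Walk.support_cons, List.mem_cons] at hz
      rcases hz with rfl | hz
      · exact ha
      · refine ih (fun y hy => hA y ?_) hb z hz
        rw [SimpleGraph.Walk.support_cons, List.mem_cons]
        exact Or.inr hy

/-- the points joined to `a` inside `A` form a component of `A` -/
private theorem x2_comp (T : SimpleGraph V) {A : Set V} {a : V} (ha : a ∈ A) :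
    Co T A {z | Jn T A a z} := by
  refine ⟨⟨⟨a, x2_jrefl T ha⟩, ?_⟩, ?_, ?_⟩
  · intro x hx y hy
    obtain ⟨w, hw⟩ := x2_jtrans T (x2_jsymm T hx) hy
    refine ⟨w, ?_⟩
    have hxS : x ∈ {z | Jn T A a z} := hx
    refine x2_stay T (A := A) (S := {z | Jn T A a z}) ?_ w hw hxS
    intro x' hx' y' hy' hadj
    exact x2_jtrans T hx' (x2_jadj T (x2_jend T hx') hy' hadj)
  · intro z hz
    exact x2_jend T hz
  · intro x hx y hy hadj
    exact x2_jtrans T hx (x2_jadj T (x2_jend T hx) hy hadj)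

private theorem x2_cut_le [Finite V] (T : SimpleGraph V) {A B B' : Set V}
    (h : ∀ a ∈ A, ∀ b ∈ B, T.Adj a b → b ∈ B') : cut T A B ≤ cut T A B' := by
  unfold cut
  refine Nat.card_le_card_of_injective
    (fun e : {e : V × V // e.1 ∈ A ∧ e.2 ∈ B ∧ T.Adj e.1 e.2} =>
      (⟨e.1, e.2.1, h _ e.2.1 _ e.2.2.1 e.2.2.2, e.2.2.2⟩ :
        {e : V × V // e.1 ∈ A ∧ e.2 ∈ B' ∧ T.Adj e.1 e.2})) ?_
  intro e e' he
  have := congrArg Subtype.val he
  exact Subtype.ext this

private theorem x2_cut_add [Finite V] (T : SimpleGraph V) {A B B' B'' : Set V}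
    (h1 : ∀ a ∈ A, ∀ b ∈ B, T.Adj a b → b ∈ B'') (h2 : ∀ b ∈ B', b ∈ B'')
    (h3 : ∀ b ∈ B, b ∉ B') : cut T A B + cut T A B' ≤ cut T A B'' := by
  unfold cut
  rw [← Nat.card_sum]
  refine Nat.card_le_card_of_injective
    (Sum.elim
      (fun e : {e : V × V // e.1 ∈ A ∧ e.2 ∈ B ∧ T.Adj e.1 e.2} =>
        (⟨e.1, e.2.1, h1 _ e.2.1 _ e.2.2.1 e.2.2.2, e.2.2.2⟩ :
          {e : V × V // e.1 ∈ A ∧ e.2 ∈ B'' ∧ T.Adj e.1 e.2}))
      (fun e : {e : V × V // e.1 ∈ A ∧ e.2 ∈ B' ∧ T.Adj e.1 e.2} =>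
        (⟨e.1, e.2.1, h2 _ e.2.2.1, e.2.2.2⟩ :
          {e : V × V // e.1 ∈ A ∧ e.2 ∈ B'' ∧ T.Adj e.1 e.2}))) ?_
  rintro (e | e) (e' | e') he
  · have := congrArg Subtype.val he
    exact congrArg Sum.inl (Subtype.ext this)
  · exfalso
    have h := congrArg Subtype.val he
    have h' : e.1 = e'.1 := h
    exact h3 _ e.2.2.1 (h' ▸ e'.2.2.1)
  · exfalso
    have h := congrArg Subtype.val he
    have h' : e.1 = e'.1 := h
    exact h3 _ e'.2.2.1 (h' ▸ e.2.2.1)
  · have := congrArg Subtype.val he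
    exact congrArg Sum.inr (Subtype.ext this)

private theorem x2_card_step {i j : ℕ} (q : ℕ → Prop) (hi : q i) (hij : i ≤ j) :
    ((Finset.Icc i j).filter fun l => q l).card =
      ((Finset.Icc (i + 1) j).filter fun l => q l).card + 1 := by
  have h1 : Finset.Icc i j = insert i (Finset.Icc (i + 1) j) := by
    ext x
    simp only [Finset.mem_Icc, Finset.mem_insert]
    omega
  rw [h1, Finset.filter_insert, if_pos hi, Finset.card_insert_of_notMem]
  simp

private theorem x2_card_mono {i i' j : ℕ} (q : ℕ → Prop) (hii : i ≤ i') :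
    ((Finset.Icc i' j).filter fun l => q l).card ≤
      ((Finset.Icc i j).filter fun l => q l).card := by
  refine Finset.card_le_card ?_
  intro x hx
  simp only [Finset.mem_filter, Finset.mem_Icc] at hx ⊢
  exact ⟨⟨hii.trans hx.1.1, hx.1.2⟩, hx.2⟩

end

theorem swalky (_hT : SMixT) : SWalkY := by
  intro V W _ _ E hE hQ m R a N θ hθ Y hY i hi j hj hij v hv hvY hjY hjv
  -- facts on points adjacent to Y
  have hYC : ∀ z ∈ Y, z ∉ R.C := fun z hz => hY.2.1 hz
  have hA : ∀ z, z ∉ Y → At E.T Y z → z ∈ R.C := by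
    intro z hz hAt
    obtain ⟨y, hy, hadj⟩ := hAt
    by_contra hzC
    exact hz (hY.2.2 y hy z hzC hadj.symm)
  have hG : ∀ z, z ∉ Y → At E.T Y z → z ∈ E.gd := by
    intro z hz hAt
    have hzC := hA z hz hAt
    obtain ⟨y, hy, hadj⟩ := hAt
    have hyX : y ∈ E.X := by
      by_contra hyX
      exact hYC y hy (R.Ccl z hzC y hyX hadj)
    exact hE.xg z y (R.CX z hzC) hyX hadj
  -- steps
  have hstepP : ∀ l, l + 1 ≤ N → E.p (θ (l + 1)) ∈ Y → θ (l + 1) ∉ E.P := by
    intro l hl hY1
    rcases hθ.rel l (by omega) with h | h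
    · exact absurd h.2.1.2 (hYC _ hY1)
    · rcases h.2 with h2 | h2
      · exact (R.MX _ h2.1 h2.2).1
      · exact absurd h2.2 (hYC _ hY1)
  have hstepA : ∀ l, l + 1 ≤ N → (E.p (θ l) ∈ Y ∨ E.p (θ (l + 1)) ∈ Y) →
      E.G.Adj (θ l) (θ (l + 1)) := by
    intro l hl hor
    rcases hθ.rel l (by omega) with h | h
    · rcases hor with h' | h'
      · exact absurd h.1.2 (hYC _ h')
      · exact absurd h.2.1.2 (hYC _ h')
    · exact h.1
  -- contour pieces
  have hpiece : ∀ c : Set V, Co E.T Yᶜ c → ∀ x ∈ c, ∀ x' ∈ c, At E.T Y x → At E.T Y x' →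
      ∃ w : E.T.Walk x x', 4 * w.length ≤ cut E.T Y c + 4 ∧
        ∀ z ∈ w.support, z ∈ bor E.T R.C := by
    intro c hc x hx x' hx' hxY hx'Y
    obtain ⟨w, hw1, hw2⟩ := hQ Y c hY.1 hc x hx x' hx' hxY hx'Y
    refine ⟨w, hw1, ?_⟩
    intro z hz
    rcases hw2 z hz with ⟨hzc, hzY⟩ | ⟨hzY, hzc⟩
    · left
      have hznY : z ∉ Y := hc.2.1 hzc
      refine ⟨hA z hznY hzY, ?_⟩
      obtain ⟨y, hy, hadj⟩ := hzY
      exact ⟨y, hYC y hy, hadj⟩
    · right
      refine ⟨hYC z hzY, ?_⟩
      obtain ⟨y, hy, hadj⟩ := hzc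
      have hyY : y ∉ Y := hc.2.1 hy
      exact ⟨y, hA y hyY ⟨z, hzY, hadj.symm⟩, hadj⟩
  -- the visited components
  obtain ⟨Vis, hVis⟩ : ∃ Vis : ℕ → Set V, ∀ i, Vis i =
      {z | z ∈ R.C ∧ ∃ l, i ≤ l ∧ l ≤ j ∧ Jn E.T Yᶜ (E.p (θ l)) z} := ⟨_, fun _ => rfl⟩
  have hVmono : ∀ i i', i ≤ i' → ∀ z ∈ Vis i', z ∈ Vis i := by
    intro i i' hii z hz
    rw [hVis] at hz ⊢
    obtain ⟨h1, l, h2, h3, h4⟩ := hz
    exact ⟨h1, l, hii.trans h2, h3, h4⟩
  have main : ∀ d i, i ≤ j → j - i ≤ d →
      (E.p (θ i) ∈ Y → θ i ∉ E.P → ∃ n k, Mix E (bor E.T R.C) (θ i) v n k ∧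
        4 * n ≤ cut E.T Y (Vis i) +
          4 * ((Finset.Icc i j).filter fun l => E.p (θ l) ∈ Y).card ∧
        k + 1 ≤ 2 * ((Finset.Icc i j).filter fun l => E.p (θ l) ∈ Y).card) ∧
      (E.p (θ i) ∉ Y → ∀ u : W, E.p u ∈ E.gd → At E.T Y (E.p u) →
        Jn E.T Yᶜ (E.p u) (E.p (θ i)) → ∃ n k, Mix E (bor E.T R.C) u v n k ∧
        4 * n ≤ cut E.T Y (Vis i) +
          4 * (((Finset.Icc i j).filter fun l => E.p (θ l) ∈ Y).card + 1) ∧
        k ≤ 2 * ((Finset.Icc i j).filter fun l => E.p (θ l) ∈ Y).card) := by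
    intro d
    induction d using Nat.strong_induction_on with
    | _ d ih =>
      intro i hij hd
      constructor
      · intro hiY hiP
        have hlt : i < j := by
          rcases Nat.lt_or_ge i j with h | h
          · exact h
          · have : i = j := le_antisymm hij h
            exact absurd (this ▸ hiY) hjY
        have hadj := hstepA i (by omega) (Or.inl hiY)
        have hcard := x2_card_step (j := j) (fun l => E.p (θ l) ∈ Y) hiY hij
        have hmono : cut E.T Y (Vis (i + 1)) ≤ cut E.T Y (Vis i) :=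
          x2_cut_le E.T fun _ _ b hb _ => hVmono i (i + 1) (by omega) b hb
        by_cases h1 : E.p (θ (i + 1)) ∈ Y
        · have hP1 := hstepP i (by omega) h1
          obtain ⟨n, k, hM, hn, hk⟩ := (ih (j - (i + 1)) (by omega) (i + 1) (by omega)
            le_rfl).1 h1 hP1
          refine ⟨0 + n, k + 1, Mix.cons (θ i) (θ i) (θ (i + 1)) v 0 n k (Or.inl ⟨rfl, rfl⟩)
            hadj hiP hP1 hM, ?_, ?_⟩
          · omega
          · omega
        · have hAt1 : At E.T Y (E.p (θ (i + 1))) := by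
            rcases hE.ov.adj _ _ hadj with h | h
            · exact absurd (h ▸ hiY) h1
            · exact ⟨_, hiY, h.symm⟩
          have hg1 := hG _ h1 hAt1
          have hP1 : θ (i + 1) ∉ E.P := hE.gP _ hg1
          obtain ⟨n, k, hM, hn, hk⟩ := (ih (j - (i + 1)) (by omega) (i + 1) (by omega)
            le_rfl).2 h1 (θ (i + 1)) hg1 hAt1 (x2_jrefl E.T h1)
          refine ⟨0 + n, k + 1, Mix.cons (θ i) (θ i) (θ (i + 1)) v 0 n k (Or.inl ⟨rfl, rfl⟩)
            hadj hiP hP1 hM, ?_, ?_⟩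
          · omega
          · omega
      · intro hiY u hu huY hui
        have hc0 := x2_comp E.T (A := Yᶜ) (a := E.p (θ i)) hiY
        -- the last index over the component
        obtain ⟨l0, hl0, hmax⟩ : ∃ l0, (i ≤ l0 ∧ l0 ≤ j ∧ Jn E.T Yᶜ (E.p (θ i)) (E.p (θ l0))) ∧
            ∀ l, i ≤ l → l ≤ j → Jn E.T Yᶜ (E.p (θ i)) (E.p (θ l)) → l ≤ l0 := by
          have hne : ((Finset.Icc i j).filter fun l =>
              Jn E.T Yᶜ (E.p (θ i)) (E.p (θ l))).Nonempty :=
            ⟨i, by
              simp only [Finset.mem_filter, Finset.mem_Icc]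
              exact ⟨⟨le_rfl, hij⟩, x2_jrefl E.T hiY⟩⟩
          refine ⟨Finset.max' _ hne, ?_, ?_⟩
          · have := Finset.max'_mem _ hne
            simp only [Finset.mem_filter, Finset.mem_Icc] at this
            exact ⟨this.1.1, this.1.2, this.2⟩
          · intro l h1 h2 h3
            refine Finset.le_max' _ _ ?_
            simp only [Finset.mem_filter, Finset.mem_Icc]
            exact ⟨⟨h1, h2⟩, h3⟩
        obtain ⟨hil0, hl0j, hJ0⟩ := hl0
        rcases Nat.lt_or_ge l0 j with hlt | hge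
        · -- leave the component
          have hnot : ¬ Jn E.T Yᶜ (E.p (θ i)) (E.p (θ (l0 + 1))) := by
            intro h
            have := hmax (l0 + 1) (by omega) (by omega) h
            omega
          have hl0Y : E.p (θ l0) ∉ Y := x2_jend E.T hJ0
          have hY1 : E.p (θ (l0 + 1)) ∈ Y ∧ E.T.Adj (E.p (θ l0)) (E.p (θ (l0 + 1))) := by
            rcases hθ.rel l0 (by omega) with h | h
            · exfalso
              obtain ⟨⟨_, hC0⟩, ⟨_, hC1⟩, w, hw⟩ := h
              have hst := x2_stay E.T (A := E.Xᶜ) (S := R.C)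
                (fun x hx y hy hadj => R.Ccl x hx y hy hadj) w hw hC0
              refine hnot (x2_jtrans E.T hJ0 ⟨w, fun z hz => ?_⟩)
              intro hzY
              exact hYC z hzY (hst z hz)
            · by_contra hcon
              have h1Y : E.p (θ (l0 + 1)) ∉ Y ∨ ¬ E.T.Adj (E.p (θ l0)) (E.p (θ (l0 + 1))) := by
                by_contra hh
                push Not at hh
                exact hcon hh
              rcases hE.ov.adj _ _ h.1 with he | he
              · exact hnot (he ▸ hJ0)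
              · rcases h1Y with h1Y | h1Y
                · exact hnot (x2_jtrans E.T hJ0 (x2_jadj E.T hl0Y h1Y he))
                · exact h1Y he
          obtain ⟨h1Y, hT1⟩ := hY1
          have hadj := hstepA l0 (by omega) (Or.inr h1Y)
          have hAt0 : At E.T Y (E.p (θ l0)) := ⟨_, h1Y, hT1⟩
          have hg0 := hG _ hl0Y hAt0
          have hP0 : θ l0 ∉ E.P := hE.gP _ hg0
          have hP1 := hstepP l0 (by omega) h1Y
          obtain ⟨w, hw1, hw2⟩ := hpiece _ hc0 (E.p u) (x2_jsymm E.T hui) (E.p (θ l0)) hJ0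
            huY hAt0
          obtain ⟨n, k, hM, hn, hk⟩ := (ih (j - (l0 + 1)) (by omega) (l0 + 1) (by omega)
            le_rfl).1 h1Y hP1
          refine ⟨w.length + n, k + 1, Mix.cons u (θ l0) (θ (l0 + 1)) v w.length n k
            (Or.inr ⟨hu, hg0, w, rfl, hw2⟩) hadj hP0 hP1 hM, ?_, ?_⟩
          · have hcut : cut E.T Y {z | Jn E.T Yᶜ (E.p (θ i)) z} + cut E.T Y (Vis (l0 + 1)) ≤
                cut E.T Y (Vis i) := by
              refine x2_cut_add E.T ?_ ?_ ?_
              · intro y hy z hz hadj'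
                rw [hVis]
                have hzY : z ∉ Y := x2_jend E.T hz
                exact ⟨hA z hzY ⟨y, hy, hadj'.symm⟩, i, le_rfl, hij, hz⟩
              · intro z hz
                exact hVmono i (l0 + 1) (by omega) z hz
              · intro z hz hz'
                rw [hVis] at hz'
                obtain ⟨_, l, hl1, hl2, hl3⟩ := hz'
                have := hmax l (by omega) hl2 (x2_jtrans E.T hz (x2_jsymm E.T hl3))
                omega
            have hcard := x2_card_mono (i := i) (i' := l0 + 1) (j := j)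
              (fun l => E.p (θ l) ∈ Y) (by omega)
            omega
          · have hcard := x2_card_mono (i := i) (i' := l0 + 1) (j := j)
              (fun l => E.p (θ l) ∈ Y) (by omega)
            omega
        · have hl0eq : l0 = j := le_antisymm hl0j hge
          subst hl0eq
          obtain ⟨w, hw1, hw2⟩ := hpiece _ hc0 (E.p u) (x2_jsymm E.T hui) (E.p v)
            (x2_jtrans E.T hJ0 hjv) huY hvY
          refine ⟨w.length, 0, Mix.one u v w.length (Or.inr ⟨hu, hv, w, rfl, hw2⟩), ?_,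
            Nat.zero_le _⟩
          have hcut : cut E.T Y {z | Jn E.T Yᶜ (E.p (θ i)) z} ≤ cut E.T Y (Vis i) := by
            refine x2_cut_le E.T ?_
            intro y hy z hz hadj'
            rw [hVis]
            have hzY : z ∉ Y := x2_jend E.T hz
            exact ⟨hA z hzY ⟨y, hy, hadj'.symm⟩, i, le_rfl, hij, hz⟩
          omega
  have hVC : cut E.T Y (Vis i) ≤ cut E.T Y R.C := by
    refine x2_cut_le E.T ?_
    intro _ _ z hz _
    rw [hVis] at hz
    exact hz.1
  have hmain := main (j - i) i hij le_rfl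
  constructor
  · intro h1 h2
    obtain ⟨n, k, hM, hn, hk⟩ := hmain.1 h1 h2
    exact ⟨n, k, hM, by omega, by omega⟩
  · intro h1 u h2 h3 h4
    obtain ⟨n, k, hM, hn, hk⟩ := hmain.2 h1 u h2 h3 h4
    exact ⟨n, k, hM, by omega, by omega⟩

end Pool.Agent.FM
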