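import Pool.Agent.FM.Stm

/-!
# MP_4c8b8e_co, project FIRE, macro part, row X3: walks along an arbitrary walk of `T`
-/

set_option autoImplicit false

open Classical

namespace Pool.Agent.FM

section walks

variable {V : Type} {T : SimpleGraph V}

theorem x3_jrefl {A : Set V} {a : V} (h : a ∈ A) : Jn T A a a :=
  ⟨SimpleGraph.Walk.nil, fun z hz => by
    rw [SimpleGraph.Walk.support_nil, List.mem_singleton] at hz
    rw [hz]
    exact h⟩

theorem x3_jsymm {A : Set V} {a b : V} (h : Jn T A a b) : Jn T A b a := by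
  obtain ⟨w, hw⟩ := h
  exact ⟨w.reverse, fun z hz => hw z (by
    rwa [SimpleGraph.Walk.support_reverse, List.mem_reverse] at hz)⟩

theorem x3_jtrans {A : Set V} {a b c : V} (h : Jn T A a b) (h' : Jn T A b c) : Jn T A a c := by
  obtain ⟨w, hw⟩ := h
  obtain ⟨w', hw'⟩ := h'
  refine ⟨w.append w', fun z hz => ?_⟩
  rcases (SimpleGraph.Walk.mem_support_append_iff _ _).1 hz with h1 | h1
  · exact hw z h1
  · exact hw' z h1

theorem x3_jmono {A B : Set V} (hAB : A ⊆ B) {a b : V} (h : Jn T A a b) : Jn T B a b := by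
  obtain ⟨w, hw⟩ := h
  exact ⟨w, fun z hz => hAB (hw z hz)⟩

theorem x3_jadj {A : Set V} {a b : V} (ha : a ∈ A) (hb : b ∈ A) (h : T.Adj a b) : Jn T A a b :=
  ⟨SimpleGraph.Walk.cons h SimpleGraph.Walk.nil, fun z hz => by
    rw [SimpleGraph.Walk.support_cons, SimpleGraph.Walk.support_nil, List.mem_cons,
      List.mem_singleton] at hz
    rcases hz with h1 | h1
    · rw [h1]
      exact ha
    · rw [h1]
      exact hb⟩

theorem x3_last (Q : V → Prop) : ∀ {x y : V} (w : T.Walk x y), (∃ z ∈ w.support, Q z) → ¬ Q y →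
    ∃ (y0 z0 : V) (_ : T.Adj y0 z0) (wa : T.Walk x y0) (wb : T.Walk z0 y), Q y0 ∧
      (∀ z ∈ wb.support, ¬ Q z) ∧ w.support = wa.support ++ wb.support ∧
      w.length = wa.length + 1 + wb.length
  | x, _, .nil, hz, hy => by
    obtain ⟨z, hz, hq⟩ := hz
    rw [SimpleGraph.Walk.support_nil, List.mem_singleton] at hz
    rw [hz] at hq
    exact absurd hq hy
  | x, y, .cons (v := v) h w, hz, hy => by
    by_cases hex : ∃ z ∈ w.support, Q z
    · obtain ⟨y0, z0, hadj, wa, wb, h1, h2, h3, h4⟩ := x3_last Q w hex hy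
      refine ⟨y0, z0, hadj, .cons h wa, wb, h1, h2, ?_, ?_⟩
      · rw [SimpleGraph.Walk.support_cons, SimpleGraph.Walk.support_cons, h3, List.cons_append]
      · rw [SimpleGraph.Walk.length_cons, SimpleGraph.Walk.length_cons, h4]
        omega
    · push Not at hex
      have hx : Q x := by
        obtain ⟨z, hz, hq⟩ := hz
        rw [SimpleGraph.Walk.support_cons, List.mem_cons] at hz
        rcases hz with h1 | h1
        · rw [← h1]
          exact hq
        · exact absurd hq (hex z h1)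
      refine ⟨x, v, h, .nil, w, hx, hex, ?_, ?_⟩
      · rw [SimpleGraph.Walk.support_cons, SimpleGraph.Walk.support_nil, List.singleton_append]
      · rw [SimpleGraph.Walk.length_cons, SimpleGraph.Walk.length_nil]
        omega

theorem x3_first (Q : V → Prop) : ∀ {x y : V} (w : T.Walk x y), (∃ z ∈ w.support, Q z) → ¬ Q x →
    ∃ (z0 y0 : V) (_ : T.Adj z0 y0) (wa : T.Walk x z0) (wb : T.Walk y0 y), Q y0 ∧
      (∀ z ∈ wa.support, ¬ Q z) ∧ w.support = wa.support ++ wb.support ∧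
      w.length = wa.length + 1 + wb.length
  | x, _, .nil, hz, hx => by
    obtain ⟨z, hz, hq⟩ := hz
    rw [SimpleGraph.Walk.support_nil, List.mem_singleton] at hz
    rw [hz] at hq
    exact absurd hq hx
  | x, y, .cons (v := v) h w, hz, hx => by
    by_cases hv : Q v
    · refine ⟨x, v, h, .nil, w, hv, ?_, ?_, ?_⟩
      · intro z hz
        rw [SimpleGraph.Walk.support_nil, List.mem_singleton] at hz
        rw [hz]
        exact hx
      · rw [SimpleGraph.Walk.support_cons, SimpleGraph.Walk.support_nil, List.singleton_append]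
      · rw [SimpleGraph.Walk.length_cons, SimpleGraph.Walk.length_nil]
        omega
    · have hex : ∃ z ∈ w.support, Q z := by
        obtain ⟨z, hz, hq⟩ := hz
        rw [SimpleGraph.Walk.support_cons, List.mem_cons] at hz
        rcases hz with h1 | h1
        · rw [h1] at hq
          exact absurd hq hx
        · exact ⟨z, h1, hq⟩
      obtain ⟨z0, y0, hadj, wa, wb, h1, h2, h3, h4⟩ := x3_first Q w hex hv
      refine ⟨z0, y0, hadj, .cons h wa, wb, h1, ?_, ?_, ?_⟩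
      · intro z hz
        rw [SimpleGraph.Walk.support_cons, List.mem_cons] at hz
        rcases hz with h5 | h5
        · rw [h5]
          exact hx
        · exact h2 z h5
      · rw [SimpleGraph.Walk.support_cons, SimpleGraph.Walk.support_cons, h3, List.cons_append]
      · rw [SimpleGraph.Walk.length_cons, SimpleGraph.Walk.length_cons, h4]
        omega

/-- a walk inside `A` that starts in the closed set `Y` stays in `Y` -/
theorem x3_stay {A Y : Set V} (hY : ∀ a ∈ Y, ∀ b ∈ A, T.Adj a b → b ∈ Y) :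
    ∀ {x y : V} (w : T.Walk x y), (∀ z ∈ w.support, z ∈ A) → x ∈ Y → ∀ z ∈ w.support, z ∈ Y
  | x, _, .nil, _, hx => by
    intro z hz
    rw [SimpleGraph.Walk.support_nil, List.mem_singleton] at hz
    rw [hz]
    exact hx
  | x, y, .cons (v := v) h w, hA, hx => by
    intro z hz
    rw [SimpleGraph.Walk.support_cons, List.mem_cons] at hz
    rcases hz with h1 | h1
    · rw [h1]
      exact hx
    · have hA' : ∀ z ∈ w.support, z ∈ A := fun z hz => hA z (by
        rw [SimpleGraph.Walk.support_cons]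
        exact List.mem_cons_of_mem _ hz)
      exact x3_stay hY w hA' (hY x hx v (hA' v w.start_mem_support) h) z h1

theorem x3_co_sub {A Y Y' : Set V} (h : Co T A Y) (h' : Co T A Y') {z : V} (hz : z ∈ Y)
    (hz' : z ∈ Y') : Y ⊆ Y' := by
  intro y hy
  obtain ⟨w, hw⟩ := h.1.2 z hz y hy
  exact x3_stay h'.2.2 w (fun a ha => h.2.1 (hw a ha)) hz' y w.end_mem_support

/-- components with a common point are equal -/
theorem x3_co_eq {A Y Y' : Set V} (h : Co T A Y) (h' : Co T A Y') {z : V} (hz : z ∈ Y)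
    (hz' : z ∈ Y') : Y = Y' :=
  Set.Subset.antisymm (x3_co_sub h h' hz hz') (x3_co_sub h' h hz' hz)

/-- every point lies in a component -/
theorem x3_co_ex {A : Set V} {y : V} (hy : y ∈ A) : ∃ Y, Co T A Y ∧ y ∈ Y := by
  have hcl : ∀ a ∈ {z | Jn T A y z}, ∀ b ∈ A, T.Adj a b → b ∈ {z | Jn T A y z} := by
    intro a ha b hb hab
    have ha' : Jn T A y a := ha
    have haA : a ∈ A := by
      obtain ⟨w, hw⟩ := ha'
      exact hw a w.end_mem_support
    exact x3_jtrans ha' (x3_jadj haA hb hab)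
  refine ⟨{z | Jn T A y z}, ⟨⟨⟨y, x3_jrefl hy⟩, fun a ha b hb => ?_⟩, ?_, hcl⟩, x3_jrefl hy⟩
  · obtain ⟨w, hw⟩ := x3_jtrans (x3_jsymm ha) hb
    exact ⟨w, x3_stay hcl w hw ha⟩
  · rintro z ⟨w, hw⟩
    exact hw z w.end_mem_support

theorem x3_co_dis {A Y Y' : Set V} (h : Co T A Y) (h' : Co T A Y') (hne : Y ≠ Y') :
    Y ⊆ Y'ᶜ := fun _ hz hz' => hne (x3_co_eq h h' hz hz')

end walks

section

variable {V W : Type}

/-- projection of walks of `G` -/
theorem x3_proj {T : SimpleGraph V} {G : SimpleGraph W} {p : W → V} (hov : Ov T G p)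
    {Y : Set V} : ∀ {u v : W} (g : G.Walk u v), (∀ z ∈ g.support, p z ∈ Y) → Jn T Y (p u) (p v)
  | u, _, .nil, h => x3_jrefl (h u (by
      rw [SimpleGraph.Walk.support_nil]
      exact List.mem_singleton_self u))
  | u, v, .cons (v := u') hadj g, h => by
    have h' : ∀ z ∈ g.support, p z ∈ Y := fun z hz => h z (by
      rw [SimpleGraph.Walk.support_cons]
      exact List.mem_cons_of_mem _ hz)
    have hu : p u ∈ Y := h u (by
      rw [SimpleGraph.Walk.support_cons]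
      exact List.mem_cons_self)
    have hu' : p u' ∈ Y := h' u' g.start_mem_support
    have h1 := x3_proj hov g h'
    rcases hov.adj u u' hadj with h2 | h2
    · rw [h2]
      exact h1
    · exact x3_jtrans (x3_jadj hu hu' h2) h1

/-- vertices of the base are joined to the start inside the base -/
theorem x3_Bpath (E : Env V W) {u : W} (hu : u ∈ E.B) :
    ∃ w : E.G.Walk E.v0 u, ∀ z ∈ w.support, z ∈ E.B := by
  obtain ⟨huP, s, hs, w, hw, hwP⟩ := hu
  rw [Set.mem_singleton_iff] at hs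
  subst hs
  have h1 : ∀ z ∈ w.support, z ∉ E.P := by
    intro z hz hzP
    have := hwP z hz hzP
    rw [this] at hzP
    exact huP hzP
  refine ⟨w, fun z hz => ⟨h1 z hz, E.v0, Set.mem_singleton _, w.takeUntil z hz, ?_, ?_⟩⟩
  · exact (w.length_takeUntil_le_length hz).trans hw
  · intro y hy hyP
    exact absurd hyP (h1 y (w.support_takeUntil_subset_support hz hy))

theorem x3_Bwalk (E : Env V W) {u u' : W} (hu : u ∈ E.B) (hu' : u' ∈ E.B) :
    ∃ w : E.G.Walk u u', ∀ z ∈ w.support, z ∈ E.B := by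
  obtain ⟨w, hw⟩ := x3_Bpath E hu
  obtain ⟨w', hw'⟩ := x3_Bpath E hu'
  refine ⟨w.reverse.append w', fun z hz => ?_⟩
  rcases (SimpleGraph.Walk.mem_support_append_iff _ _).1 hz with h1 | h1
  · rw [SimpleGraph.Walk.support_reverse, List.mem_reverse] at h1
    exact hw z h1
  · exact hw' z h1

theorem x3_mono {E : Env V W} {A A' : Set V} (hA : A ⊆ A') {u v : W} {n k : ℕ}
    (h : Mix E A u v n k) : Mix E A' u v n k := by
  have hP : ∀ {u v : W} {n : ℕ}, Pce E A u v n → Pce E A' u v n := by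
    rintro u v n (h | ⟨h1, h2, w, h3, h4⟩)
    · exact Or.inl h
    · exact Or.inr ⟨h1, h2, w, h3, fun z hz => hA (h4 z hz)⟩
  induction h with
  | one u v n h => exact Mix.one u v n (hP h)
  | cons u v v' u' n n' k h1 h2 h3 h4 _ ih => exact Mix.cons u v v' u' n n' k (hP h1) h2 h3 h4 ih

variable [Finite V]

/-- cut edges of different components -/
theorem x3_cut (T : SimpleGraph V) (C : Set V) (𝒴 : Finset (Set V))
    (h : ∀ Y ∈ 𝒴, Co T Cᶜ Y) : ∑ Y ∈ 𝒴, cut T Y C ≤ cut T Cᶜ C := by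
  have hF : Fintype V := Fintype.ofFinite V
  obtain ⟨D, hD, hDc⟩ : ∃ D : Set V → Finset (V × V),
      (∀ A e, e ∈ D A ↔ (e.1 ∈ A ∧ e.2 ∈ C ∧ T.Adj e.1 e.2)) ∧
        ∀ A, cut T A C = (D A).card := by
    refine ⟨fun A => Finset.univ.filter fun e : V × V => e.1 ∈ A ∧ e.2 ∈ C ∧ T.Adj e.1 e.2,
      fun A e => by simp, fun A => ?_⟩
    unfold cut
    rw [Nat.card_eq_fintype_card, Fintype.card_subtype]
  rw [hDc, Finset.sum_congr rfl fun Y _ => hDc Y, ← Finset.card_biUnion]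
  · refine Finset.card_le_card fun e he => ?_
    obtain ⟨Y, hY, he⟩ := Finset.mem_biUnion.1 he
    rw [hD] at he ⊢
    exact ⟨(h Y hY).2.1 he.1, he.2⟩
  · intro Y hY Y' hY' hne
    rw [Function.onFun, Finset.disjoint_left]
    intro e he he'
    rw [hD] at he he'
    exact hne (x3_co_eq (h Y hY) (h Y' hY') he.1 he'.1)

/-- the number of components -/
theorem x3_num (T : SimpleGraph V) (C : Set V) (q : ℕ) (f : V → Fin q)
    (hf : ∀ x y, x ∉ C → y ∉ C → f x = f y → Jn T Cᶜ x y) (𝒴 : Finset (Set V))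
    (h : ∀ Y ∈ 𝒴, Co T Cᶜ Y) : 𝒴.card ≤ q := by
  have h1 : ∀ Y : 𝒴, ∃ y, y ∈ (Y : Set V) := fun Y => (h Y Y.2).1.1
  choose g hg using h1
  have hinj : Function.Injective fun Y : 𝒴 => f (g Y) := by
    intro Y Y' he
    have h2 := (h Y Y.2).2.1 (hg Y)
    have h3 := (h Y' Y'.2).2.1 (hg Y')
    obtain ⟨w, hw⟩ := hf _ _ h2 h3 he
    have h4 := x3_stay (h Y Y.2).2.2 w hw (hg Y) _ w.end_mem_support
    exact Subtype.ext (x3_co_eq (h Y Y.2) (h Y' Y'.2) h4 (hg Y'))
  have h5 := Fintype.card_le_of_injective _ hinj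
  rwa [Fintype.card_coe, Fintype.card_fin] at h5

end

section main

variable {V W : Type} {E : Env V W} {m : ℕ} {R : Rea E m}

/-- points of `C` with a neighbour outside `C` are good -/
theorem x3_good (hE : E.Ok) {z y : V} (hz : z ∈ R.C) (hy : y ∉ R.C) (h : E.T.Adj z y) :
    z ∈ E.gd := by
  have hyX : y ∈ E.X := by
    by_contra hc
    exact hy (R.Ccl z hz y hc h)
  exact hE.xg z y (R.CX z hz) hyX h

/-- the number of vertices of the chain over a set -/
noncomputable def x3_c (E : Env V W) (N : ℕ) (θ : ℕ → W) (Y : Set V) : ℕ :=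
  ((Finset.Icc 0 N).filter fun l => E.p (θ l) ∈ Y).card

theorem x3_cnt {J N : ℕ} {a : W} {θ : ℕ → W} (hθ : Chn E R.M R.C J a N θ)
    (𝒴 : Finset (Set V)) (h : ∀ Y ∈ 𝒴, Co E.T R.Cᶜ Y) :
    ∑ Y ∈ 𝒴, x3_c E N θ Y ≤ J + 1 := by
  unfold x3_c
  rw [← Finset.card_biUnion]
  · have h1 : (𝒴.biUnion fun Y => (Finset.Icc 0 N).filter fun l => E.p (θ l) ∈ Y) ⊆
        insert 0 ((Finset.range (N + 1)).filter fun i => θ i ∈ R.M ∧ θ i ∉ E.B) := by
      intro l hl
      obtain ⟨Y, hY, hl⟩ := Finset.mem_biUnion.1 hl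
      rw [Finset.mem_filter, Finset.mem_Icc] at hl
      rw [Finset.mem_insert]
      rcases Nat.eq_zero_or_pos l with h0 | h0
      · exact Or.inl h0
      · right
        rw [Finset.mem_filter, Finset.mem_range]
        refine ⟨by omega, ?_⟩
        have hlC : E.p (θ l) ∉ R.C := (h Y hY).2.1 hl.2
        have h2 := hθ.rel (l - 1) (by omega)
        have h3 : l - 1 + 1 = l := by omega
        rw [h3] at h2
        rcases h2 with h2 | h2
        · exact absurd h2.2.1.2 hlC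
        · rcases h2.2 with h4 | h4
          · exact h4
          · exact absurd h4.2 hlC
    refine (Finset.card_le_card h1).trans ((Finset.card_insert_le _ _).trans ?_)
    have := hθ.card
    omega
  · intro Y hY Y' hY' hne
    rw [Function.onFun, Finset.disjoint_left]
    intro e he he'
    rw [Finset.mem_filter] at he he'
    exact hne (x3_co_eq (h Y hY) (h Y' hY') he.2 he'.2)

variable [Finite V] [Finite W]

/-- walks along `ρ` when no component on `ρ` is touched by the base -/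
theorem x3_rec (hT : SMixT) (hY : SWalkY) (hE : E.Ok) (hC : ContQ E.T) {N : ℕ} {a : W}
    {θ : ℕ → W} (hθ : Chn E R.M R.C R.J a N θ) (hag : E.p a ∈ E.gd) (haC : E.p a ∈ R.C)
    (A : Set V) (hA : bor E.T R.C ⊆ A) : ∀ (L : ℕ) (x : V) (w : E.T.Walk x (E.p a)),
    w.length ≤ L → (∀ z ∈ w.support, z ∈ R.C → z ∈ A) → ∀ v : W, E.p v = x → x ∈ R.C →
    x ∈ E.gd → (∀ y ∈ w.support, ∀ Y, Co E.T R.Cᶜ Y → y ∈ Y →
      (∀ u ∈ E.B, E.p u ∉ Y) ∧ Jn E.T Yᶜ (E.p (θ 0)) x) →
    ∃ 𝒴 : Finset (Set V), (∀ Y ∈ 𝒴, Co E.T R.Cᶜ Y ∧ ∃ y ∈ w.support, y ∈ Y) ∧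
      ∃ n k, Mix E A v a n k ∧
        4 * n ≤ 4 * (w.support.countP fun z => z ∈ R.C) +
          ∑ Y ∈ 𝒴, (cut E.T Y R.C + 4 * (x3_c E N θ Y + 1)) ∧
        k ≤ ∑ Y ∈ 𝒴, 2 * x3_c E N θ Y := by
  intro L
  induction L with
  | zero =>
    intro x w hL hwA v hv hxC hxg _
    have hl : w.length = 0 := Nat.le_zero.1 hL
    refine ⟨∅, fun Y h => absurd h (Finset.notMem_empty _), 0, 0, ?_, by simp, by simp⟩
    have h1 : ∀ z ∈ w.support, z ∈ A := by
      have h2 : w.support.length = 1 := by rw [SimpleGraph.Walk.length_support, hl]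
      obtain ⟨c, hc⟩ := List.length_eq_one_iff.1 h2
      intro z hz
      have h3 := w.start_mem_support
      refine hwA z hz ?_
      rw [hc, List.mem_singleton] at hz h3
      rw [hz, ← h3]
      exact hxC
    subst hv
    exact Mix.one v a 0 (Or.inr ⟨hxg, hag, w, hl, h1⟩)
  | succ L ih =>
    intro x w hL hwA v hv hxC hxg hinv
    subst hv
    by_cases hex : ∃ z ∈ w.support, z ∉ R.C
    · obtain ⟨z1, y1, hzy, w1, w2, hy1, hw1, hs, hl⟩ :=
        x3_first (fun z => z ∉ R.C) w hex (fun h => h hxC)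
      have hw1C : ∀ z ∈ w1.support, z ∈ R.C := fun z hz => not_not.1 (hw1 z hz)
      have hz1C : z1 ∈ R.C := hw1C z1 w1.end_mem_support
      obtain ⟨Y, hYc, hy1Y⟩ := x3_co_ex (T := E.T) (A := R.Cᶜ) hy1
      obtain ⟨y2, z2, hyz, w21, w3, hy2, hw3, hs2, hl2⟩ :=
        x3_last (fun z => z ∈ Y) w2 ⟨y1, w2.start_mem_support, hy1Y⟩
          (fun h => hYc.2.1 h haC)
      have hz2C : z2 ∈ R.C := by
        by_contra hc
        exact hw3 z2 w3.start_mem_support (hYc.2.2 y2 hy2 z2 hc hyz)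
      have hsub1 : ∀ z ∈ w1.support, z ∈ w.support := fun z hz => by
        rw [hs]
        exact List.mem_append_left _ hz
      have hsub3 : ∀ z ∈ w3.support, z ∈ w.support := fun z hz => by
        rw [hs, hs2]
        exact List.mem_append_right _ (List.mem_append_right _ hz)
      have hy1w : y1 ∈ w.support := by
        rw [hs]
        exact List.mem_append_right _ w2.start_mem_support
      obtain ⟨hunt, hJY⟩ := hinv y1 hy1w Y hYc hy1Y
      have hz1g : z1 ∈ E.gd := x3_good hE hz1C hy1 hzy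
      have hz2g : z2 ∈ E.gd := x3_good hE hz2C (hYc.2.1 hy2) hyz.symm
      obtain ⟨u1, hu1⟩ := hE.ov.sur z1
      obtain ⟨v2, hv2⟩ := hE.ov.sur z2
      have hCY : ∀ z ∈ R.C, ∀ Y', Co E.T R.Cᶜ Y' → z ∈ Y'ᶜ := fun z hz Y' hY' h =>
        hY'.2.1 h hz
      -- from `x` to `z1`
      have hJ1 : ∀ Y', Co E.T R.Cᶜ Y' → Jn E.T Y'ᶜ (E.p v) z1 := fun Y' hY' =>
        ⟨w1, fun z hz => hCY z (hw1C z hz) Y' hY'⟩
      have hpθ : E.p (θ N) = E.p a := by rw [hθ.last]
      have hstep := (hY V W E hE hC m R a N θ hθ Y hYc 0 (Nat.zero_le _) N le_rfl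
        (Nat.zero_le _) v2 (by rw [hv2]; exact hz2g) (by rw [hv2]; exact ⟨y2, hy2, hyz.symm⟩)
        (by rw [hpθ]; exact fun h => hYc.2.1 h haC)
        (by rw [hpθ, hv2]; exact x3_jsymm ⟨w3, fun z hz => hw3 z hz⟩)).2
        (hunt _ hθ.zero) u1 (by rw [hu1]; exact hz1g) (by rw [hu1]; exact ⟨y1, hy1Y, hzy⟩)
        (by rw [hu1]; exact x3_jsymm (x3_jtrans hJY (hJ1 Y hYc)))
      obtain ⟨n1, k1, hm1, hn1, hk1⟩ := hstep
      -- the rest
      have hl3 : w3.length ≤ L := by omega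
      have hinv3 : ∀ y ∈ w3.support, ∀ Y', Co E.T R.Cᶜ Y' → y ∈ Y' →
          (∀ u ∈ E.B, E.p u ∉ Y') ∧ Jn E.T Y'ᶜ (E.p (θ 0)) z2 := by
        intro y hy Y' hY' hyY'
        obtain ⟨h1, h2⟩ := hinv y (hsub3 y hy) Y' hY' hyY'
        refine ⟨h1, ?_⟩
        have hne : Y ≠ Y' := fun h => hw3 y hy (h ▸ hyY')
        have hd := x3_co_dis hYc hY' hne
        obtain ⟨wY, hwY⟩ := hYc.1.2 y1 hy1Y y2 hy2
        refine x3_jtrans h2 (x3_jtrans (hJ1 Y' hY') ?_)
        refine x3_jtrans (x3_jadj (hCY z1 hz1C Y' hY') (hd hy1Y) hzy) ?_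
        refine x3_jtrans ⟨wY, fun z hz => hd (hwY z hz)⟩ ?_
        exact x3_jadj (hd hy2) (hCY z2 hz2C Y' hY') hyz
      obtain ⟨𝒴, h𝒴, n3, k3, hm3, hn3, hk3⟩ := ih z2 w3 hl3 (fun z hz => hwA z (hsub3 z hz)) v2
        hv2 hz2C hz2g hinv3
      have hYn : Y ∉ 𝒴 := by
        intro h
        obtain ⟨_, y, hy, hyY⟩ := h𝒴 Y h
        exact hw3 y hy hyY
      have hm0 : Mix E A v u1 w1.length 0 := by
        subst hu1
        exact Mix.one v u1 _ (Or.inr ⟨hxg, hz1g, w1, rfl,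
          fun z hz => hwA z (hsub1 z hz) (hw1C z hz)⟩)
      have hm := hT V W E A v u1 a _ _ _ _ hm0
        (hT V W E A u1 v2 a _ _ _ _ (x3_mono hA hm1) hm3)
      refine ⟨insert Y 𝒴, ?_, w1.length + (n1 + n3), 0 + (k1 + k3), hm, ?_, ?_⟩
      · intro Y' hY'
        rcases Finset.mem_insert.1 hY' with h | h
        · rw [h]
          exact ⟨hYc, y1, hy1w, hy1Y⟩
        · obtain ⟨h1, y, h2, h3⟩ := h𝒴 Y' h
          exact ⟨h1, y, hsub3 y h2, h3⟩
      · rw [Finset.sum_insert hYn]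
        have h1 : (w.support.countP fun z => z ∈ R.C) ≥
            w1.length + 1 + (w3.support.countP fun z => z ∈ R.C) := by
          rw [hs, hs2, List.countP_append, List.countP_append]
          have h2 : (w1.support.countP fun z => z ∈ R.C) = w1.length + 1 := by
            rw [← SimpleGraph.Walk.length_support, List.countP_eq_length]
            intro z hz
            exact decide_eq_true (hw1C z hz)
          omega
        have h4 : 4 * n1 ≤ cut E.T Y R.C + 4 * (x3_c E N θ Y + 1) := hn1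
        omega
      · rw [Finset.sum_insert hYn]
        have h4 : k1 ≤ 2 * x3_c E N θ Y := hk1
        omega
    · push Not at hex
      refine ⟨∅, fun Y h => absurd h (Finset.notMem_empty _), w.length, 0, ?_, ?_, by simp⟩
      · exact Mix.one v a _ (Or.inr ⟨hxg, hag, w, rfl, fun z hz => hwA z hz (hex z hz)⟩)
      · have h2 : (w.support.countP fun z => z ∈ R.C) = w.length + 1 := by
          rw [← SimpleGraph.Walk.length_support, List.countP_eq_length]
          intro z hz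
          exact decide_eq_true (hex z hz)
        rw [h2, Finset.sum_empty]
        omega

theorem x3_fin {q : ℕ} (f : V → Fin q)
    (hf : ∀ x y, x ∉ R.C → y ∉ R.C → f x = f y → Jn E.T R.Cᶜ x y) {N : ℕ} {a : W}
    {θ : ℕ → W} (hθ : Chn E R.M R.C R.J a N θ) (𝒴 : Finset (Set V))
    (h : ∀ Y ∈ 𝒴, Co E.T R.Cᶜ Y) :
    ∑ Y ∈ 𝒴, (cut E.T Y R.C + 4 * (x3_c E N θ Y + 1)) ≤
      cut E.T R.Cᶜ R.C + 4 * (q + R.J + 1) ∧ ∑ Y ∈ 𝒴, 2 * x3_c E N θ Y ≤ 2 * R.J + 2 := by
  have h1 := x3_cut E.T R.C 𝒴 h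
  have h2 := x3_num E.T R.C q f hf 𝒴 h
  have h3 := x3_cnt hθ 𝒴 h
  rw [Finset.sum_add_distrib, ← Finset.mul_sum, ← Finset.mul_sum, Finset.sum_add_distrib,
    Finset.sum_const, smul_eq_mul, mul_one]
  omega

end main

/-- X3: walks along an arbitrary walk of `T` -/
theorem swalkt (hT : SMixT) (hY : SWalkY) : SWalkT := by
  intro V W _ _ E hE hC m R q hq b hb hbg a hag haC ρ
  obtain ⟨f, hf⟩ := hq
  obtain ⟨N, θ, hθ⟩ := R.chain a hag haC
  have hpθ : E.p (θ N) = E.p a := by rw [hθ.last]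
  by_cases hex : ∃ y ∈ ρ.support, ∃ Y, Co E.T R.Cᶜ Y ∧ y ∈ Y ∧ ∃ u ∈ E.B, E.p u ∈ Y
  · obtain ⟨y0, z0, hyz, ρa, ρb, hQ0, hρb, hs, hl⟩ :=
      x3_last (fun y => ∃ Y, Co E.T R.Cᶜ Y ∧ y ∈ Y ∧ ∃ u ∈ E.B, E.p u ∈ Y) ρ hex
        (by rintro ⟨Y, h1, h2, _⟩; exact h1.2.1 h2 haC)
    obtain ⟨Y0, hY0, hy0, u0, hu0, hu0Y⟩ := hQ0
    have hav : ∀ z ∈ ρb.support, z ∈ Y0ᶜ := fun z hz h => hρb z hz ⟨Y0, hY0, h, u0, hu0, hu0Y⟩
    have hz0C : z0 ∈ R.C := by
      by_contra hc
      exact hav z0 ρb.start_mem_support (hY0.2.2 y0 hy0 z0 hc hyz)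
    have hz0g : z0 ∈ E.gd := x3_good hE hz0C (hY0.2.1 hy0) hyz.symm
    obtain ⟨v, hv⟩ := hE.ov.sur z0
    have hsub : ∀ z ∈ ρb.support, z ∈ ρ.support := fun z hz => by
      rw [hs]
      exact List.mem_append_right _ hz
    have hstep : ∃ b' ∈ E.B, ∃ n k, Mix E (bor E.T R.C) b' v n k ∧
        4 * n ≤ cut E.T Y0 R.C + 4 * (x3_c E N θ Y0 + 1) ∧ k ≤ 2 * x3_c E N θ Y0 := by
      have hyy := hY V W E hE hC m R a N θ hθ Y0 hY0 0 (Nat.zero_le _) N le_rfl
        (Nat.zero_le _) v (by rw [hv]; exact hz0g) (by rw [hv]; exact ⟨y0, hy0, hyz.symm⟩)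
        (by rw [hpθ]; exact fun h => hY0.2.1 h haC)
        (by rw [hpθ, hv]; exact x3_jsymm ⟨ρb, hav⟩)
      by_cases h0 : E.p (θ 0) ∈ Y0
      · obtain ⟨n, k, h1, h2, h3⟩ := hyy.1 h0 hθ.zero.1
        exact ⟨θ 0, hθ.zero, n, k, h1, h2, h3⟩
      · obtain ⟨g, hg⟩ := x3_Bwalk E hθ.zero hu0
        obtain ⟨b', c', hadj, wa, wb, hc', hwa, hs', _⟩ :=
          x3_first (fun z => E.p z ∈ Y0) g ⟨u0, g.end_mem_support, hu0Y⟩ h0
        have hb'B : b' ∈ E.B := hg b' (by
          rw [hs']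
          exact List.mem_append_left _ wa.end_mem_support)
        have hb'Y : E.p b' ∉ Y0 := hwa b' wa.end_mem_support
        have hT' : E.T.Adj (E.p b') (E.p c') := by
          rcases hE.ov.adj b' c' hadj with h | h
          · rw [← h] at hc'
            exact absurd hc' hb'Y
          · exact h
        have hb'C : E.p b' ∈ R.C := by
          by_contra hc
          exact hb'Y (hY0.2.2 _ hc' _ hc hT'.symm)
        obtain ⟨n, k, h1, h2, h3⟩ := hyy.2 h0 b' (x3_good hE hb'C (hY0.2.1 hc') hT')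
          ⟨_, hc', hT'⟩ (x3_jsymm (x3_proj hE.ov wa hwa))
        exact ⟨b', hb'B, n, k, h1, h2, h3⟩
    obtain ⟨b', hb', n, k, hm, hn, hk⟩ := hstep
    have hinv : ∀ y ∈ ρb.support, ∀ Y, Co E.T R.Cᶜ Y → y ∈ Y →
        (∀ u ∈ E.B, E.p u ∉ Y) ∧ Jn E.T Yᶜ (E.p (θ 0)) z0 := by
      intro y hy Y hYc hyY
      have hunt : ∀ u ∈ E.B, E.p u ∉ Y := fun u hu h => hρb y hy ⟨Y, hYc, hyY, u, hu, h⟩
      refine ⟨hunt, ?_⟩
      have hne : Y0 ≠ Y := fun h => hav y hy (h ▸ hyY)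
      have hd := x3_co_dis hY0 hYc hne
      obtain ⟨g, hg⟩ := x3_Bwalk E hθ.zero hu0
      obtain ⟨wY, hwY⟩ := hY0.1.2 _ hu0Y y0 hy0
      refine x3_jtrans (x3_proj hE.ov g fun z hz => hunt z (hg z hz)) ?_
      refine x3_jtrans ⟨wY, fun z hz => hd (hwY z hz)⟩ ?_
      exact x3_jadj (hd hy0) (fun h => hYc.2.1 h hz0C) hyz
    obtain ⟨𝒴, h𝒴, n3, k3, hm3, hn3, hk3⟩ := x3_rec hT hY hE hC hθ hag haC
      (bor E.T R.C ∪ {z | z ∈ R.C ∧ z ∈ ρ.support}) Set.subset_union_left ρb.length z0 ρb le_rfl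
      (fun z hz hzC => Or.inr ⟨hzC, hsub z hz⟩) v hv hz0C hz0g hinv
    have hYn : Y0 ∉ 𝒴 := by
      intro h
      obtain ⟨_, y, hy, hyY⟩ := h𝒴 Y0 h
      exact hav y hy hyY
    obtain ⟨h1, h2⟩ := x3_fin f hf hθ (insert Y0 𝒴) (by
      intro Y h
      rcases Finset.mem_insert.1 h with h | h
      · rw [h]
        exact hY0
      · exact (h𝒴 Y h).1)
    rw [Finset.sum_insert hYn] at h1 h2
    have h3 : (ρb.support.countP fun z => z ∈ R.C) ≤ (ρ.support.countP fun z => z ∈ R.C) := by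
      rw [hs, List.countP_append]
      omega
    refine ⟨b', hb', n + n3, k + k3, hT V W E _ b' v a _ _ _ _
      (x3_mono Set.subset_union_left hm) hm3, ?_, ?_⟩
    · omega
    · omega
  · have hinv : ∀ y ∈ ρ.support, ∀ Y, Co E.T R.Cᶜ Y → y ∈ Y →
        (∀ u ∈ E.B, E.p u ∉ Y) ∧ Jn E.T Yᶜ (E.p (θ 0)) (E.p b) := by
      intro y hy Y hYc hyY
      have hunt : ∀ u ∈ E.B, E.p u ∉ Y := fun u hu h => hex ⟨y, hy, Y, hYc, hyY, u, hu, h⟩
      obtain ⟨g, hg⟩ := x3_Bwalk E hθ.zero hb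
      exact ⟨hunt, x3_proj hE.ov g fun z hz => hunt z (hg z hz)⟩
    obtain ⟨𝒴, h𝒴, n3, k3, hm3, hn3, hk3⟩ := x3_rec hT hY hE hC hθ hag haC
      (bor E.T R.C ∪ {z | z ∈ R.C ∧ z ∈ ρ.support}) Set.subset_union_left ρ.length _ ρ le_rfl
      (fun z hz hzC => Or.inr ⟨hzC, hz⟩) b rfl (R.BC b hb hbg) hbg hinv
    obtain ⟨h1, h2⟩ := x3_fin f hf hθ 𝒴 fun Y h => (h𝒴 Y h).1
    refine ⟨b, hb, n3, k3, hm3, ?_, ?_⟩
    · omega
    · omega

end Pool.Agent.FM
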