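import Pool.Agent.FM.Stm

/-!
# MP_4c8b8e_co, project FIRE, macro part: from mixed paths to the time of burning
-/

set_option autoImplicit false

open Classical

namespace Pool.Agent.FM

section

variable {V W : Type}

/-- the component of a point -/
theorem x4_comp (T : SimpleGraph V) (A : Set V) (z : V) (hz : z ∈ A) :
    Co T A {y | Jn T A z y} := by
  refine ⟨⟨⟨z, SimpleGraph.Walk.nil, ?_⟩, ?_⟩, ?_, ?_⟩
  · intro y hy
    rw [SimpleGraph.Walk.support_nil, List.mem_singleton] at hy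
    rw [hy]
    exact hz
  · rintro a ⟨wa, hwa⟩ b ⟨wb, hwb⟩
    refine ⟨wa.reverse.append wb, fun y hy => ?_⟩
    rw [SimpleGraph.Walk.mem_support_append_iff, SimpleGraph.Walk.support_reverse,
      List.mem_reverse] at hy
    rcases hy with hy | hy
    · exact ⟨wa.takeUntil y hy, fun x hx => hwa x (wa.support_takeUntil_subset_support hy hx)⟩
    · exact ⟨wb.takeUntil y hy, fun x hx => hwb x (wb.support_takeUntil_subset_support hy hx)⟩
  · rintro y ⟨w, hw⟩
    exact hw y w.end_mem_support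
  · rintro a ⟨w, hw⟩ b hb hab
    refine ⟨w.append (SimpleGraph.Walk.cons hab SimpleGraph.Walk.nil), fun y hy => ?_⟩
    rw [SimpleGraph.Walk.mem_support_append_iff] at hy
    rcases hy with hy | hy
    · exact hw y hy
    · rw [SimpleGraph.Walk.support_cons, SimpleGraph.Walk.support_nil] at hy
      rcases List.mem_cons.1 hy with rfl | hy
      · exact hw _ w.end_mem_support
      · rw [List.mem_singleton] at hy
        rw [hy]
        exact hb

/-- a walk inside `A` stays in the component -/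
theorem x4_stay {T : SimpleGraph V} {A c : Set V} (hc : Co T A c) {x y : V} (w : T.Walk x y)
    (hw : ∀ z ∈ w.support, z ∈ A) (hx : x ∈ c) : y ∈ c := by
  induction w with
  | nil => exact hx
  | cons h w ih =>
    refine ih (fun z hz => hw z ?_) (hc.2.2 _ hx _ (hw _ ?_) h)
    · rw [SimpleGraph.Walk.support_cons]
      exact List.mem_cons_of_mem _ hz
    · rw [SimpleGraph.Walk.support_cons]
      exact List.mem_cons_of_mem _ w.start_mem_support

/-- components with a common point are equal -/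
theorem x4_sub {T : SimpleGraph V} {A c c' : Set V} (hc : Co T A c) (hc' : Co T A c') {z : V}
    (hz : z ∈ c) (hz' : z ∈ c') : c ⊆ c' := by
  intro y hy
  obtain ⟨w, hw⟩ := hc.1.2 z hz y hy
  exact x4_stay hc' w (fun x hx => hc.2.1 (hw x hx)) hz'

theorem x4_eq {T : SimpleGraph V} {A c c' : Set V} (hc : Co T A c) (hc' : Co T A c') {z : V}
    (hz : z ∈ c) (hz' : z ∈ c') : c = c' :=
  Set.Subset.antisymm (x4_sub hc hc' hz hz') (x4_sub hc' hc hz' hz)

/-- the number of edges leaving `d` -/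
theorem x4_cut [Finite V] (T : SimpleGraph V) (d c : Set V) (Δ : ℕ)
    (h : ∀ z, (T.neighborSet z).ncard ≤ Δ) : cut T d c ≤ Δ * d.ncard := by
  have := Fintype.ofFinite V
  have : Fintype d := Fintype.ofFinite d
  have h1 : cut T d c ≤ Nat.card (Σ a : d, T.neighborSet (a : V)) := by
    unfold cut
    refine Nat.card_le_card_of_injective
      (fun e : {e : V × V // e.1 ∈ d ∧ e.2 ∈ c ∧ T.Adj e.1 e.2} =>
        (⟨⟨e.1.1, e.2.1⟩, ⟨e.1.2, e.2.2.2⟩⟩ : Σ a : d, T.neighborSet (a : V))) ?_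
    rintro ⟨⟨a, b⟩, h1, h2, h3⟩ ⟨⟨a', b'⟩, h1', h2', h3'⟩ he
    simp only [Sigma.mk.injEq, Subtype.mk.injEq] at he
    obtain ⟨rfl, he2⟩ := he
    have he3 := eq_of_heq he2
    have he4 : b = b' := congrArg Subtype.val he3
    subst he4
    rfl
  have h2 : Nat.card (Σ a : d, T.neighborSet (a : V)) ≤ Δ * d.ncard := by
    rw [Nat.card_sigma]
    calc ∑ a : d, Nat.card (T.neighborSet (a : V)) ≤ ∑ _a : d, Δ :=
          Finset.sum_le_sum fun a _ => h a
      _ = Δ * d.ncard := by
          rw [Finset.sum_const, smul_eq_mul, mul_comm, Finset.card_univ, ← Nat.card_eq_fintype_card]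
          rfl
  exact h1.trans h2

/-- sizes of disjoint sets -/
theorem x4_sum [Finite V] (N : Set V) (s : Finset (Set V)) (hN : ∀ d ∈ s, d ⊆ N)
    (hd : ∀ d ∈ s, ∀ d' ∈ s, d ≠ d' → Disjoint d d') : ∑ d ∈ s, d.ncard ≤ N.ncard := by
  have key : ∀ s : Finset (Set V), (∀ d ∈ s, ∀ d' ∈ s, d ≠ d' → Disjoint d d') →
      ∑ d ∈ s, d.ncard = (⋃ d ∈ s, d).ncard := by
    intro s
    induction s using Finset.induction_on with
    | empty =>
      intro _
      simp
    | insert d s hds ih =>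
      intro hd
      have h1 : (⋃ x ∈ insert d s, x) = d ∪ ⋃ x ∈ s, x := by
        ext z
        simp
      have h2 : Disjoint d (⋃ x ∈ s, x) := by
        rw [Set.disjoint_iUnion_right]
        intro x
        rw [Set.disjoint_iUnion_right]
        intro hx
        refine hd d (Finset.mem_insert_self _ _) x (Finset.mem_insert_of_mem hx) ?_
        rintro rfl
        exact hds hx
      rw [h1, Set.ncard_union_eq h2 (Set.toFinite _) (Set.toFinite _), Finset.sum_insert hds,
        ih fun a ha b hb => hd a (Finset.mem_insert_of_mem ha) b (Finset.mem_insert_of_mem hb)]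
  rw [key s hd]
  refine Set.ncard_le_ncard ?_ (Set.toFinite _)
  intro z hz
  simp only [Set.mem_iUnion] at hz
  obtain ⟨d, hds, hzd⟩ := hz
  exact hN d hds hzd

/-- from mixed paths to walks of `G` -/
theorem x4_mix (E : Env V W) {Z : Set V} {M D C0 : ℕ} (hF : Fol E.T E.G E.p Z M D C0)
    {A : Set V} (hAZ : A ⊆ Z) {u a : W} {n k : ℕ} (h : Mix E A u a n k) (hu : u ∉ E.P)
    (ha : E.p a ∈ E.gd) : ∃ (m : W) (g' : E.G.Walk u m) (g'' : E.G.Walk m a),
      E.p m ∈ E.gd ∧ M * (g'.length + g''.length) ≤ (M + 1) * n + M * (C0 + 1) * (k + 1) ∧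
      (∀ z ∈ g'.support, z ∉ E.P) ∧ ∀ z ∈ g''.support, z ∈ E.P → E.p z ∈ nbh E.T A D := by
  have hfol : ∀ (u v : W) (w : E.T.Walk (E.p u) (E.p v)), (∀ z ∈ w.support, z ∈ A) →
      ∃ g : E.G.Walk u v, M * g.length ≤ (M + 1) * w.length + M * C0 ∧
        ∀ z ∈ g.support, E.p z ∈ nbh E.T A D := by
    intro u v w hw
    obtain ⟨g, h1, h2⟩ := hF _ _ w (fun z hz => hAZ (hw z hz)) u v rfl rfl
    refine ⟨g, h1, fun z hz => ?_⟩
    obtain ⟨x, hx, w', hw'⟩ := h2 z hz
    exact ⟨x, hw x hx, w', hw'⟩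
  induction h with
  | one u v n hp =>
    rcases hp with ⟨rfl, rfl⟩ | ⟨h1, h2, w, rfl, hw⟩
    · refine ⟨u, SimpleGraph.Walk.nil, SimpleGraph.Walk.nil, ha, by simp, fun z hz => ?_,
        fun z hz hzP => ?_⟩
      · rw [SimpleGraph.Walk.support_nil, List.mem_singleton] at hz
        rw [hz]
        exact hu
      · rw [SimpleGraph.Walk.support_nil, List.mem_singleton] at hz
        rw [hz] at hzP
        exact absurd hzP hu
    · obtain ⟨g, h3, h4⟩ := hfol u v w hw
      refine ⟨u, SimpleGraph.Walk.nil, g, h1, ?_, fun z hz => ?_, fun z hz _ => h4 z hz⟩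
      · rw [SimpleGraph.Walk.length_nil, zero_add]
        nlinarith
      · rw [SimpleGraph.Walk.support_nil, List.mem_singleton] at hz
        rw [hz]
        exact hu
  | cons u v v' u' n n' k hp hadj hv hv' _ ih =>
    obtain ⟨m, g', g'', h1, h2, h3, h4⟩ := ih hv' ha
    rcases hp with ⟨rfl, rfl⟩ | ⟨h5, h6, w, rfl, hw⟩
    · refine ⟨m, SimpleGraph.Walk.cons hadj g', g'', h1, ?_, fun z hz => ?_, h4⟩
      · rw [SimpleGraph.Walk.length_cons, zero_add]
        nlinarith
      · rw [SimpleGraph.Walk.support_cons] at hz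
        rcases List.mem_cons.1 hz with rfl | hz
        · exact hv
        · exact h3 z hz
    · obtain ⟨g, h7, h8⟩ := hfol u v w hw
      refine ⟨u, SimpleGraph.Walk.nil, g.append (SimpleGraph.Walk.cons hadj (g'.append g'')), h5,
        ?_, fun z hz => ?_, fun z hz hzP => ?_⟩
      · rw [SimpleGraph.Walk.length_nil, zero_add, SimpleGraph.Walk.length_append,
          SimpleGraph.Walk.length_cons, SimpleGraph.Walk.length_append]
        nlinarith
      · rw [SimpleGraph.Walk.support_nil, List.mem_singleton] at hz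
        rw [hz]
        exact hu
      · rw [SimpleGraph.Walk.mem_support_append_iff, SimpleGraph.Walk.support_cons] at hz
        rcases hz with hz | hz
        · exact h8 z hz
        · rcases List.mem_cons.1 hz with rfl | hz
          · exact absurd hzP hv
          · rw [SimpleGraph.Walk.mem_support_append_iff] at hz
            rcases hz with hz | hz
            · exact absurd hzP (h3 z hz)
            · exact h4 z hz hzP

end

/-- X4 -/
theorem swalk (hD : SDust) (hA : SFilA) : SWalk := by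
  intro V W _ _ E hE hC F F0 hF hFT hbl _ hgd Z M D C0 Δ _ hfol hΔ A hAZ hbig b a n k hb ha hmix
  obtain ⟨hbP, s, hs, wb, hwb, hwbP⟩ := hb
  obtain ⟨m, g', g'', hm, hlen, hg', hg''⟩ := x4_mix E hfol hAZ hmix hbP ha
  -- the dust clusters
  set 𝒮 : Set (Set V) := {d | F.dus d ∧ (d ∩ nbh E.T A D).Nonempty} with h𝒮
  have hfin : 𝒮.Finite := Set.toFinite _
  set 𝒟 : Finset (Set V) := hfin.toFinset with h𝒟
  have hmem : ∀ d, d ∈ 𝒟 ↔ (F.dus d ∧ (d ∩ nbh E.T A D).Nonempty) := by
    intro d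
    rw [h𝒟, Set.Finite.mem_toFinset]
    rfl
  have hco : ∀ d, F.dus d → Co E.T dᶜ (F.mn d) := by
    intro d hd
    have := (hA V F F0 hF d hd).1
    rwa [hFT] at this
  have hcl : ∀ d, F.dus d → Co E.T (E.p '' E.P) d := by
    intro d hd
    have := hd.1
    rwa [hFT, hbl] at this
  have hgood : ∀ z ∈ E.gd, ∀ d, F.dus d → z ∈ F.mn d := by
    intro z hz d hd
    rw [← hgd] at hz
    have := hz.2 d hd
    unfold Fld.fil at this
    rw [Set.mem_compl_iff, not_not] at this
    exact this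
  obtain ⟨g1, hg1, hg1P⟩ := hD V W E.T E.G E.p E.P hE.ov 𝒟 F.mn
    (fun d => cut E.T d (F.mn d) / 2)
    (fun d hd => ⟨hcl d ((hmem d).1 hd).1, hco d ((hmem d).1 hd).1⟩)
    (fun d hd x hx x' hx' hax hax' => by
      obtain ⟨w, hw1, hw2⟩ := hC d (F.mn d) (hcl d ((hmem d).1 hd).1).1
        (hco d ((hmem d).1 hd).1) x hx x' hx' hax hax'
      exact ⟨w, by show w.length ≤ cut E.T d (F.mn d) / 2; omega, hw2⟩)
    m a (fun d hd => ⟨hgood _ hm d ((hmem d).1 hd).1, hgood _ ha d ((hmem d).1 hd).1⟩) g''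
    (fun z hz hzP => by
      have h1 := hg'' z hz hzP
      have h2 : E.p z ∈ E.p '' E.P := ⟨z, hzP, rfl⟩
      have h3 := x4_comp E.T (E.p '' E.P) (E.p z) h2
      have h4 : E.p z ∈ {y | Jn E.T (E.p '' E.P) (E.p z) y} := by
        refine ⟨SimpleGraph.Walk.nil, fun y hy => ?_⟩
        rw [SimpleGraph.Walk.support_nil, List.mem_singleton] at hy
        rw [hy]
        exact h2
      refine ⟨_, (hmem _).2 ⟨⟨?_, ?_⟩, ⟨E.p z, h4, h1⟩⟩, h4⟩
      · rw [hFT, hbl]
        exact h3
      · by_contra hlt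
        push Not at hlt
        refine Set.disjoint_left.1 (hbig _ ⟨?_, hlt⟩) h4 h1
        rw [hFT, hbl]
        exact h3)
  -- the cost
  set N : Set V := {z | ∃ d, F.dus d ∧ z ∈ d ∧ (d ∩ nbh E.T A D).Nonempty} with hN
  have hcost : ∑ d ∈ 𝒟, (12 * (cut E.T d (F.mn d) / 2) + 12) ≤ (6 * Δ + 12) * N.ncard := by
    have h1 : ∀ d ∈ 𝒟, 12 * (cut E.T d (F.mn d) / 2) + 12 ≤ (6 * Δ + 12) * d.ncard := by
      intro d hd
      have h2 := x4_cut E.T d (F.mn d) Δ hΔ
      have h3 : 1 ≤ d.ncard := by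
        rw [Nat.one_le_iff_ne_zero, Ne, Set.ncard_eq_zero (Set.toFinite _)]
        exact (hcl d ((hmem d).1 hd).1).1.1.ne_empty
      have h4 : 12 * (cut E.T d (F.mn d) / 2) ≤ 6 * cut E.T d (F.mn d) := by omega
      nlinarith
    refine (Finset.sum_le_sum h1).trans ?_
    rw [← Finset.mul_sum]
    refine Nat.mul_le_mul_left _ (x4_sum N 𝒟 ?_ ?_)
    · intro d hd z hz
      exact ⟨d, ((hmem d).1 hd).1, hz, ((hmem d).1 hd).2⟩
    · intro d hd d' hd' hne
      rw [Set.disjoint_left]
      intro z hz hz'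
      exact hne (x4_eq (hcl d ((hmem d).1 hd).1) (hcl d' ((hmem d').1 hd').1) hz hz')
  refine ⟨g'.length + g''.length, hlen, s, hs, wb.append (g'.append g1), ?_, ?_⟩
  · rw [SimpleGraph.Walk.length_append, SimpleGraph.Walk.length_append]
    omega
  · intro z hz hzP
    exfalso
    rw [SimpleGraph.Walk.mem_support_append_iff, SimpleGraph.Walk.mem_support_append_iff] at hz
    rcases hz with hz | hz | hz
    · have := hwbP z hz hzP
      rw [this] at hzP
      exact hbP hzP
    · exact hg' z hz hzP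
    · exact hg1P z hz hzP

end Pool.Agent.FM
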