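import Pool.Agent.FM.CA
import Pool.Agent.FM.CB
import Pool.Agent.FM.CC
import Pool.Agent.FM.CD
import Pool.Agent.FM.G1
import Pool.Agent.FM.G2
import Pool.Agent.FM.G3
import Pool.Agent.FM.G4
import Pool.Agent.FM.G6
import Pool.Agent.FM.D1
import Pool.Agent.FM.X1
import Pool.Agent.FM.X2
import Pool.Agent.FM.X3
import Pool.Agent.FM.X4
import Pool.Agent.FM.F1
import Pool.Agent.FM.F2
import Pool.Agent.FM.F3
import Pool.Agent.FM.F4
import Pool.Agent.FM.ST

/-!
# MP_4c8b8e_co, project FIRE: abstract topological block, summary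
-/

set_option autoImplicit false

namespace Pool.Agent.FM

/-- contours -/
theorem tall_scd : SCD := scd sca scb scc

/-- the step -/
theorem tall_step : SStepT :=
  sstep sgrow scut ssep snumc (senvok sfila (sfilc sfila (sfilb sfila))) tall_scd
    (swalkt smixt (swalky smixt)) (swalk sdust sfila) sfila (sfilc sfila (sfilb sfila))
    (sfild sfila) (sfiln sfila)

end Pool.Agent.FM
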